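import Pool.Agent.Lib_helper42.AQ.Norms
import Pool.Agent.Lib_helper65.AP.PoissonPoly

/-! The Banach algebra of polynomials completed in the `C^{1,1/2}` norm, and the Banach space of
polynomials vanishing on the circle completed in the `C^{3,1/2}` norm. -/

namespace AQ

open AP AP65 Set Filter Topology UniformSpace MvPolynomial
open scoped ContDiff

/-- smallest admissible constant -/
noncomputable def best (P : ℝ → Prop) : ℝ := sInf {M | 0 ≤ M ∧ P M}

lemma best_nonneg (P : ℝ → Prop) : 0 ≤ best P := Real.sInf_nonneg fun _ h => h.1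

lemma best_le {P : ℝ → Prop} {M : ℝ} (h0 : 0 ≤ M) (h : P M) : best P ≤ M :=
  csInf_le ⟨0, fun _ h => h.1⟩ ⟨h0, h⟩

lemma best_add {P : ℝ → Prop} (hne : ∃ M, 0 ≤ M ∧ P M) (hm : ∀ M M', M ≤ M' → P M → P M')
    {ε : ℝ} (hε : 0 < ε) : P (best P + ε) := by
  obtain ⟨M, hM, hlt⟩ := exists_lt_of_csInf_lt (s := {M | 0 ≤ M ∧ P M}) hne
    (show sInf {M | 0 ≤ M ∧ P M} < best P + ε by rw [best]; linarith)
  exact hm _ _ hlt.le hM.2

/-- polynomials, to be normed by the `C^{1,1/2}` norm -/
def PY : Type := MvPolynomial (Fin 2) ℝ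

noncomputable instance : CommRing PY := (inferInstance : CommRing (MvPolynomial (Fin 2) ℝ))
noncomputable instance : Algebra ℝ PY := (inferInstance : Algebra ℝ (MvPolynomial (Fin 2) ℝ))

/-- polynomials, to be normed by the `C^{3,1/2}` norm of `(1 - r²) p` -/
def PX : Type := MvPolynomial (Fin 2) ℝ

noncomputable instance : AddCommGroup PX :=
  (inferInstance : AddCommGroup (MvPolynomial (Fin 2) ℝ))
noncomputable instance : Module ℝ PX := (inferInstance : Module ℝ (MvPolynomial (Fin 2) ℝ))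

/-- the underlying polynomial -/
def PX.mv (p : PX) : MvPolynomial (Fin 2) ℝ := p
/-- the underlying polynomial -/
def PY.mv (p : PY) : MvPolynomial (Fin 2) ℝ := p

lemma PY.mv_add (p q : PY) : (p + q).mv = p.mv + q.mv := rfl
lemma PY.mv_mul (p q : PY) : (p * q).mv = p.mv * q.mv := rfl
lemma PY.mv_smul (c : ℝ) (q : PY) : (c • q).mv = c • q.mv := rfl
lemma PY.mv_zero : (0 : PY).mv = 0 := rfl
lemma PX.mv_add (p q : PX) : (p + q).mv = p.mv + q.mv := rfl
lemma PX.mv_smul (c : ℝ) (q : PX) : (c • q).mv = c • q.mv := rfl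
lemma PX.mv_zero : (0 : PX).mv = 0 := rfl

/-- evaluation of `p : PY` -/
noncomputable def evy (p : PY) : ℝ × ℝ → ℝ := ev p.mv

/-- the function `(1 - r²) p` -/
noncomputable def evx (p : PX) : ℝ × ℝ → ℝ := ev (bb * p.mv)

lemma evy_cd (p : PY) {n : WithTop ℕ∞} : ContDiff ℝ n (evy p) := by
  rw [evy]; exact ev_contDiff _
lemma evx_cd (p : PX) {n : WithTop ℕ∞} : ContDiff ℝ n (evx p) := by
  rw [evx]; exact ev_contDiff _

lemma evx_bc (p : PX) (x : ℝ × ℝ) (hx : x.1 ^ 2 + x.2 ^ 2 = 1) : evx p x = 0 := by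
  rw [evx, ev_mul, ev_bb, show 1 - x.1 ^ 2 - x.2 ^ 2 = 0 by linarith, zero_mul]

lemma evy_add (p q : PY) : evy (p + q) = fun x => evy p x + evy q x := by
  funext x
  rw [evy, PY.mv_add, ev_add, evy, evy]
lemma evy_mul (p q : PY) : evy (p * q) = fun x => evy p x * evy q x := by
  funext x
  rw [evy, PY.mv_mul, ev_mul, evy, evy]

lemma ev_smul (c : ℝ) (p : MvPolynomial (Fin 2) ℝ) (x : ℝ × ℝ) : ev (c • p) x = c * ev p x := by
  simp [ev]

lemma evy_smul (c : ℝ) (p : PY) : evy (c • p) = fun x => c * evy p x := by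
  funext x
  rw [evy, PY.mv_smul, ev_smul, evy]

lemma evx_add (p q : PX) : evx (p + q) = fun x => evx p x + evx q x := by
  funext x
  rw [evx, PX.mv_add, mul_add, ev_add, evx, evx]

lemma evx_smul (c : ℝ) (p : PX) : evx (c • p) = fun x => c * evx p x := by
  funext x
  rw [evx, PX.mv_smul, mul_smul_comm, ev_smul, evx]

lemma hf0 : (0 : ℝ) < 1 / 2 := by norm_num
lemma hf1 : (1 : ℝ) / 2 < 1 := by norm_num

noncomputable def nY (p : PY) : ℝ := 16 * best (fun M => N1 (1 / 2) M (evy p))
noncomputable def nX (p : PX) : ℝ := best (fun M => N3 (1 / 2) M (evx p))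

lemma nY_best_add (p : PY) {ε : ℝ} (hε : 0 < ε) :
    N1 (1 / 2) (best (fun M => N1 (1 / 2) M (evy p)) + ε) (evy p) :=
  best_add (exists_N1 hf0 hf1 (evy_cd p)) (fun _ _ h h' => h'.mono h) hε

lemma nY_best (p : PY) : N1 (1 / 2) (best (fun M => N1 (1 / 2) M (evy p))) (evy p) :=
  N1.closed fun _ hε => nY_best_add p hε

lemma nY_nonneg (p : PY) : 0 ≤ nY p := mul_nonneg (by norm_num) (best_nonneg _)

lemma nY_spec (p : PY) : N1 (1 / 2) (nY p / 16) (evy p) := by
  have : nY p / 16 = best (fun M => N1 (1 / 2) M (evy p)) := by rw [nY]; ring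
  rw [this]; exact nY_best p

lemma nY_le {p : PY} {M : ℝ} (h : N1 (1 / 2) M (evy p)) : nY p ≤ 16 * M := by
  rw [nY]
  exact mul_le_mul_of_nonneg_left (best_le h.nonneg h) (by norm_num)

lemma nX_nonneg (p : PX) : 0 ≤ nX p := best_nonneg _

lemma nX_spec (p : PX) : N3 (1 / 2) (nX p) (evx p) :=
  N3.closed fun _ hε => best_add (exists_N3 hf0 hf1 (evx_cd p)) (fun _ _ h h' => h'.mono h) hε

lemma nX_le {p : PX} {M : ℝ} (h : N3 (1 / 2) M (evx p)) : nX p ≤ M := best_le h.nonneg h

lemma evy_zero : evy 0 = fun _ => 0 := by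
  funext x
  rw [evy, PY.mv_zero, ev_zero]

lemma evx_zero : evx 0 = fun _ => 0 := by
  funext x
  rw [evx, PX.mv_zero, mul_zero, ev_zero]

lemma cdY (p : PY) : Differentiable ℝ (evy p) := (evy_cd p (n := 1)).differentiable (by norm_num)

lemma nY_add (p q : PY) : nY (p + q) ≤ nY p + nY q := by
  have h := (nY_spec p).add (cdY p) (cdY q) (nY_spec q)
  have := nY_le (p := p + q) (by rw [evy_add]; exact h)
  linarith

lemma nY_mul (p q : PY) : nY (p * q) ≤ nY p * nY q := by
  have h := (nY_spec p).mul hf0 hf1 (cdY p) (cdY q) (nY_spec q)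
  have := nY_le (p := p * q) (by rw [evy_mul]; exact h)
  linarith

lemma nY_smul (c : ℝ) (p : PY) : nY (c • p) ≤ |c| * nY p := by
  have h := (nY_spec p).smul c (cdY p)
  have := nY_le (p := c • p) (by rw [evy_smul]; exact h)
  linarith

lemma D1_zero_fun : D1 (fun _ : ℝ × ℝ => (0 : ℝ)) = fun _ => 0 := funext fun _ => D1_const 0
lemma D2_zero_fun : D2 (fun _ : ℝ × ℝ => (0 : ℝ)) = fun _ => 0 := funext fun _ => D2_const 0

lemma N0_zero {α : ℝ} : N0 α 0 (fun _ => 0) := by
  simpa using N0.const (α := α) 0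

lemma N1_zero {α : ℝ} : N1 α 0 (fun _ => 0) := by
  refine ⟨(N0_zero (α := α)).1, ?_, ?_⟩
  · rw [D1_zero_fun]; exact N0_zero
  · rw [D2_zero_fun]; exact N0_zero
lemma N2_zero {α : ℝ} : N2 α 0 (fun _ => 0) := by
  refine ⟨(N0_zero (α := α)).1, ?_, ?_⟩
  · rw [D1_zero_fun]; exact N1_zero
  · rw [D2_zero_fun]; exact N1_zero
lemma N3_zero {α : ℝ} : N3 α 0 (fun _ => 0) := by
  refine ⟨(N0_zero (α := α)).1, ?_, ?_⟩
  · rw [D1_zero_fun]; exact N2_zero
  · rw [D2_zero_fun]; exact N2_zero

lemma nY_zero : nY 0 = 0 := by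
  have := nY_le (p := 0) (M := 0) (by rw [evy_zero]; exact N1_zero)
  exact le_antisymm (by linarith) (nY_nonneg 0)

lemma nX_zero : nX 0 = 0 := by
  have := nX_le (p := 0) (M := 0) (by rw [evx_zero]; exact N3_zero)
  exact le_antisymm this (nX_nonneg 0)

lemma nX_add (p q : PX) : nX (p + q) ≤ nX p + nX q := by
  have h := N3.add (evx_cd p) (evx_cd q) (nX_spec p) (nX_spec q)
  exact nX_le (p := p + q) (by rw [evx_add]; exact h)

lemma nX_smul (c : ℝ) (p : PX) : nX (c • p) ≤ |c| * nX p := by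
  have h := N3.smul c (evx_cd p) (nX_spec p)
  exact nX_le (p := c • p) (by rw [evx_smul]; exact h)

lemma nY_neg (p : PY) : nY (-p) = nY p := by
  have h1 : ∀ q : PY, nY (-q) ≤ nY q := fun q => by
    have h := nY_smul (-1) q
    have e : ((-1 : ℝ) • q : PY) = -q := by
      have : ((-1 : ℝ) • q.mv : MvPolynomial (Fin 2) ℝ) = -q.mv := neg_one_smul _ _
      exact this
    rw [e] at h
    simpa using h
  refine le_antisymm (h1 p) ?_
  have := h1 (-p)
  rwa [neg_neg] at this

lemma nX_neg (p : PX) : nX (-p) = nX p := by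
  have h1 : ∀ q : PX, nX (-q) ≤ nX q := fun q => by
    have h := nX_smul (-1) q
    have e : ((-1 : ℝ) • q : PX) = -q := by
      have : ((-1 : ℝ) • q.mv : MvPolynomial (Fin 2) ℝ) = -q.mv := neg_one_smul _ _
      exact this
    rw [e] at h
    simpa using h
  refine le_antisymm (h1 p) ?_
  have := h1 (-p)
  rwa [neg_neg] at this

noncomputable instance : SeminormedAddCommGroup PX :=
  AddGroupSeminorm.toSeminormedAddCommGroup
    { toFun := nX, map_zero' := nX_zero, add_le' := nX_add, neg' := nX_neg }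

@[reducible] noncomputable def sgY : SeminormedAddCommGroup PY :=
  AddGroupSeminorm.toSeminormedAddCommGroup
    { toFun := nY, map_zero' := nY_zero, add_le' := nY_add, neg' := nY_neg }

noncomputable instance : SeminormedCommRing PY :=
  { sgY, (inferInstance : CommRing PY) with
    norm_mul_le := nY_mul }

lemma norm_PY (p : PY) : ‖p‖ = nY p := rfl
lemma norm_PX (p : PX) : ‖p‖ = nX p := rfl

noncomputable instance : NormedAlgebra ℝ PY :=
  { (inferInstance : Algebra ℝ PY) with
    norm_smul_le := fun c p => nY_smul c p }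

noncomputable instance : NormedSpace ℝ PX where
  norm_smul_le := fun c p => nX_smul c p

/-- the Banach algebra -/
abbrev YY : Type := Completion PY
/-- the Banach space -/
abbrev XX : Type := Completion PX

noncomputable example : NormedCommRing YY := inferInstance
noncomputable example : NormedAlgebra ℝ YY := inferInstance
noncomputable example : NormedSpace ℝ XX := inferInstance
noncomputable example : CompleteSpace XX := inferInstance


end AQ
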