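import Pool.Agent.Lib_helper42.AQ.Banach

/-! Extension of the derivatives and of evaluation to the completions. -/

namespace AQ

open AP AP65 Set Filter Topology UniformSpace MvPolynomial
open scoped ContDiff

/-- embedding of polynomials -/
noncomputable def iX : PX →L[ℝ] XX := Completion.toComplL
/-- embedding of polynomials -/
noncomputable def iY : PY →L[ℝ] YY := Completion.toComplL

lemma iX_dense : DenseRange iX := Completion.denseRange_coe
lemma iY_dense : DenseRange iY := Completion.denseRange_coe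
lemma iX_norm (p : PX) : ‖iX p‖ = nX p := Completion.norm_coe p
lemma iY_norm (p : PY) : ‖iY p‖ = nY p := Completion.norm_coe p
lemma iY_mul (p q : PY) : iY (p * q) = iY p * iY q := Completion.coe_mul p q
lemma iY_one : iY 1 = 1 := rfl

lemma iX_approx (v : XX) {ε : ℝ} (hε : 0 < ε) : ∃ p, ‖v - iX p‖ < ε := by
  obtain ⟨p, hp⟩ := iX_dense.exists_dist_lt v hε
  exact ⟨p, by rwa [dist_eq_norm] at hp⟩
lemma iY_approx (v : YY) {ε : ℝ} (hε : 0 < ε) : ∃ p, ‖v - iY p‖ < ε := by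
  obtain ⟨p, hp⟩ := iY_dense.exists_dist_lt v hε
  exact ⟨p, by rwa [dist_eq_norm] at hp⟩

/-- extension of linear maps -/
noncomputable def extXY (d : PX →ₗ[ℝ] PY) : XX →L[ℝ] YY :=
  LinearMap.extendOfNorm (iY.toLinearMap ∘ₗ d) iX.toLinearMap

lemma extXY_coe {d : PX →ₗ[ℝ] PY} {C : ℝ} (hd : ∀ p, nY (d p) ≤ C * nX p) (p : PX) :
    extXY d (iX p) = iY (d p) :=
  LinearMap.extendOfNorm_eq (f := iY.toLinearMap ∘ₗ d) (e := iX.toLinearMap) iX_dense
    ⟨C, fun x => by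
      show ‖iY (d x)‖ ≤ C * ‖iX x‖
      rw [iY_norm, iX_norm]; exact hd x⟩ p

/-- multiplication by `1 - r²` -/
noncomputable def mulbb : PX →ₗ[ℝ] MvPolynomial (Fin 2) ℝ where
  toFun p := bb * p.mv
  map_add' p q := by rw [PX.mv_add, mul_add]
  map_smul' c p := by rw [PX.mv_smul, mul_smul_comm]; rfl

/-- identification -/
noncomputable def toPY : MvPolynomial (Fin 2) ℝ →ₗ[ℝ] PY where
  toFun p := p
  map_add' _ _ := rfl
  map_smul' _ _ := rfl

/-- partial derivative -/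
noncomputable def pd (i : Fin 2) : MvPolynomial (Fin 2) ℝ →ₗ[ℝ] MvPolynomial (Fin 2) ℝ :=
  (pderiv i).toLinearMap

noncomputable def d0 : PX →ₗ[ℝ] PY := toPY ∘ₗ mulbb
noncomputable def d1 : PX →ₗ[ℝ] PY := toPY ∘ₗ pd 0 ∘ₗ mulbb
noncomputable def d2 : PX →ₗ[ℝ] PY := toPY ∘ₗ pd 1 ∘ₗ mulbb
noncomputable def d11 : PX →ₗ[ℝ] PY := toPY ∘ₗ pd 0 ∘ₗ pd 0 ∘ₗ mulbb
noncomputable def d12 : PX →ₗ[ℝ] PY := toPY ∘ₗ pd 0 ∘ₗ pd 1 ∘ₗ mulbb
noncomputable def d22 : PX →ₗ[ℝ] PY := toPY ∘ₗ pd 1 ∘ₗ pd 1 ∘ₗ mulbb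

lemma evy_d0 (p : PX) : evy (d0 p) = evx p := rfl

lemma evy_d1 (p : PX) : evy (d1 p) = D1 (evx p) := by
  rw [evx, D1_ev']; rfl
lemma evy_d2 (p : PX) : evy (d2 p) = D2 (evx p) := by
  rw [evx, D2_ev']; rfl
lemma evy_d11 (p : PX) : evy (d11 p) = D1 (D1 (evx p)) := by
  rw [evx, D1_ev', D1_ev']; rfl
lemma evy_d12 (p : PX) : evy (d12 p) = D1 (D2 (evx p)) := by
  rw [evx, D2_ev', D1_ev']; rfl
lemma evy_d22 (p : PX) : evy (d22 p) = D2 (D2 (evx p)) := by
  rw [evx, D2_ev', D2_ev']; rfl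

lemma difX (p : PX) : Differentiable ℝ (evx p) :=
  (evx_cd p (n := 1)).differentiable (by norm_num)
lemma difX1 (p : PX) : Differentiable ℝ (D1 (evx p)) := by
  rw [← evy_d1]; exact cdY _
lemma difX2 (p : PX) : Differentiable ℝ (D2 (evx p)) := by
  rw [← evy_d2]; exact cdY _
lemma difX11 (p : PX) : Differentiable ℝ (D1 (D1 (evx p))) := by
  rw [← evy_d11]; exact cdY _
lemma difX12 (p : PX) : Differentiable ℝ (D1 (D2 (evx p))) := by
  rw [← evy_d12]; exact cdY _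
lemma difX22 (p : PX) : Differentiable ℝ (D2 (D2 (evx p))) := by
  rw [← evy_d22]; exact cdY _
lemma commX (p : PX) : D2 (D1 (evx p)) = D1 (D2 (evx p)) :=
  D12_comm_fun (evx_cd p)

lemma nd0 (p : PX) : nY (d0 p) ≤ 64 * nX p := by
  have h := nX_spec p
  have h0 := h.nonneg
  have h' : N1 (1 / 2) (4 * nX p) (evx p) := by
    refine ⟨h.1.mono (by linarith), ?_, ?_⟩
    · exact N0.of_bd hf0 hf1 (difX1 p) h.2.1.1 h.2.1.2.1.1 h.2.1.2.2.1
    · exact N0.of_bd hf0 hf1 (difX2 p) h.2.2.1 h.2.2.2.1.1 h.2.2.2.2.1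
  have := nY_le (p := d0 p) (by rw [evy_d0]; exact h')
  linarith

lemma nd1 (p : PX) : nY (d1 p) ≤ 64 * nX p := by
  have h := (nX_spec p).2.1
  have h' : N1 (1 / 2) (4 * nX p) (D1 (evx p)) :=
    h.n1 hf0 hf1 (difX11 p) (by rw [commX]; exact difX12 p)
  have := nY_le (p := d1 p) (by rw [evy_d1]; exact h')
  linarith

lemma nd2 (p : PX) : nY (d2 p) ≤ 64 * nX p := by
  have h := (nX_spec p).2.2
  have h' : N1 (1 / 2) (4 * nX p) (D2 (evx p)) :=
    h.n1 hf0 hf1 (difX12 p) (difX22 p)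
  have := nY_le (p := d2 p) (by rw [evy_d2]; exact h')
  linarith

lemma nd11 (p : PX) : nY (d11 p) ≤ 64 * nX p := by
  have h := nX_spec p
  have := nY_le (p := d11 p) (by rw [evy_d11]; exact h.2.1.2.1)
  linarith [h.nonneg]
lemma nd12 (p : PX) : nY (d12 p) ≤ 64 * nX p := by
  have h := nX_spec p
  have := nY_le (p := d12 p) (by rw [evy_d12]; exact h.2.2.2.1)
  linarith [h.nonneg]
lemma nd22 (p : PX) : nY (d22 p) ≤ 64 * nX p := by
  have h := nX_spec p
  have := nY_le (p := d22 p) (by rw [evy_d22]; exact h.2.2.2.2)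
  linarith [h.nonneg]

noncomputable def T0 : XX →L[ℝ] YY := extXY d0
noncomputable def T1 : XX →L[ℝ] YY := extXY d1
noncomputable def T2 : XX →L[ℝ] YY := extXY d2
noncomputable def T11 : XX →L[ℝ] YY := extXY d11
noncomputable def T12 : XX →L[ℝ] YY := extXY d12
noncomputable def T22 : XX →L[ℝ] YY := extXY d22

lemma T0_coe (p : PX) : T0 (iX p) = iY (d0 p) := extXY_coe nd0 p
lemma T1_coe (p : PX) : T1 (iX p) = iY (d1 p) := extXY_coe nd1 p
lemma T2_coe (p : PX) : T2 (iX p) = iY (d2 p) := extXY_coe nd2 p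
lemma T11_coe (p : PX) : T11 (iX p) = iY (d11 p) := extXY_coe nd11 p
lemma T12_coe (p : PX) : T12 (iX p) = iY (d12 p) := extXY_coe nd12 p
lemma T22_coe (p : PX) : T22 (iX p) = iY (d22 p) := extXY_coe nd22 p

/-- evaluation at a point -/
noncomputable def evl (x : ℝ × ℝ) : PY →ₗ[ℝ] ℝ where
  toFun p := evy p x
  map_add' p q := by rw [evy_add]
  map_smul' c p := by rw [evy_smul]; rfl

/-- the function attached to an element of the completion (meaningful on the disc) -/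
noncomputable def fn (y : YY) (x : ℝ × ℝ) : ℝ :=
  LinearMap.extendOfNorm (evl x) iY.toLinearMap y

lemma evl_bound {x : ℝ × ℝ} (hx : x ∈ Disc) (p : PY) : ‖evl x p‖ ≤ 1 * ‖iY.toLinearMap p‖ := by
  show |evy p x| ≤ 1 * ‖iY p‖
  rw [iY_norm]
  have := (nY_spec p).1 x hx
  have h0 := nY_nonneg p
  linarith

lemma fn_coe {x : ℝ × ℝ} (hx : x ∈ Disc) (p : PY) : fn (iY p) x = evy p x :=
  LinearMap.extendOfNorm_eq (f := evl x) (e := iY.toLinearMap) iY_dense ⟨1, evl_bound hx⟩ p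

lemma fn_le {x : ℝ × ℝ} (hx : x ∈ Disc) (y : YY) : |fn y x| ≤ ‖y‖ := by
  have := LinearMap.norm_extendOfNorm_apply_le (f := evl x) (e := iY.toLinearMap) iY_dense 1
    (evl_bound hx) y
  rw [one_mul] at this
  exact this

lemma fn_add (y z : YY) (x : ℝ × ℝ) : fn (y + z) x = fn y x + fn z x := by
  rw [fn, map_add]; rfl
lemma fn_sub (y z : YY) (x : ℝ × ℝ) : fn (y - z) x = fn y x - fn z x := by
  rw [fn, map_sub]; rfl
lemma fn_smul (c : ℝ) (y : YY) (x : ℝ × ℝ) : fn (c • y) x = c * fn y x := by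
  rw [fn, map_smul]; rfl

lemma fn_cont (x : ℝ × ℝ) : Continuous (fun y : YY => fn y x) :=
  ContinuousLinearMap.continuous _

lemma fn_mul {x : ℝ × ℝ} (hx : x ∈ Disc) (y z : YY) : fn (y * z) x = fn y x * fn z x := by
  refine iY_dense.induction_on₂ (p := fun y z : YY => fn (y * z) x = fn y x * fn z x) ?_ ?_ y z
  · exact isClosed_eq ((fn_cont x).comp continuous_mul)
      (((fn_cont x).comp continuous_fst).mul ((fn_cont x).comp continuous_snd))
  · intro p q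
    rw [← iY_mul, fn_coe hx, fn_coe hx, fn_coe hx, evy_mul]

lemma evy_one (x : ℝ × ℝ) : evy 1 x = 1 := by
  have : evy 1 x = ev (1 : MvPolynomial (Fin 2) ℝ) x := rfl
  rw [this]; simp [ev]

lemma fn_one {x : ℝ × ℝ} (hx : x ∈ Disc) : fn 1 x = 1 := by
  rw [← iY_one, fn_coe hx, evy_one]

/-- elements of the completion are Hölder continuous on the disc -/
lemma fn_N0 (y : YY) : N0 (1 / 2) ‖y‖ (fn y) := by
  refine ⟨fun x hx => fn_le hx y, fun x hx z hz => ?_⟩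
  refine iY_dense.induction_on (p := fun y : YY => |fn y x - fn y z| ≤ ‖y‖ * dist x z ^ ((1 : ℝ) / 2))
    y ?_ ?_
  · exact isClosed_le ((fn_cont x).sub (fn_cont z)).abs (continuous_norm.mul continuous_const)
  · intro p
    rw [fn_coe hx, fn_coe hz, iY_norm]
    have h := (nY_spec p).n0 hf0 hf1 (cdY p)
    have h0 := nY_nonneg p
    exact (h.mono (by linarith)).2 x hx z hz

/-- strictly positive elements -/
def Pos : Set YY := {y | ∃ δ > 0, ∀ x ∈ Disc, δ ≤ fn y x}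

lemma Pos_open : IsOpen Pos := by
  rw [Metric.isOpen_iff]
  rintro y ⟨δ, hδ, hy⟩
  refine ⟨δ / 2, by positivity, fun z hz => ⟨δ / 2, by positivity, fun x hx => ?_⟩⟩
  have h1 := fn_le hx (z - y)
  rw [fn_sub] at h1
  have h2 : ‖z - y‖ < δ / 2 := by rwa [Metric.mem_ball, dist_eq_norm] at hz
  have h3 := hy x hx
  have h4 := (abs_le.1 h1).1
  linarith

lemma closure_Pos {y : YY} (hy : y ∈ closure Pos) {x : ℝ × ℝ} (hx : x ∈ Disc) : 0 ≤ fn y x := by
  have : closure Pos ⊆ {y : YY | 0 ≤ fn y x} := by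
    refine closure_minimal ?_ (isClosed_le continuous_const (fn_cont x))
    rintro z ⟨δ, hδ, hz⟩
    exact hδ.le.trans (hz x hx)
  exact this hy

lemma Pos_of_mul {a b : YY} (ha : a ∈ closure Pos) (hab : a * b = 1) : a ∈ Pos := by
  refine ⟨1 / (‖b‖ + 1), by positivity, fun x hx => ?_⟩
  have h0 := closure_Pos ha hx
  have h1 : fn a x * fn b x = 1 := by rw [← fn_mul hx, hab, fn_one hx]
  have h2 := (abs_le.1 (fn_le hx b)).2
  have hn : 0 ≤ ‖b‖ := norm_nonneg b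
  rw [div_le_iff₀ (by positivity)]
  nlinarith

lemma Pos_closed : ∀ a ∈ closure Pos, ∀ b ∈ closure Pos, a * b = 1 → a ∈ Pos ∧ b ∈ Pos :=
  fun _ ha _ hb hab => ⟨Pos_of_mul ha hab, Pos_of_mul hb (by rwa [mul_comm])⟩

end AQ
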