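import Mathlib

/-! The method of continuity for linear operators between Banach spaces. -/

namespace AQ

open Set Filter Topology

variable {X Y : Type*} [NormedAddCommGroup X] [NormedSpace ℝ X] [CompleteSpace X]
  [NormedAddCommGroup Y] [NormedSpace ℝ Y] [CompleteSpace Y]

lemma surj_step (L T : X →L[ℝ] Y) {C : ℝ} (hC : ∀ v, ‖v‖ ≤ C * ‖L v‖)
    (h0 : Function.Surjective L) (hT : C * ‖T‖ < 1) : Function.Surjective (L + T) := by
  have hinj : Function.Injective L := by
    rw [injective_iff_map_eq_zero]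
    intro v hv
    have := hC v
    rw [hv, norm_zero, mul_zero] at this
    exact norm_le_zero_iff.1 this
  let e : X ≃L[ℝ] Y := ContinuousLinearEquiv.ofBijective L
    (LinearMap.ker_eq_bot.2 hinj) (LinearMap.range_eq_top.2 h0)
  have he : ∀ v, e v = L v := fun v => rfl
  have hCT : ‖(e.symm : Y →L[ℝ] X).comp T‖ < 1 := by
    rcases le_or_gt 0 C with hC0 | hC0
    · refine lt_of_le_of_lt (ContinuousLinearMap.opNorm_le_bound _ (by positivity)
        (M := C * ‖T‖) fun v => ?_) hT
      have h1 := hC (e.symm (T v))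
      have h2 : L (e.symm (T v)) = T v := by rw [← he]; simp
      rw [h2] at h1
      calc ‖(e.symm : Y →L[ℝ] X).comp T v‖ = ‖e.symm (T v)‖ := rfl
        _ ≤ C * ‖T v‖ := h1
        _ ≤ C * (‖T‖ * ‖v‖) := by gcongr; exact T.le_opNorm v
        _ = _ := by ring
    · have hz : ∀ v : X, v = 0 := fun v => by
        have := hC v
        have h2 : C * ‖L v‖ ≤ 0 := mul_nonpos_of_nonpos_of_nonneg hC0.le (norm_nonneg _)
        exact norm_le_zero_iff.1 (this.trans h2)
      have : (e.symm : Y →L[ℝ] X).comp T = 0 := by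
        ext v; exact hz _
      rw [this, norm_zero]; norm_num
  have hu : IsUnit (1 + (e.symm : Y →L[ℝ] X).comp T) := by
    have := isUnit_one_sub_of_norm_lt_one (x := -((e.symm : Y →L[ℝ] X).comp T))
      (by rw [norm_neg]; exact hCT)
    rwa [sub_neg_eq_add] at this
  obtain ⟨w, hw⟩ := hu
  intro y
  refine ⟨(↑w⁻¹ : X →L[ℝ] X) (e.symm y), ?_⟩
  set z := (↑w⁻¹ : X →L[ℝ] X) (e.symm y) with hz
  have h1 : (1 + (e.symm : Y →L[ℝ] X).comp T) z = e.symm y := by
    rw [← hw, hz, ← ContinuousLinearMap.mul_apply, Units.mul_inv]; rfl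
  have h2 : z + e.symm (T z) = e.symm y := h1
  have h3 : e z + T z = y := by
    have := congrArg e h2
    rw [map_add] at this
    simpa using this
  exact h3

/-- the method of continuity -/
theorem surj_of_path (L0 L1 : X →L[ℝ] Y) {C : ℝ}
    (hC : ∀ s ∈ Icc (0 : ℝ) 1, ∀ v, ‖v‖ ≤ C * ‖((1 - s) • L0 + s • L1) v‖)
    (h0 : Function.Surjective L0) : Function.Surjective L1 := by
  set R : X →L[ℝ] Y := L1 - L0 with hR
  set M : ℝ → X →L[ℝ] Y := fun s => (1 - s) • L0 + s • L1 with hM
  set C' : ℝ := max C 1 with hC'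
  have hC'0 : 0 < C' := lt_of_lt_of_le one_pos (le_max_right _ _)
  set δ : ℝ := 1 / (2 * (C' * (‖R‖ + 1))) with hδ
  have hRn : 0 ≤ ‖R‖ := norm_nonneg R
  have hδ0 : 0 < δ := by positivity
  have hbd : ∀ s ∈ Icc (0 : ℝ) 1, ∀ v, ‖v‖ ≤ C' * ‖M s v‖ := fun s hs v =>
    (hC s hs v).trans (mul_le_mul_of_nonneg_right (le_max_left _ _) (norm_nonneg _))
  have hstep : ∀ s ∈ Icc (0 : ℝ) 1, ∀ s' ∈ Icc (0 : ℝ) 1, |s' - s| ≤ δ →
      Function.Surjective (M s) → Function.Surjective (M s') := by
    intro s hs s' hs' hd hsur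
    have e : M s' = M s + (s' - s) • R := by
      simp only [hM, hR]
      ext v
      simp only [ContinuousLinearMap.add_apply, ContinuousLinearMap.smul_apply,
        ContinuousLinearMap.sub_apply]
      module
    rw [e]
    refine surj_step _ _ (hbd s hs) hsur ?_
    rw [norm_smul, Real.norm_eq_abs]
    calc C' * (|s' - s| * ‖R‖) ≤ C' * (δ * (‖R‖ + 1)) := by gcongr; linarith
      _ = 1 / 2 := by rw [hδ]; field_simp
      _ < 1 := by norm_num
  have key : ∀ n : ℕ, Function.Surjective (M (min (n * δ) 1)) := by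
    intro n
    induction n with
    | zero =>
      have : M (min ((0 : ℕ) * δ) 1) = L0 := by
        simp [hM]
      rw [this]; exact h0
    | succ n ih =>
      refine hstep _ ⟨by positivity, min_le_right _ _⟩ _ ⟨by positivity, min_le_right _ _⟩ ?_ ih
      have h1 : ((n + 1 : ℕ) : ℝ) * δ = n * δ + δ := by push_cast; ring
      rw [h1, abs_le]
      constructor
      · have := min_le_min_right (1 : ℝ) (show (n : ℝ) * δ ≤ n * δ + δ by linarith)
        linarith
      · rcases le_total ((n : ℝ) * δ) 1 with h | h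
        · rw [min_eq_left h]
          have := min_le_left ((n : ℝ) * δ + δ) 1
          linarith
        · rw [min_eq_right h]
          have := min_le_right ((n : ℝ) * δ + δ) 1
          linarith
  obtain ⟨n, hn⟩ := exists_nat_ge (1 / δ)
  have h1 : 1 ≤ n * δ := by rwa [div_le_iff₀ hδ0] at hn
  have := key n
  rw [min_eq_right h1] at this
  have e : M 1 = L1 := by simp [hM]
  rwa [e] at this

/-- dense range and a lower bound imply surjectivity -/
theorem surj_of_dense (L : X →L[ℝ] Y) {C : ℝ} (hC : ∀ v, ‖v‖ ≤ C * ‖L v‖)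
    (hd : DenseRange L) : Function.Surjective L := by
  have hC' : ∀ v, ‖v‖ ≤ (Real.toNNReal C : ℝ) * ‖L v‖ := fun v =>
    (hC v).trans (mul_le_mul_of_nonneg_right (Real.le_coe_toNNReal C) (norm_nonneg _))
  have ha : AntilipschitzWith (Real.toNNReal C) L := L.antilipschitz_of_bound hC'
  have hcl : IsClosed (range L) := ha.isClosed_range L.uniformContinuous
  rw [← range_eq_univ]
  rw [← hcl.closure_eq]
  exact hd.closure_range

end AQ
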