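import Pool.Agent.Lib_helper42.AQ.Banach2
import Pool.Agent.Lib_helper42.AQ.Path
import Pool.Agent.Lib_helper95.AP.PolyApprox

/-! Smooth functions in the Banach algebra; linear operators; surjectivity. -/

namespace AQ

open AP AP65 Set Filter Topology UniformSpace MvPolynomial
open scoped ContDiff

/-- view a polynomial as an element of `PY` -/
def toP (p : MvPolynomial (Fin 2) ℝ) : PY := p
lemma evy_toP (p : MvPolynomial (Fin 2) ℝ) : evy (toP p) = ev p := rfl

lemma evy_sub (p q : PY) : evy (p - q) = fun x => evy p x - evy q x := by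
  have h1 : (p - q) = p + (-1 : ℝ) • q := by
    have : (p.mv - q.mv : MvPolynomial (Fin 2) ℝ) = p.mv + (-1 : ℝ) • q.mv := by
      rw [neg_one_smul]; exact sub_eq_add_neg _ _
    exact this
  rw [h1, evy_add, evy_smul]
  funext x; ring

/-- smooth functions belong to the completion -/
theorem exists_YY {f : ℝ × ℝ → ℝ} (hf : ContDiff ℝ ∞ f) : ∃ y : YY, ∀ x ∈ Disc, fn y x = f x := by
  have hε : ∀ n : ℕ, (0 : ℝ) < 1 / (n + 1) := fun n => by positivity
  choose p hp using fun n : ℕ => AP95.poly_approx hf (hε n)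
  have hp' : ∀ n : ℕ, ∀ x ∈ Disc, |f x - ev (p n) x| ≤ 1 / (n + 1) ∧
      |D1 f x - D1 (ev (p n)) x| ≤ 1 / (n + 1) ∧ |D2 f x - D2 (ev (p n)) x| ≤ 1 / (n + 1) ∧
      |D1 (D1 f) x - D1 (D1 (ev (p n))) x| ≤ 1 / (n + 1) ∧
      |D1 (D2 f) x - D1 (D2 (ev (p n))) x| ≤ 1 / (n + 1) ∧
      |D2 (D2 f) x - D2 (D2 (ev (p n))) x| ≤ 1 / (n + 1) :=
    fun n x hx => hp n x (disc_abs1 hx) (disc_abs2 hx)
  have key : ∀ n m : ℕ, ‖iY (toP (p n)) - iY (toP (p m))‖ ≤ 64 * (1 / (n + 1) + 1 / (m + 1)) := by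
    intro n m
    rw [← map_sub, iY_norm]
    set E : ℝ := 1 / (n + 1) + 1 / (m + 1) with hE
    have tri : ∀ a b c : ℝ, |a - b| ≤ 1 / (n + 1) → |a - c| ≤ 1 / (m + 1) → |b - c| ≤ E := by
      intro a b c h1 h2
      have e : b - c = (a - c) - (a - b) := by ring
      rw [e, hE, add_comm]
      exact (abs_sub _ _).trans (add_le_add h2 h1)
    have c1 : ∀ q : MvPolynomial (Fin 2) ℝ, Differentiable ℝ (ev q) := fun q x => ev_diff q x
    have c2 : ∀ q : MvPolynomial (Fin 2) ℝ, Differentiable ℝ (D1 (ev q)) := fun q => by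
      rw [D1_ev']; exact c1 _
    have c3 : ∀ q : MvPolynomial (Fin 2) ℝ, Differentiable ℝ (D2 (ev q)) := fun q => by
      rw [D2_ev']; exact c1 _
    have cc : ∀ q : MvPolynomial (Fin 2) ℝ, D2 (D1 (ev q)) = D1 (D2 (ev q)) := fun q =>
      D12_comm_fun (ev_contDiff q)
    have e0 : evy (toP (p n) - toP (p m)) = fun x => ev (p n) x - ev (p m) x := by
      rw [evy_sub, evy_toP, evy_toP]
    have e1 : D1 (evy (toP (p n) - toP (p m))) = fun x => D1 (ev (p n)) x - D1 (ev (p m)) x := by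
      rw [e0, D1_subf (c1 _) (c1 _)]
    have e2 : D2 (evy (toP (p n) - toP (p m))) = fun x => D2 (ev (p n)) x - D2 (ev (p m)) x := by
      rw [e0, D2_subf (c1 _) (c1 _)]
    have b11 : Bd E (D1 (D1 (evy (toP (p n) - toP (p m))))) := fun x hx => by
      rw [e1, D1_subf (c2 _) (c2 _)]
      exact tri _ _ _ (hp' n x hx).2.2.2.1 (hp' m x hx).2.2.2.1
    have b12 : Bd E (D1 (D2 (evy (toP (p n) - toP (p m))))) := fun x hx => by
      rw [e2, D1_subf (c3 _) (c3 _)]
      exact tri _ _ _ (hp' n x hx).2.2.2.2.1 (hp' m x hx).2.2.2.2.1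
    have b22 : Bd E (D2 (D2 (evy (toP (p n) - toP (p m))))) := fun x hx => by
      rw [e2, D2_subf (c3 _) (c3 _)]
      exact tri _ _ _ (hp' n x hx).2.2.2.2.2 (hp' m x hx).2.2.2.2.2
    have b21 : Bd E (D2 (D1 (evy (toP (p n) - toP (p m))))) := fun x hx => by
      rw [e1, D2_subf (c2 _) (c2 _)]
      show |D2 (D1 (ev (p n))) x - D2 (D1 (ev (p m))) x| ≤ E
      rw [cc, cc]
      exact tri _ _ _ (hp' n x hx).2.2.2.2.1 (hp' m x hx).2.2.2.2.1
    have b0 : Bd E (evy (toP (p n) - toP (p m))) := fun x hx => by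
      rw [e0]; exact tri _ _ _ (hp' n x hx).1 (hp' m x hx).1
    have b1 : Bd E (D1 (evy (toP (p n) - toP (p m)))) := fun x hx => by
      rw [e1]; exact tri _ _ _ (hp' n x hx).2.1 (hp' m x hx).2.1
    have b2 : Bd E (D2 (evy (toP (p n) - toP (p m)))) := fun x hx => by
      rw [e2]; exact tri _ _ _ (hp' n x hx).2.2.1 (hp' m x hx).2.2.1
    have hE0 := b0.nonneg
    have h1 : N1 (1 / 2) (4 * E) (evy (toP (p n) - toP (p m))) := by
      refine ⟨b0.mono (by linarith), ?_, ?_⟩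
      · refine N0.of_bd hf0 hf1 ?_ b1 b11 b21
        rw [e1]; exact (c2 _).sub (c2 _)
      · refine N0.of_bd hf0 hf1 ?_ b2 b12 b22
        rw [e2]; exact (c3 _).sub (c3 _)
    have := nY_le h1
    linarith
  have hcau : CauchySeq (fun n => iY (toP (p n))) := by
    rw [Metric.cauchySeq_iff']
    intro ε hε'
    obtain ⟨N, hN⟩ := exists_nat_gt (128 / ε)
    refine ⟨N, fun n hn => ?_⟩
    rw [dist_eq_norm]
    refine (key n N).trans_lt ?_
    have hN0 : (0 : ℝ) < N + 1 := by positivity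
    have h1 : (1 : ℝ) / (n + 1) ≤ 1 / (N + 1) := by
      have : (N : ℝ) ≤ n := by exact_mod_cast hn
      exact one_div_le_one_div_of_le hN0 (by linarith)
    have h2 : (64 : ℝ) * (1 / (n + 1) + 1 / (N + 1)) ≤ 128 * (1 / (N + 1)) := by linarith
    refine h2.trans_lt ?_
    rw [mul_one_div, div_lt_iff₀ hN0]
    rw [div_lt_iff₀ hε'] at hN
    nlinarith
  obtain ⟨y, hy⟩ := cauchySeq_tendsto_of_complete hcau
  refine ⟨y, fun x hx => ?_⟩
  have h1 : Tendsto (fun n => fn (iY (toP (p n))) x) atTop (𝓝 (fn y x)) :=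
    ((fn_cont x).tendsto y).comp hy
  have h2 : Tendsto (fun n => fn (iY (toP (p n))) x) atTop (𝓝 (f x)) := by
    have h3 : ∀ n, fn (iY (toP (p n))) x = ev (p n) x := fun n => by
      rw [fn_coe hx, evy_toP]
    simp_rw [h3]
    rw [tendsto_iff_dist_tendsto_zero]
    refine squeeze_zero (fun n => dist_nonneg) (fun n => ?_) tendsto_one_div_add_atTop_nhds_zero_nat
    rw [dist_comm, Real.dist_eq]
    exact (hp' n x hx).1
  exact tendsto_nhds_unique h1 h2

/-- linear second order operators between the completions -/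
noncomputable def LY (a11 a12 a22 b1 b2 : YY) : XX →L[ℝ] YY :=
  (ContinuousLinearMap.mul ℝ YY a11).comp T11
    + (2 : ℝ) • (ContinuousLinearMap.mul ℝ YY a12).comp T12
    + (ContinuousLinearMap.mul ℝ YY a22).comp T22
    + (ContinuousLinearMap.mul ℝ YY b1).comp T1 + (ContinuousLinearMap.mul ℝ YY b2).comp T2

lemma LY_apply (a11 a12 a22 b1 b2 : YY) (v : XX) : LY a11 a12 a22 b1 b2 v =
    a11 * T11 v + (2 : ℝ) • (a12 * T12 v) + a22 * T22 v + b1 * T1 v + b2 * T2 v := rfl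

/-- the function of `LY a v` -/
lemma fn_LY (a11 a12 a22 b1 b2 : YY) (v : XX) {x : ℝ × ℝ} (hx : x ∈ Disc) :
    fn (LY a11 a12 a22 b1 b2 v) x = fn a11 x * fn (T11 v) x + 2 * (fn a12 x * fn (T12 v) x)
      + fn a22 x * fn (T22 v) x + fn b1 x * fn (T1 v) x + fn b2 x * fn (T2 v) x := by
  rw [LY_apply, fn_add, fn_add, fn_add, fn_add, fn_smul, fn_mul hx, fn_mul hx, fn_mul hx,
    fn_mul hx, fn_mul hx]

/-- polynomial version of the operator -/
noncomputable def LP (a11 a12 a22 b1 b2 : PY) (p : PX) : PY :=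
  a11 * d11 p + (2 : ℝ) • (a12 * d12 p) + a22 * d22 p + b1 * d1 p + b2 * d2 p

lemma LY_coe (a11 a12 a22 b1 b2 : PY) (p : PX) :
    LY (iY a11) (iY a12) (iY a22) (iY b1) (iY b2) (iX p) = iY (LP a11 a12 a22 b1 b2 p) := by
  rw [LY_apply, T11_coe, T12_coe, T22_coe, T1_coe, T2_coe, LP, map_add, map_add, map_add,
    map_add, map_smul, iY_mul, iY_mul, iY_mul, iY_mul, iY_mul]

lemma evy_LP (a11 a12 a22 b1 b2 : PY) (p : PX) : evy (LP a11 a12 a22 b1 b2 p)
    = Lop (evy a11) (evy a12) (evy a22) (evy b1) (evy b2) (evx p) := by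
  rw [LP, evy_add, evy_add, evy_add, evy_add, evy_smul, evy_mul, evy_mul, evy_mul, evy_mul,
    evy_mul, evy_d11, evy_d12, evy_d22, evy_d1, evy_d2]
  rfl

end AQ
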