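import Pool.Agent.Lib_helper42.AQ.Banach3

/-! The Schauder estimate and the solvability of linear equations in the completions. -/

namespace AQ

open AP AP65 Set Filter Topology UniformSpace MvPolynomial
open scoped ContDiff

/-- the tame `C^{3,1/2}` Schauder estimate (proved elsewhere) -/
def SchauderThree : Prop := ∀ lam Lam : ℝ, 0 < lam → ∃ C, 0 < C ∧
    ∀ (a11 a12 a22 b1 b2 u : ℝ × ℝ → ℝ) (K F0 F1 : ℝ), ContDiff ℝ ∞ u →
      ContDiff ℝ ∞ a11 → ContDiff ℝ ∞ a12 → ContDiff ℝ ∞ a22 → ContDiff ℝ ∞ b1 → ContDiff ℝ ∞ b2 →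
      (∀ x : ℝ × ℝ, x.1 ^ 2 + x.2 ^ 2 = 1 → u x = 0) →
      N0 (1 / 2) Lam a11 → N0 (1 / 2) Lam a12 → N0 (1 / 2) Lam a22 → N0 (1 / 2) Lam b1 →
      N0 (1 / 2) Lam b2 →
      N1 (1 / 2) K a11 → N1 (1 / 2) K a12 → N1 (1 / 2) K a22 → N1 (1 / 2) K b1 →
      N1 (1 / 2) K b2 → 0 ≤ K →
      Ell lam a11 a12 a22 → N0 (1 / 2) F0 (Lop a11 a12 a22 b1 b2 u) →
      N1 (1 / 2) F1 (Lop a11 a12 a22 b1 b2 u) → N3 (1 / 2) (C * (F1 + (1 + K) * F0)) u

lemma iY_seq (a : YY) : ∃ p : ℕ → PY, (∀ n, ‖a - iY (p n)‖ < 1 / (n + 1)) ∧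
    Tendsto (fun n => iY (p n)) atTop (𝓝 a) := by
  choose p hp using fun n : ℕ => iY_approx a (show (0 : ℝ) < 1 / (n + 1) by positivity)
  refine ⟨p, hp, ?_⟩
  rw [tendsto_iff_norm_sub_tendsto_zero]
  refine squeeze_zero (fun n => norm_nonneg _) (fun n => ?_)
    tendsto_one_div_add_atTop_nhds_zero_nat
  rw [norm_sub_rev]; exact (hp n).le

lemma iX_seq (a : XX) : ∃ p : ℕ → PX, Tendsto (fun n => iX (p n)) atTop (𝓝 a) := by
  choose p hp using fun n : ℕ => iX_approx a (show (0 : ℝ) < 1 / (n + 1) by positivity)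
  refine ⟨p, ?_⟩
  rw [tendsto_iff_norm_sub_tendsto_zero]
  refine squeeze_zero (fun n => norm_nonneg _) (fun n => ?_)
    tendsto_one_div_add_atTop_nhds_zero_nat
  rw [norm_sub_rev]; exact (hp n).le

/-- Hölder bounds of nearby elements -/
lemma N0_near {a : YY} {p : PY} {Lam δ : ℝ} (ha : N0 (1 / 2) Lam (fn a)) (h : ‖a - iY p‖ ≤ δ) :
    N0 (1 / 2) (Lam + δ) (evy p) := by
  have h1 : N0 (1 / 2) (Lam + δ) (fun x => fn a x - fn (a - iY p) x) :=
    (ha.sub (fn_N0 (a - iY p))).mono (by linarith)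
  refine h1.congr fun x hx => ?_
  rw [fn_sub, fn_coe hx]; ring

lemma N1_near {a : YY} {p : PY} {K δ : ℝ} (ha : ‖a‖ ≤ K) (h : ‖a - iY p‖ ≤ δ) :
    N1 (1 / 2) (K + δ) (evy p) := by
  have h1 : ‖iY p‖ ≤ K + δ := by
    calc ‖iY p‖ = ‖a - (a - iY p)‖ := by congr 1; abel
      _ ≤ ‖a‖ + ‖a - iY p‖ := norm_sub_le _ _
      _ ≤ K + δ := add_le_add ha h
  rw [iY_norm] at h1
  have := nY_nonneg p
  exact (nY_spec p).mono (by linarith)

lemma near_val {a : YY} {p : PY} {δ : ℝ} (h : ‖a - iY p‖ ≤ δ) {x : ℝ × ℝ} (hx : x ∈ Disc) :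
    |fn a x - evy p x| ≤ δ := by
  have := fn_le hx (a - iY p)
  rw [fn_sub, fn_coe hx] at this
  exact this.trans h

/-- the Schauder estimate in the completions -/
theorem schauder3_YY (hS : SchauderThree) {lam Lam : ℝ} (hl : 0 < lam) : ∃ C, 0 < C ∧
    ∀ (a11 a12 a22 b1 b2 : YY) (v : XX) (K F0 : ℝ), N0 (1 / 2) Lam (fn a11) →
      N0 (1 / 2) Lam (fn a12) → N0 (1 / 2) Lam (fn a22) → N0 (1 / 2) Lam (fn b1) →
      N0 (1 / 2) Lam (fn b2) → ‖a11‖ ≤ K → ‖a12‖ ≤ K → ‖a22‖ ≤ K → ‖b1‖ ≤ K → ‖b2‖ ≤ K →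
      Ell lam (fn a11) (fn a12) (fn a22) → N0 (1 / 2) F0 (fn (LY a11 a12 a22 b1 b2 v)) →
      ‖v‖ ≤ C * (‖LY a11 a12 a22 b1 b2 v‖ + (1 + K) * F0) := by
  obtain ⟨C, hC0, hC⟩ := hS (lam / 2) (Lam + 1) (by positivity)
  refine ⟨C, hC0, fun a11 a12 a22 b1 b2 v K F0 n11 n12 n22 m1 m2 k11 k12 k22 l1 l2 hE hF => ?_⟩
  obtain ⟨p11, hp11, t11⟩ := iY_seq a11
  obtain ⟨p12, hp12, t12⟩ := iY_seq a12
  obtain ⟨p22, hp22, t22⟩ := iY_seq a22
  obtain ⟨q1, hq1, s1⟩ := iY_seq b1
  obtain ⟨q2, hq2, s2⟩ := iY_seq b2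
  obtain ⟨w, hw⟩ := iX_seq v
  have hLam : 0 ≤ Lam := n11.nonneg
  have hK : 0 ≤ K := (norm_nonneg _).trans k11
  set L : YY := LY a11 a12 a22 b1 b2 v with hL
  set P : ℕ → PY := fun n => LP (p11 n) (p12 n) (p22 n) (q1 n) (q2 n) (w n) with hP
  have hPt : Tendsto (fun n => iY (P n)) atTop (𝓝 L) := by
    have e : (fun n => iY (P n)) = fun n => iY (p11 n) * T11 (iX (w n))
        + (2 : ℝ) • (iY (p12 n) * T12 (iX (w n))) + iY (p22 n) * T22 (iX (w n))
        + iY (q1 n) * T1 (iX (w n)) + iY (q2 n) * T2 (iX (w n)) := by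
      funext n
      rw [hP, ← LY_coe, LY_apply]
    rw [e, hL, LY_apply]
    have c11 := (T11.continuous.tendsto v).comp hw
    have c12 := (T12.continuous.tendsto v).comp hw
    have c22 := (T22.continuous.tendsto v).comp hw
    have c1 := (T1.continuous.tendsto v).comp hw
    have c2 := (T2.continuous.tendsto v).comp hw
    exact ((((t11.mul c11).add ((t12.mul c12).const_smul (2 : ℝ))).add (t22.mul c22)).add
      (s1.mul c1)).add (s2.mul c2)
  set r : ℕ → ℝ := fun n => ‖iY (P n) - L‖ with hr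
  have hr0 : Tendsto r atTop (𝓝 0) := by
    have := (tendsto_iff_norm_sub_tendsto_zero).1 hPt
    exact this
  set δ : ℕ → ℝ := fun n => 1 / ((n : ℝ) + 1) with hδ
  have hδ0 : Tendsto δ atTop (𝓝 0) := tendsto_one_div_add_atTop_nhds_zero_nat
  have hδp : ∀ n, 0 < δ n := fun n => by simp only [hδ]; positivity
  -- the estimate at level n
  have hsmall : ∀ᶠ n in atTop, δ n < min 1 (lam / (8 * (Lam + 1))) :=
    hδ0.eventually (gt_mem_nhds (by positivity))
  have key : ∀ᶠ n in atTop, ‖iX (w n)‖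
      ≤ C * ((‖L‖ + r n) + (1 + (K + δ n)) * (F0 + r n)) := by
    filter_upwards [hsmall] with n hn
    have hn1 : δ n < 1 := hn.trans_le (min_le_left _ _)
    have hn2 : δ n < lam / (8 * (Lam + 1)) := hn.trans_le (min_le_right _ _)
    have hn3 : δ n * (8 * (Lam + 1)) < lam := by rwa [lt_div_iff₀ (by positivity)] at hn2
    have hd := hδp n
    have g11 := (hp11 n).le
    have g12 := (hp12 n).le
    have g22 := (hp22 n).le
    have g1 := (hq1 n).le
    have g2 := (hq2 n).le
    have hLop : evy (P n) = Lop (evy (p11 n)) (evy (p12 n)) (evy (p22 n)) (evy (q1 n))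
        (evy (q2 n)) (evx (w n)) := evy_LP _ _ _ _ _ _
    have hrn : ‖L - iY (P n)‖ ≤ r n := by rw [norm_sub_rev]
    have hf0' : N0 (1 / 2) (F0 + r n) (evy (P n)) := N0_near hF hrn
    have hf1' : N1 (1 / 2) (‖L‖ + r n) (evy (P n)) := N1_near le_rfl hrn
    have hell : Ell (lam / 2) (evy (p11 n)) (evy (p12 n)) (evy (p22 n)) := by
      intro x hx
      obtain ⟨e1, e2⟩ := hE x hx
      have v11 := abs_le.1 (near_val g11 hx)
      have v12 := abs_le.1 (near_val g12 hx)
      have v22 := abs_le.1 (near_val g22 hx)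
      have w11 := abs_le.1 (n11.1 x hx)
      have w12 := abs_le.1 (n12.1 x hx)
      have w22 := abs_le.1 (n22.1 x hx)
      have hdd : (1 : ℝ) / ((n : ℝ) + 1) = δ n := rfl
      rw [hdd] at v11 v12 v22
      set A := fn a11 x
      set B := fn a12 x
      set D := fn a22 x
      set A' := evy (p11 n) x
      set B' := evy (p12 n) x
      set D' := evy (p22 n) x
      have e3 : δ n < lam / 8 := by
        have : δ n * 8 ≤ δ n * (8 * (Lam + 1)) := by
          apply mul_le_mul_of_nonneg_left _ hd.le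
          linarith
        linarith
      refine ⟨by linarith, ?_⟩
      have h1 : |A * D - A' * D'| ≤ (2 * Lam + 1) * δ n := by
        have e : A * D - A' * D' = (A - A') * D + A' * (D - D') := by ring
        have hA' : |A'| ≤ Lam + 1 := by
          rw [abs_le]; constructor <;> linarith
        rw [e]
        calc |(A - A') * D + A' * (D - D')| ≤ |A - A'| * |D| + |A'| * |D - D'| := by
              rw [← abs_mul, ← abs_mul]; exact abs_add_le _ _
          _ ≤ δ n * Lam + (Lam + 1) * δ n := by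
              gcongr
              · exact abs_le.2 v11
              · exact abs_le.2 w22
              · exact abs_le.2 v22
          _ = _ := by ring
      have h2 : |B ^ 2 - B' ^ 2| ≤ (2 * Lam + 1) * δ n := by
        have e : B ^ 2 - B' ^ 2 = (B - B') * (B + B') := by ring
        have hB' : |B + B'| ≤ 2 * Lam + 1 := by
          rw [abs_le]; constructor <;> linarith
        rw [e, abs_mul, mul_comm]
        gcongr
        exact abs_le.2 v12
      have h3 := abs_le.1 h1
      have h4 := abs_le.1 h2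
      have h5 : (2 * Lam + 1) * δ n * 2 ≤ lam / 2 := by nlinarith
      linarith
    have := hC (evy (p11 n)) (evy (p12 n)) (evy (p22 n)) (evy (q1 n)) (evy (q2 n)) (evx (w n))
      (K + δ n) (F0 + r n) (‖L‖ + r n) (evx_cd _) (evy_cd _) (evy_cd _) (evy_cd _) (evy_cd _)
      (evy_cd _) (evx_bc _) ((N0_near n11 g11).mono (by linarith))
      ((N0_near n12 g12).mono (by linarith)) ((N0_near n22 g22).mono (by linarith))
      ((N0_near m1 g1).mono (by linarith)) ((N0_near m2 g2).mono (by linarith))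
      (N1_near k11 g11) (N1_near k12 g12) (N1_near k22 g22) (N1_near l1 g1) (N1_near l2 g2)
      (by linarith) hell (by rw [← hLop]; exact hf0') (by rw [← hLop]; exact hf1')
    rw [iX_norm]
    exact nX_le this
  have hlim1 : Tendsto (fun n => ‖iX (w n)‖) atTop (𝓝 ‖v‖) := hw.norm
  have hlim2 : Tendsto (fun n => C * ((‖L‖ + r n) + (1 + (K + δ n)) * (F0 + r n))) atTop
      (𝓝 (C * ((‖L‖ + 0) + (1 + (K + 0)) * (F0 + 0)))) :=
    ((tendsto_const_nhds.add hr0).add ((tendsto_const_nhds.add (tendsto_const_nhds.add hδ0)).mul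
      (tendsto_const_nhds.add hr0))).const_mul C
  have := le_of_tendsto_of_tendsto hlim1 hlim2 key
  simpa using this

lemma LY_add_smul (s : ℝ) (a11 a12 a22 b1 b2 : YY) :
    LY ((1 - s) • 1 + s • a11) (s • a12) ((1 - s) • 1 + s • a22) (s • b1) (s • b2)
      = (1 - s) • LY 1 0 1 0 0 + s • LY a11 a12 a22 b1 b2 := by
  ext v
  simp only [add_apply, smul_apply]
  rw [LY_apply, LY_apply, LY_apply]
  simp only [add_mul, smul_mul_assoc, one_mul, zero_mul, smul_zero, add_zero, smul_add]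
  module

/-- the Laplacian has dense range -/
lemma LY_laplace_dense : DenseRange (LY 1 0 1 0 0) := by
  refine iY_dense.mono ?_
  rintro _ ⟨q, rfl⟩
  obtain ⟨p, hp⟩ := poisson_poly q.mv
  refine ⟨iX (p : PX), ?_⟩
  have e : LP (1 : PY) 0 1 0 0 (p : PX) = q := by
    have h1 : LP (1 : PY) 0 1 0 0 (p : PX) = d11 p + d22 p := by
      simp [LP]
    rw [h1]
    have h2 : ∀ x, evy (d11 p + d22 p) x = evy q x := fun x => by
      rw [evy_add, evy_d11, evy_d22]
      have := hp x
      have e2 : evx (p : PX) = fun y : ℝ × ℝ => (1 - y.1 ^ 2 - y.2 ^ 2) * ev p y := by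
        funext y
        have : evx (p : PX) y = ev (bb * p) y := rfl
        rw [this, ev_mul, ev_bb]
      rw [e2]
      exact this
    have h3 : ((d11 p + d22 p : PY).mv) = q.mv := by
      apply MvPolynomial.funext
      intro s
      have h4 := h2 (s 0, s 1)
      have h5 : (![s 0, s 1] : Fin 2 → ℝ) = s := by
        ext i; fin_cases i <;> rfl
      have h6 : ∀ r : PY, evy r (s 0, s 1) = MvPolynomial.eval s r.mv := fun r => by
        show MvPolynomial.eval ![s 0, s 1] r.mv = _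
        rw [h5]
      rw [h6, h6] at h4
      exact h4
    exact h3
  have h1 : (1 : YY) = iY 1 := rfl
  have h0 : (0 : YY) = iY 0 := by rw [map_zero]
  rw [h1, h0, LY_coe, e]

/-- solvability of linear equations in the completions -/
theorem LY_surj (hS : SchauderThree) {lam : ℝ} (hl : 0 < lam) {a11 a12 a22 b1 b2 : YY}
    (hE : Ell lam (fn a11) (fn a12) (fn a22)) : Function.Surjective (LY a11 a12 a22 b1 b2) := by
  set K : ℝ := 1 + ‖(1 : YY)‖ + ‖a11‖ + ‖a12‖ + ‖a22‖ + ‖b1‖ + ‖b2‖ with hK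
  have hn : ∀ a : YY, 0 ≤ ‖a‖ := fun a => norm_nonneg a
  have hK0 : 0 ≤ K := by
    have := hn 1; have := hn a11; have := hn a12; have := hn a22; have := hn b1; have := hn b2
    linarith
  set mu : ℝ := min (1 / 2) (lam / 4) with hmu
  have hmu0 : 0 < mu := by positivity
  obtain ⟨C, hC0, hC⟩ := schauder3_YY hS (lam := mu) (Lam := K) hmu0
  have hpath : ∀ s ∈ Icc (0 : ℝ) 1, ∀ v, ‖v‖ ≤ (C * (2 + K)) *
      ‖((1 - s) • LY 1 0 1 0 0 + s • LY a11 a12 a22 b1 b2) v‖ := by
    intro s hs v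
    rw [← LY_add_smul]
    have hs0 := hs.1
    have hs1 := hs.2
    have n1 : ∀ a : YY, ‖a‖ ≤ K - ‖(1 : YY)‖ → ‖(1 - s) • (1 : YY) + s • a‖ ≤ K := by
      intro a ha
      have := hn 1
      calc ‖(1 - s) • (1 : YY) + s • a‖ ≤ ‖(1 - s) • (1 : YY)‖ + ‖s • a‖ := norm_add_le _ _
        _ = (1 - s) * ‖(1 : YY)‖ + s * ‖a‖ := by
            rw [norm_smul, norm_smul, Real.norm_of_nonneg hs0, Real.norm_of_nonneg (by linarith)]
        _ ≤ 1 * ‖(1 : YY)‖ + 1 * ‖a‖ := by
            gcongr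
            linarith
        _ ≤ K := by linarith
    have n2 : ∀ a : YY, ‖a‖ ≤ K → ‖s • a‖ ≤ K := by
      intro a ha
      rw [norm_smul, Real.norm_of_nonneg hs0]
      calc s * ‖a‖ ≤ 1 * ‖a‖ := by gcongr
        _ ≤ K := by linarith
    have h1 := hn 1; have h2 := hn a11; have h3 := hn a12; have h4 := hn a22
    have h5 := hn b1; have h6 := hn b2
    have k11 := n1 a11 (by linarith)
    have k12 := n2 a12 (by linarith)
    have k22 := n1 a22 (by linarith)
    have l1 := n2 b1 (by linarith)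
    have l2 := n2 b2 (by linarith)
    have hell : Ell mu (fn ((1 - s) • 1 + s • a11)) (fn (s • a12)) (fn ((1 - s) • 1 + s • a22)) := by
      intro x hx
      obtain ⟨e1, e2⟩ := hE x hx
      simp only [fn_add, fn_smul, fn_one hx]
      set A := fn a11 x
      set B := fn a12 x
      set D := fn a22 x
      have m1 : mu ≤ 1 / 2 := min_le_left _ _
      have m2 : mu ≤ lam / 4 := min_le_right _ _
      have hA : 0 < A := by linarith
      have hAD : 0 < A * D := by nlinarith [sq_nonneg B]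
      have hD : 0 < D := by
        by_contra hcon
        push Not at hcon
        nlinarith
      constructor
      · have : mu ≤ min 1 lam := le_min (by linarith) (by linarith)
        have h7 : mu ≤ 1 := by linarith
        have h8 : mu ≤ A := by linarith
        nlinarith
      · have e3 : ((1 - s) * 1 + s * A) * ((1 - s) * 1 + s * D) - (s * B) ^ 2
            = (1 - s) ^ 2 + (1 - s) * s * (A + D) + s ^ 2 * (A * D - B ^ 2) := by ring
        rw [e3]
        have h9 : 0 ≤ (1 - s) * s * (A + D) := by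
          have : 0 ≤ 1 - s := by linarith
          positivity
        have h10 : s ^ 2 * lam ≤ s ^ 2 * (A * D - B ^ 2) := by gcongr
        have h11 : mu ≤ (1 - s) ^ 2 + s ^ 2 * lam := by
          rcases le_total s (1 / 4) with h | h
          · have : (1 : ℝ) / 2 ≤ (1 - s) ^ 2 := by nlinarith
            have := mul_nonneg (sq_nonneg s) hl.le
            linarith
          · rcases le_total s (1 / 2) with h' | h'
            · -- (1-s)^2 ≥ 1/4, s^2 lam ≥ lam / 16
              have q1 : (1 : ℝ) / 4 ≤ (1 - s) ^ 2 := by nlinarith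
              have q2 : (1 : ℝ) / 16 ≤ s ^ 2 := by nlinarith
              have q3 : lam / 16 ≤ s ^ 2 * lam := by nlinarith
              rcases le_total lam 1 with hl1 | hl1
              · linarith
              · -- mu ≤ 1/2, need 1/4 + s^2 lam ≥ mu
                have q4 : (1 - s) ^ 2 + s ^ 2 ≥ 1 / 2 := by nlinarith [sq_nonneg (1 - 2 * s)]
                have q5 : s ^ 2 ≤ s ^ 2 * lam := by nlinarith [sq_nonneg s]
                linarith
            · have q2 : (1 : ℝ) / 4 ≤ s ^ 2 := by nlinarith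
              have q3 : lam / 4 ≤ s ^ 2 * lam := by nlinarith
              have := sq_nonneg (1 - s)
              linarith
        linarith
    have := hC _ _ _ _ _ v K _ ((fn_N0 _).mono k11) ((fn_N0 _).mono k12) ((fn_N0 _).mono k22)
      ((fn_N0 _).mono l1) ((fn_N0 _).mono l2) k11 k12 k22 l1 l2 hell (fn_N0 _)
    refine this.trans (le_of_eq ?_)
    ring
  have h0 : Function.Surjective (LY 1 0 1 0 0) := by
    refine surj_of_dense _ (C := C * (2 + K)) (fun v => ?_) LY_laplace_dense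
    have := hpath 0 ⟨le_rfl, zero_le_one⟩ v
    simpa using this
  exact surj_of_path _ _ hpath h0

end AQ
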