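import Pool.Agent.Lib_helper42.AQ.FinalDefs

/-! `C2Holder` only depends on the values on the closure. -/

namespace AQ

open AP Set Filter Topology

lemma C2Holder.congr {Ω : Set (ℝ × ℝ)} {α : ℝ} {u v : ℝ × ℝ → ℝ} (hΩ : IsOpen Ω)
    (hv : C2Holder Ω α v) (he : ∀ x ∈ closure Ω, v x = u x) : C2Holder Ω α u := by
  have hev : ∀ x ∈ Ω, v =ᶠ[𝓝 x] u := fun x hx => by
    filter_upwards [hΩ.mem_nhds hx] with y hy using he y (subset_closure hy)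
  have h1 : ∀ x ∈ Ω, D1 v x = D1 u x := fun x hx => D1_congr (hev x hx)
  have h2 : ∀ x ∈ Ω, D2 v x = D2 u x := fun x hx => D2_congr (hev x hx)
  have e1 : ∀ x ∈ Ω, D1 v =ᶠ[𝓝 x] D1 u := fun x hx => by
    filter_upwards [hΩ.mem_nhds hx] with y hy using h1 y hy
  have e2 : ∀ x ∈ Ω, D2 v =ᶠ[𝓝 x] D2 u := fun x hx => by
    filter_upwards [hΩ.mem_nhds hx] with y hy using h2 y hy
  have h11 : ∀ x ∈ Ω, D1 (D1 v) x = D1 (D1 u) x := fun x hx => D1_congr (e1 x hx)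
  have h12 : ∀ x ∈ Ω, D1 (D2 v) x = D1 (D2 u) x := fun x hx => D1_congr (e2 x hx)
  have h22 : ∀ x ∈ Ω, D2 (D2 v) x = D2 (D2 u) x := fun x hx => D2_congr (e2 x hx)
  have h0 : ∀ x ∈ Ω, v x = u x := fun x hx => he x (subset_closure hx)
  obtain ⟨C, hC⟩ := hv.bound
  obtain ⟨C', hC'⟩ := hv.holder
  refine ⟨hv.cont.congr fun x hx => (he x hx).symm, hv.c2.congr fun x hx => (h0 x hx).symm,
    ⟨C, fun x hx => ?_⟩, ⟨C', fun x hx y hy => ?_⟩⟩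
  · rw [← h0 x hx, ← h1 x hx, ← h2 x hx, ← h11 x hx, ← h12 x hx, ← h22 x hx]
    exact hC x hx
  · rw [← h0 x hx, ← h1 x hx, ← h2 x hx, ← h11 x hx, ← h12 x hx, ← h22 x hx,
      ← h0 y hy, ← h1 y hy, ← h2 y hy, ← h11 y hy, ← h12 y hy, ← h22 y hy]
    exact hC' x hx y hy

end AQ
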