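import Pool.Agent.Lib_helper42.AP.Sol

/-! Common definitions for the full answer: Hölder classes on the closed unit disc, linear
second order operators, limit objects and blow-up data. -/

namespace AQ

open AP Set Filter Topology

/-- the closed unit disc -/
def Disc : Set (ℝ × ℝ) := {x | x.1 ^ 2 + x.2 ^ 2 ≤ 1}

/-- `|f| ≤ M` on the disc -/
def Bd (M : ℝ) (f : ℝ × ℝ → ℝ) : Prop := ∀ x ∈ Disc, |f x| ≤ M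

/-- Hölder bound with exponent `α` and constant `M` on the disc -/
def Hol (α M : ℝ) (f : ℝ × ℝ → ℝ) : Prop :=
  ∀ x ∈ Disc, ∀ y ∈ Disc, |f x - f y| ≤ M * dist x y ^ α

/-- Lipschitz bound on the disc -/
def Lip (M : ℝ) (f : ℝ × ℝ → ℝ) : Prop :=
  ∀ x ∈ Disc, ∀ y ∈ Disc, |f x - f y| ≤ M * dist x y

/-- `C^{0,α}` norm at most `M` -/
def N0 (α M : ℝ) (f : ℝ × ℝ → ℝ) : Prop := Bd M f ∧ Hol α M f

/-- `C^{1,α}` norm at most `M` -/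
def N1 (α M : ℝ) (f : ℝ × ℝ → ℝ) : Prop := Bd M f ∧ N0 α M (D1 f) ∧ N0 α M (D2 f)

/-- `C^{2,α}` norm at most `M` -/
def N2 (α M : ℝ) (f : ℝ × ℝ → ℝ) : Prop := Bd M f ∧ N1 α M (D1 f) ∧ N1 α M (D2 f)

/-- `C^{3,α}` norm at most `M` -/
def N3 (α M : ℝ) (f : ℝ × ℝ → ℝ) : Prop := Bd M f ∧ N2 α M (D1 f) ∧ N2 α M (D2 f)

/-- linear second order operators -/
noncomputable def Lop (a11 a12 a22 b1 b2 u : ℝ × ℝ → ℝ) (x : ℝ × ℝ) : ℝ :=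
  a11 x * D1 (D1 u) x + 2 * (a12 x * D1 (D2 u) x) + a22 x * D2 (D2 u) x
    + b1 x * D1 u x + b2 x * D2 u x

/-- ellipticity on the disc -/
def Ell (lam : ℝ) (a11 a12 a22 : ℝ × ℝ → ℝ) : Prop :=
  ∀ x ∈ Disc, lam ≤ a11 x ∧ lam ≤ a11 x * a22 x - a12 x ^ 2

/-- limit objects: `G` is `C^{1,α}` with symmetric derivative `h`, on the set `H` -/
structure LO (H : Set (ℝ × ℝ)) (α C : ℝ) (G1 G2 h11 h12 h22 : ℝ × ℝ → ℝ) : Prop where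
  t1 : ∀ x ∈ H, ∀ y ∈ H,
    |G1 y - G1 x - (h11 x * (y.1 - x.1) + h12 x * (y.2 - x.2))| ≤ C * dist x y ^ (1 + α)
  t2 : ∀ x ∈ H, ∀ y ∈ H,
    |G2 y - G2 x - (h12 x * (y.1 - x.1) + h22 x * (y.2 - x.2))| ≤ C * dist x y ^ (1 + α)
  l11 : ∀ x ∈ H, ∀ y ∈ H, |h11 x - h11 y| ≤ C * dist x y ^ α
  l12 : ∀ x ∈ H, ∀ y ∈ H, |h12 x - h12 y| ≤ C * dist x y ^ α
  l22 : ∀ x ∈ H, ∀ y ∈ H, |h22 x - h22 y| ≤ C * dist x y ^ α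

/-- blow-up data (everything is evaluated on the closed disc; `U` is an ultrafilter on `ℕ`) -/
structure BU (U : Ultrafilter ℕ) (α : ℝ) (u : ℕ → ℝ × ℝ → ℝ) (S ρ N : ℕ → ℝ)
    (X Y : ℕ → ℝ × ℝ) : Prop where
  α0 : 0 < α
  α1 : α < 1
  cd : ∀ k, ContDiff ℝ 2 (u k)
  bc : ∀ k, ∀ x : ℝ × ℝ, x.1 ^ 2 + x.2 ^ 2 = 1 → u k x = 0
  Spos : ∀ k, 0 < S k
  hol11 : ∀ k, Hol α (S k) (D1 (D1 (u k)))
  hol12 : ∀ k, Hol α (S k) (D1 (D2 (u k)))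
  hol22 : ∀ k, Hol α (S k) (D2 (D2 (u k)))
  X_mem : ∀ k, X k ∈ Disc
  Y_mem : ∀ k, Y k ∈ Disc
  ρ_def : ∀ k, ρ k = dist (X k) (Y k)
  ρ_pos : ∀ k, 0 < ρ k
  ρ_lim : Tendsto ρ U (𝓝 0)
  big : ∀ k, S k * ρ k ^ α ≤ 2 * (|D1 (D1 (u k)) (X k) - D1 (D1 (u k)) (Y k)|
    + |D1 (D2 (u k)) (X k) - D1 (D2 (u k)) (Y k)| + |D2 (D2 (u k)) (X k) - D2 (D2 (u k)) (Y k)|)
  N_bd : ∀ k, Bd (N k) (D1 (u k)) ∧ Bd (N k) (D2 (u k)) ∧ Bd (N k) (D1 (D1 (u k))) ∧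
    Bd (N k) (D1 (D2 (u k))) ∧ Bd (N k) (D2 (D2 (u k)))
  N_lim : Tendsto (fun k => N k * ρ k / (S k * ρ k ^ α)) U (𝓝 0)

/-- the rescaled difference of `f` at `X + ρ x` and `X`, divided by `T` -/
noncomputable def rs (f : ℝ × ℝ → ℝ) (X : ℝ × ℝ) (ρ T : ℝ) (x : ℝ × ℝ) : ℝ :=
  (f (X + ρ • x) - f X) / T

end AQ
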