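import Pool.Agent.Lib_helper42.AQ.Norms

/-! Smooth diffeomorphisms of the plane mapping a domain onto the disc: definitions. -/

namespace AQ

open AP Set Filter Topology Function
open scoped ContDiff

/-- `Φ : Ω → disc` is a smooth diffeomorphism of the plane, with inverse `Ψ` -/
structure Diffeo (Ω : Set (ℝ × ℝ)) (Φ Ψ : ℝ × ℝ → ℝ × ℝ) : Prop where
  sΦ : ContDiff ℝ ∞ Φ
  sΨ : ContDiff ℝ ∞ Ψ
  ΨΦ : ∀ x, Ψ (Φ x) = x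
  ΦΨ : ∀ y, Φ (Ψ y) = y
  inΩ : ∀ x ∈ Ω, (Φ x).1 ^ 2 + (Φ x).2 ^ 2 < 1
  frΩ : ∀ x ∈ frontier Ω, (Φ x).1 ^ 2 + (Φ x).2 ^ 2 = 1
  inD : ∀ y : ℝ × ℝ, y.1 ^ 2 + y.2 ^ 2 < 1 → Ψ y ∈ Ω
  frD : ∀ y : ℝ × ℝ, y.1 ^ 2 + y.2 ^ 2 = 1 → Ψ y ∈ frontier Ω

/-- coefficients of the transformed operators -/
noncomputable def xi1 (Φ Ψ : ℝ × ℝ → ℝ × ℝ) (y : ℝ × ℝ) : ℝ := D1 (fun x => (Φ x).1) (Ψ y)
/-- coefficients of the transformed operators -/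
noncomputable def xi2 (Φ Ψ : ℝ × ℝ → ℝ × ℝ) (y : ℝ × ℝ) : ℝ := D1 (fun x => (Φ x).2) (Ψ y)
/-- coefficients of the transformed operators -/
noncomputable def eta1 (Φ Ψ : ℝ × ℝ → ℝ × ℝ) (y : ℝ × ℝ) : ℝ := D2 (fun x => (Φ x).1) (Ψ y)
/-- coefficients of the transformed operators -/
noncomputable def eta2 (Φ Ψ : ℝ × ℝ → ℝ × ℝ) (y : ℝ × ℝ) : ℝ := D2 (fun x => (Φ x).2) (Ψ y)
/-- coefficients of the transformed operators -/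
noncomputable def pp1 (Φ Ψ : ℝ × ℝ → ℝ × ℝ) (y : ℝ × ℝ) : ℝ := D1 (D1 (fun x => (Φ x).1)) (Ψ y)
/-- coefficients of the transformed operators -/
noncomputable def pp2 (Φ Ψ : ℝ × ℝ → ℝ × ℝ) (y : ℝ × ℝ) : ℝ := D1 (D1 (fun x => (Φ x).2)) (Ψ y)
/-- coefficients of the transformed operators -/
noncomputable def qq1 (Φ Ψ : ℝ × ℝ → ℝ × ℝ) (y : ℝ × ℝ) : ℝ := D2 (D2 (fun x => (Φ x).1)) (Ψ y)
/-- coefficients of the transformed operators -/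
noncomputable def qq2 (Φ Ψ : ℝ × ℝ → ℝ × ℝ) (y : ℝ × ℝ) : ℝ := D2 (D2 (fun x => (Φ x).2)) (Ψ y)

end AQ
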