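import Pool.Agent.Lib_helper42.AQ.FinalExist
import Pool.Agent.Lib_helper95.AP.Nonlin2
import Pool.Agent.Lib_helper95.AP.Schauder3
import Pool.Agent.Lib_helper97.AQ.Schauder2

/-! The two regularity estimates (discharging the hypotheses). -/

namespace AQ

open AP Set Filter Topology
open scoped ContDiff

theorem schauderThree : SchauderThree := fun _ _ hl =>
  AQ95.schauder3_of hf0 hf1 hl (schauder2 hf0 hf1 hl)

theorem nonlinTwo {α : ℝ} (hα0 : 0 < α) (hα1 : α < 1) : NonlinTwo α := fun _ _ hl =>
  AQ95.nonlin2 hα0 hα1 hl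

end AQ
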