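import Pool.Agent.Lib_helper42.AP.Apriori
import Pool.Agent.Lib_helper42.AP.Component
import Pool.Agent.Lib_helper65.AQ.Transfer

/-! Uniform `C^{2,α}` bounds for solutions on the domain. -/

namespace AQ

open AP AP65 Set Filter Topology
open scoped ContDiff

/-- the nonlinear Hölder estimate on the disc (proved elsewhere) -/
def NonlinTwo (α : ℝ) : Prop := ∀ lam Lam : ℝ, 0 < lam → ∃ C, 0 < C ∧
    ∀ (v ξ1 ξ2 η1 η2 a0 b0 : ℝ × ℝ → ℝ), ContDiff ℝ 3 v →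
      (∀ x : ℝ × ℝ, x.1 ^ 2 + x.2 ^ 2 = 1 → v x = 0) →
      Bd Lam (D1 v) → Bd Lam (D2 v) → Bd Lam (D1 (D1 v)) → Bd Lam (D1 (D2 v)) →
      Bd Lam (D2 (D2 v)) → Bd Lam ξ1 → Bd Lam ξ2 → Bd Lam η1 → Bd Lam η2 → Bd Lam a0 → Bd Lam b0 →
      Lip Lam ξ1 → Lip Lam ξ2 → Lip Lam η1 → Lip Lam η2 → Lip Lam a0 → Lip Lam b0 →
      (∀ x ∈ Disc, lam ≤ |ξ1 x * η2 x - ξ2 x * η1 x|) →
      (∀ x ∈ Disc,
        0 < a0 x + ξ1 x ^ 2 * D1 (D1 v) x + 2 * (ξ1 x * ξ2 x * D1 (D2 v) x)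
          + ξ2 x ^ 2 * D2 (D2 v) x ∧
        (a0 x + ξ1 x ^ 2 * D1 (D1 v) x + 2 * (ξ1 x * ξ2 x * D1 (D2 v) x)
          + ξ2 x ^ 2 * D2 (D2 v) x) *
        (b0 x + η1 x ^ 2 * D1 (D1 v) x + 2 * (η1 x * η2 x * D1 (D2 v) x)
          + η2 x ^ 2 * D2 (D2 v) x) = 1) →
      Hol α C (D1 (D1 v)) ∧ Hol α C (D1 (D2 v)) ∧ Hol α C (D2 (D2 v))

section lipplane

variable {f g : ℝ × ℝ → ℝ} {K M : ℝ}

lemma lip_univ (hf : Differentiable ℝ f) (h1 : ∀ x, |D1 f x| ≤ K) (h2 : ∀ x, |D2 f x| ≤ K)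
    (x y : ℝ × ℝ) : |f x - f y| ≤ 2 * K * dist x y := by
  have hM : 0 ≤ K := (abs_nonneg _).trans (h1 0)
  have key : ‖f x - f y‖ ≤ 2 * K * ‖x - y‖ := by
    apply (convex_univ).norm_image_sub_le_of_norm_fderiv_le (𝕜 := ℝ) (fun z _ => hf z) _
      (mem_univ y) (mem_univ x)
    intro z _
    apply ContinuousLinearMap.opNorm_le_bound _ (by positivity)
    intro v
    rw [fderiv_apply_eq, Real.norm_eq_abs]
    have hv1 : |v.1| ≤ ‖v‖ := by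
      rw [Prod.norm_def]; exact le_max_left _ _
    have hv2 : |v.2| ≤ ‖v‖ := by
      rw [Prod.norm_def]; exact le_max_right _ _
    calc |v.1 * D1 f z + v.2 * D2 f z| ≤ |v.1| * |D1 f z| + |v.2| * |D2 f z| := by
          rw [← abs_mul, ← abs_mul]; exact abs_add_le _ _
      _ ≤ ‖v‖ * K + ‖v‖ * K := by
          gcongr
          · exact h1 z
          · exact h2 z
      _ = 2 * K * ‖v‖ := by ring
  rw [Real.norm_eq_abs, ← dist_eq_norm] at key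
  exact key

lemma Lip.mono (h : Lip K f) (hK : K ≤ M) : Lip M f := fun x hx y hy =>
  (h x hx y hy).trans (mul_le_mul_of_nonneg_right hK dist_nonneg)

lemma Lip.add (hf : Lip K f) (hg : Lip M g) : Lip (K + M) (fun x => f x + g x) :=
  fun x hx y hy => by
    have e : f x + g x - (f y + g y) = (f x - f y) + (g x - g y) := by ring
    rw [e, add_mul]
    exact (abs_add_le _ _).trans (add_le_add (hf x hx y hy) (hg x hx y hy))

lemma Lip.mul {A B : ℝ} (hA : Bd A f) (hB : Bd B g) (hf : Lip K f) (hg : Lip M g) :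
    Lip (A * M + B * K) (fun x => f x * g x) := fun x hx y hy => by
  have h0 := hA.nonneg
  have h1 := hB.nonneg
  have e : f x * g x - f y * g y = f x * (g x - g y) + g y * (f x - f y) := by ring
  rw [e]
  calc |f x * (g x - g y) + g y * (f x - f y)|
      ≤ |f x| * |g x - g y| + |g y| * |f x - f y| := by
        rw [← abs_mul, ← abs_mul]; exact abs_add_le _ _
    _ ≤ A * (M * dist x y) + B * (K * dist x y) := by
        gcongr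
        · exact hA x hx
        · exact hg x hx y hy
        · exact hB y hy
        · exact hf x hx y hy
    _ = _ := by ring

end lipplane

variable {w : ℝ × ℝ → ℝ} {Ω : Set (ℝ × ℝ)} {c₀ α : ℝ} {Φ Ψ : ℝ × ℝ → ℝ × ℝ}

lemma cd3_of_inf {f : ℝ × ℝ → ℝ} (h : ContDiff ℝ ∞ f) : ContDiff ℝ 3 f :=
  contDiff_infty.1 h 3

/-- second derivatives of `C³` functions with bounded third derivatives are Lipschitz -/
lemma BdAt.lip2 {φ : ℝ × ℝ → ℝ} {K : ℝ} (hφ : ContDiff ℝ 3 φ) (hK : ∀ x, BdAt φ x K)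
    (x y : ℝ × ℝ) : |D1 (D1 φ) x - D1 (D1 φ) y| ≤ 2 * K * dist x y ∧
      |D1 (D2 φ) x - D1 (D2 φ) y| ≤ 2 * K * dist x y ∧
      |D2 (D2 φ) x - D2 (D2 φ) y| ≤ 2 * K * dist x y := by
  have c1 : ContDiff ℝ 2 (D1 φ) := cd_D1 (n := 2) (by simpa using hφ)
  have c2 : ContDiff ℝ 2 (D2 φ) := cd_D2 (n := 2) (by simpa using hφ)
  have c11 : ContDiff ℝ 1 (D1 (D1 φ)) := cd_D1 (n := 1) (by simpa using c1)
  have c12 : ContDiff ℝ 1 (D1 (D2 φ)) := cd_D1 (n := 1) (by simpa using c2)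
  have c22 : ContDiff ℝ 1 (D2 (D2 φ)) := cd_D2 (n := 1) (by simpa using c2)
  refine ⟨lip_univ (c11.differentiable (by norm_num)) (fun z => (hK z).b111) (fun z => ?_) x y,
    lip_univ (c12.differentiable (by norm_num)) (fun z => (hK z).b112) (fun z => ?_) x y,
    lip_univ (c22.differentiable (by norm_num)) (fun z => (hK z).b122) (fun z => (hK z).b222) x y⟩
  · rw [comm211 hφ.contDiffAt]; exact (hK z).b112
  · rw [comm212 hφ.contDiffAt]; exact (hK z).b122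

/-- the equation holds up to the boundary -/
lemma Sol.eq_closure {φ u : ℝ × ℝ → ℝ} (hS : Sol φ u Ω) {x : ℝ × ℝ} (hx : x ∈ closure Ω) :
    D1 (D1 u) x * D2 (D2 u) x = 1 := by
  have c1 : ContDiff ℝ 2 (D1 u) := cd_D1 (n := 2) (by simpa using hS.su)
  have c2 : ContDiff ℝ 2 (D2 u) := cd_D2 (n := 2) (by simpa using hS.su)
  have c11 : Continuous (D1 (D1 u)) := (cd_D1 (n := 1) (by simpa using c1)).continuous
  have c22 : Continuous (D2 (D2 u)) := (cd_D2 (n := 1) (by simpa using c2)).continuous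
  have : closure Ω ⊆ {x | D1 (D1 u) x * D2 (D2 u) x = 1} :=
    closure_minimal (fun x hx => hS.eq x hx) (isClosed_eq (c11.mul c22) continuous_const)
  exact this hx

lemma exists_lipΨ (h : Diffeo Ω Φ Ψ) : ∃ L, 0 ≤ L ∧
    ∀ x ∈ Disc, ∀ y ∈ Disc, dist (Ψ x) (Ψ y) ≤ L * dist x y := by
  obtain ⟨K1, h1, q1⟩ := exists_lip disc_bdd (cd1_of_inf h.t1)
  obtain ⟨K2, h2, q2⟩ := exists_lip disc_bdd (cd1_of_inf h.t2)
  refine ⟨K1 + K2, by linarith, fun x hx y hy => ?_⟩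
  have hd : 0 ≤ dist x y := dist_nonneg
  have e1 := q1 x hx y hy
  have e2 := q2 x hx y hy
  rw [Prod.dist_eq (x := Ψ x), Real.dist_eq, Real.dist_eq]
  refine max_le ?_ ?_
  · refine e1.trans (mul_le_mul_of_nonneg_right (by linarith) hd)
  · refine e2.trans (mul_le_mul_of_nonneg_right (by linarith) hd)

/-- constants for a smooth function on the disc -/
lemma exists_bdlip {f : ℝ × ℝ → ℝ} (hf : ContDiff ℝ ∞ f) : ∃ M, 0 ≤ M ∧ Bd M f ∧ Lip M f := by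
  obtain ⟨M1, h1, q1⟩ := exists_bd hf.continuous
  obtain ⟨M2, h2, q2⟩ := exists_lip disc_bdd (cd1_of_inf hf)
  exact ⟨M1 + M2, by linarith, q1.mono (by linarith),
    Lip.mono (show Lip M2 f from q2) (by linarith)⟩

/-- **uniform `C^{2,α}` bounds** -/
theorem uniform_bound (hα0 : 0 < α) (hα1 : α < 1) (hNL : NonlinTwo α) (hD : Dom w Ω c₀)
    (h : Diffeo Ω Φ Ψ) (K : ℝ) {om : ℝ → ℝ} (hom : Modulus om) :
    ∃ C : ℝ, 0 < C ∧ ∀ φ u : ℝ × ℝ → ℝ, Sol φ u Ω → (∀ x, BdAt φ x K) →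
      (∀ x y, |D1 (D1 (D1 φ)) x - D1 (D1 (D1 φ)) y| ≤ om (dist x y)) →
      (∀ x y, |D2 (D2 (D2 φ)) x - D2 (D2 (D2 φ)) y| ≤ om (dist x y)) →
      (∀ x ∈ closure Ω, |u x| ≤ C ∧ |D1 u x| ≤ C ∧ |D2 u x| ≤ C ∧
        |D1 (D1 u) x| ≤ C ∧ |D1 (D2 u) x| ≤ C ∧ |D2 (D2 u) x| ≤ C) ∧
      (∀ x ∈ closure Ω, ∀ y ∈ closure Ω, |u x - u y| ≤ C * dist x y) ∧
      (∀ x ∈ closure Ω, ∀ y ∈ closure Ω,
        |D1 (D1 u) x - D1 (D1 u) y| ≤ C * dist x y ^ α ∧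
        |D1 (D2 u) x - D1 (D2 u) y| ≤ C * dist x y ^ α ∧
        |D2 (D2 u) x - D2 (D2 u) y| ≤ C * dist x y ^ α) := by
  obtain ⟨Ca, hCa0, hap⟩ := apriori hD K hom
  obtain ⟨C1, hC10, hod⟩ := h.omega_to_disc
  obtain ⟨C2, hC20, hdo⟩ := h.disc_to_omega hα0 hα1 hD.bdd
  obtain ⟨lam, hlam, hnd⟩ := h.nondeg
  obtain ⟨s1, s2, s3, s4, s5, s6, s7, s8⟩ := h.smooth
  obtain ⟨m1, m1p, m1b, m1l⟩ := exists_bdlip s1
  obtain ⟨m2, m2p, m2b, m2l⟩ := exists_bdlip s2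
  obtain ⟨m3, m3p, m3b, m3l⟩ := exists_bdlip s3
  obtain ⟨m4, m4p, m4b, m4l⟩ := exists_bdlip s4
  obtain ⟨m5, m5p, m5b, m5l⟩ := exists_bdlip s5
  obtain ⟨m6, m6p, m6b, m6l⟩ := exists_bdlip s6
  obtain ⟨m7, m7p, m7b, m7l⟩ := exists_bdlip s7
  obtain ⟨m8, m8p, m8b, m8l⟩ := exists_bdlip s8
  obtain ⟨LΨ, hLΨ, hΨ⟩ := exists_lipΨ h
  obtain ⟨Dm, hDm, hdm⟩ := dist_rpow_bdd hD.bdd.closure hα0 hα1
  set L0 : ℝ := m1 + m2 + m3 + m4 + m5 + m6 + m7 + m8 with hL0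
  have hL0p : 0 ≤ L0 := by positivity
  set K' : ℝ := |K| with hK'
  have hK'p : 0 ≤ K' := abs_nonneg _
  set M1 : ℝ := C1 * (Ca + K') with hM1
  have hM1p : 0 ≤ M1 := by positivity
  set Λ : ℝ := L0 + M1 + (K' + L0 * M1 + L0 * M1)
    + (2 * K' * LΨ + (L0 * (2 * M1) + M1 * L0) + (L0 * (2 * M1) + M1 * L0)) with hΛ
  have hΛ1 : L0 ≤ Λ := by rw [hΛ]; nlinarith [mul_nonneg hL0p hM1p, mul_nonneg hK'p hLΨ]
  have hΛ2 : M1 ≤ Λ := by rw [hΛ]; nlinarith [mul_nonneg hL0p hM1p, mul_nonneg hK'p hLΨ]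
  have hΛ3 : K' + L0 * M1 + L0 * M1 ≤ Λ := by
    rw [hΛ]; nlinarith [mul_nonneg hL0p hM1p, mul_nonneg hK'p hLΨ]
  have hΛ4 : 2 * K' * LΨ + (L0 * (2 * M1) + M1 * L0) + (L0 * (2 * M1) + M1 * L0) ≤ Λ := by
    rw [hΛ]; nlinarith [mul_nonneg hL0p hM1p, mul_nonneg hK'p hLΨ]
  obtain ⟨C3, hC30, hnl⟩ := hNL lam Λ hlam
  set M2 : ℝ := M1 + C3 with hM2
  have hM2p : 0 ≤ M2 := by positivity
  set C : ℝ := Ca + (2 * K' + C2 * M2) + (2 * K' * Dm + C2 * M2) with hC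
  have hC2M2 : 0 ≤ C2 * M2 := by positivity
  have hKD : 0 ≤ 2 * K' * Dm := by positivity
  refine ⟨C, by positivity, fun φ u hS hφ hm1 hm2 => ?_⟩
  have hφ' : ∀ x, BdAt φ x K' := fun x => (hφ x).mono (le_abs_self K)
  have hap' := hap φ u hS hφ hm1 hm2
  have su := hS.su
  have sφ := hS.sφ
  have hΨ3 : ContDiff ℝ 3 Ψ := contDiff_infty.1 h.sΨ 3
  have hΦ3 : ContDiff ℝ 3 Φ := contDiff_infty.1 h.sΦ 3
  -- `C²` bounds for `u`
  have hub : ∀ x ∈ closure Ω, |u x| ≤ Ca ∧ |D1 u x| ≤ Ca ∧ |D2 u x| ≤ Ca ∧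
      |D1 (D1 u) x| ≤ Ca ∧ |D1 (D2 u) x| ≤ Ca ∧ |D2 (D2 u) x| ≤ Ca := by
    intro x hx
    obtain ⟨q1, q2, q3, q4, q5, q6, q7, q8⟩ := hap' x hx
    have hinv : 0 < Ca⁻¹ := inv_pos.2 hCa0
    exact ⟨q1, q2, q3, abs_le.2 ⟨by linarith, q6⟩, q4, abs_le.2 ⟨by linarith, q8⟩⟩
  -- the difference
  set f : ℝ × ℝ → ℝ := fun x => u x - φ x with hf
  have sf : ContDiff ℝ 3 f := su.sub sφ
  have du : Differentiable ℝ u := su.differentiable (by norm_num)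
  have dφ : Differentiable ℝ φ := sφ.differentiable (by norm_num)
  have du1 : Differentiable ℝ (D1 u) :=
    (cd_D1 (n := 2) (by simpa using su)).differentiable (by norm_num)
  have du2 : Differentiable ℝ (D2 u) :=
    (cd_D2 (n := 2) (by simpa using su)).differentiable (by norm_num)
  have dφ1 : Differentiable ℝ (D1 φ) :=
    (cd_D1 (n := 2) (by simpa using sφ)).differentiable (by norm_num)
  have dφ2 : Differentiable ℝ (D2 φ) :=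
    (cd_D2 (n := 2) (by simpa using sφ)).differentiable (by norm_num)
  have f1 : D1 f = fun x => D1 u x - D1 φ x := D1_subf du dφ
  have f2 : D2 f = fun x => D2 u x - D2 φ x := D2_subf du dφ
  have f11 : D1 (D1 f) = fun x => D1 (D1 u) x - D1 (D1 φ) x := by rw [f1, D1_subf du1 dφ1]
  have f12 : D1 (D2 f) = fun x => D1 (D2 u) x - D1 (D2 φ) x := by rw [f2, D1_subf du2 dφ2]
  have f22 : D2 (D2 f) = fun x => D2 (D2 u) x - D2 (D2 φ) x := by rw [f2, D2_subf du2 dφ2]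
  have hfb : ∀ x ∈ closure Ω, |f x| ≤ Ca + K' ∧ |D1 f x| ≤ Ca + K' ∧ |D2 f x| ≤ Ca + K' ∧
      |D1 (D1 f) x| ≤ Ca + K' ∧ |D1 (D2 f) x| ≤ Ca + K' ∧ |D2 (D2 f) x| ≤ Ca + K' := by
    intro x hx
    obtain ⟨q1, q2, q3, q4, q5, q6⟩ := hub x hx
    have b := hφ' x
    rw [f11, f12, f22, f1, f2]
    exact ⟨(abs_sub _ _).trans (add_le_add q1 b.b0), (abs_sub _ _).trans (add_le_add q2 b.b1),
      (abs_sub _ _).trans (add_le_add q3 b.b2), (abs_sub _ _).trans (add_le_add q4 b.b11),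
      (abs_sub _ _).trans (add_le_add q5 b.b12), (abs_sub _ _).trans (add_le_add q6 b.b22)⟩
  set g : ℝ × ℝ → ℝ := fun y => f (Ψ y) with hg
  have sg : ContDiff ℝ 3 g := sf.comp hΨ3
  obtain ⟨g0, g1, g2, g11, g12, g22⟩ := hod f (Ca + K') (sf.of_le (by norm_num)) hfb
  rw [← hg] at g1 g2 g11 g12 g22
  have g0' : Bd M1 g := g0
  have gbc : ∀ x : ℝ × ℝ, x.1 ^ 2 + x.2 ^ 2 = 1 → g x = 0 := fun x hx => by
    have := hS.bc (Ψ x) (h.frD x hx)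
    simp only [hg, hf]; rw [this, sub_self]
  have dg1 : Differentiable ℝ (D1 g) :=
    (cd_D1 (n := 2) (by simpa using sg)).differentiable (by norm_num)
  have dg2 : Differentiable ℝ (D2 g) :=
    (cd_D2 (n := 2) (by simpa using sg)).differentiable (by norm_num)
  have gcomm : D2 (D1 g) = D1 (D2 g) := D12_comm_fun (sg.of_le (by norm_num))
  have l1 : Lip (2 * M1) (D1 g) := lip_of_bd dg1 g11 (by rw [gcomm]; exact g12)
  have l2 : Lip (2 * M1) (D2 g) := lip_of_bd dg2 g12 g22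
  -- `f` is the pull back of `g`
  have hfg : (fun x => g (Φ x)) = f := by
    funext x; simp only [hg]; rw [h.ΨΦ]
  set a0 : ℝ × ℝ → ℝ := fun y => D1 (D1 φ) (Ψ y) + pp1 Φ Ψ y * D1 g y + pp2 Φ Ψ y * D2 g y with ha0
  set b0 : ℝ × ℝ → ℝ := fun y => D2 (D2 φ) (Ψ y) + qq1 Φ Ψ y * D1 g y + qq2 Φ Ψ y * D2 g y with hb0
  have B1 : Bd L0 (xi1 Φ Ψ) := m1b.mono (by linarith)
  have B2 : Bd L0 (xi2 Φ Ψ) := m2b.mono (by linarith)
  have B3 : Bd L0 (eta1 Φ Ψ) := m3b.mono (by linarith)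
  have B4 : Bd L0 (eta2 Φ Ψ) := m4b.mono (by linarith)
  have B5 : Bd L0 (pp1 Φ Ψ) := m5b.mono (by linarith)
  have B6 : Bd L0 (pp2 Φ Ψ) := m6b.mono (by linarith)
  have B7 : Bd L0 (qq1 Φ Ψ) := m7b.mono (by linarith)
  have B8 : Bd L0 (qq2 Φ Ψ) := m8b.mono (by linarith)
  have G1 : Lip L0 (xi1 Φ Ψ) := m1l.mono (by linarith)
  have G2 : Lip L0 (xi2 Φ Ψ) := m2l.mono (by linarith)
  have G3 : Lip L0 (eta1 Φ Ψ) := m3l.mono (by linarith)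
  have G4 : Lip L0 (eta2 Φ Ψ) := m4l.mono (by linarith)
  have G5 : Lip L0 (pp1 Φ Ψ) := m5l.mono (by linarith)
  have G6 : Lip L0 (pp2 Φ Ψ) := m6l.mono (by linarith)
  have G7 : Lip L0 (qq1 Φ Ψ) := m7l.mono (by linarith)
  have G8 : Lip L0 (qq2 Φ Ψ) := m8l.mono (by linarith)
  have lipφ : ∀ F : ℝ × ℝ → ℝ, (∀ x y, |F x - F y| ≤ 2 * K' * dist x y) →
      Lip (2 * K' * LΨ) (fun y => F (Ψ y)) := fun F hF x hx y hy => by
    calc |F (Ψ x) - F (Ψ y)| ≤ 2 * K' * dist (Ψ x) (Ψ y) := hF _ _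
      _ ≤ 2 * K' * (LΨ * dist x y) := by gcongr; exact hΨ x hx y hy
      _ = _ := by ring
  have a0b : Bd Λ a0 := by
    have e1 : Bd K' (fun y => D1 (D1 φ) (Ψ y)) := fun y _ => (hφ' _).b11
    exact ((e1.add (B5.mul g1)).add (B6.mul g2)).mono hΛ3
  have b0b : Bd Λ b0 := by
    have e1 : Bd K' (fun y => D2 (D2 φ) (Ψ y)) := fun y _ => (hφ' _).b22
    exact ((e1.add (B7.mul g1)).add (B8.mul g2)).mono hΛ3
  have a0l : Lip Λ a0 := by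
    have e1 := lipφ (D1 (D1 φ)) fun x y => (BdAt.lip2 sφ hφ' x y).1
    exact ((e1.add (Lip.mul B5 g1 G5 l1)).add (Lip.mul B6 g2 G6 l2)).mono hΛ4
  have b0l : Lip Λ b0 := by
    have e1 := lipφ (D2 (D2 φ)) fun x y => (BdAt.lip2 sφ hφ' x y).2.2
    exact ((e1.add (Lip.mul B7 g1 G7 l1)).add (Lip.mul B8 g2 G8 l2)).mono hΛ4
  have sg2 : ContDiff ℝ 2 g := sg.of_le (by norm_num)
  have heq : ∀ x ∈ Disc,
      0 < a0 x + xi1 Φ Ψ x ^ 2 * D1 (D1 g) x + 2 * (xi1 Φ Ψ x * xi2 Φ Ψ x * D1 (D2 g) x)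
        + xi2 Φ Ψ x ^ 2 * D2 (D2 g) x ∧
      (a0 x + xi1 Φ Ψ x ^ 2 * D1 (D1 g) x + 2 * (xi1 Φ Ψ x * xi2 Φ Ψ x * D1 (D2 g) x)
        + xi2 Φ Ψ x ^ 2 * D2 (D2 g) x) *
      (b0 x + eta1 Φ Ψ x ^ 2 * D1 (D1 g) x + 2 * (eta1 Φ Ψ x * eta2 Φ Ψ x * D1 (D2 g) x)
        + eta2 Φ Ψ x ^ 2 * D2 (D2 g) x) = 1 := by
    intro y hy
    have hcl := h.mem_closure hy
    have e1 := h.tr11 sg2 y
    have e2 := h.tr22 sg2 y
    rw [hfg, f11] at e1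
    rw [hfg, f22] at e2
    have e3 : a0 y + xi1 Φ Ψ y ^ 2 * D1 (D1 g) y + 2 * (xi1 Φ Ψ y * xi2 Φ Ψ y * D1 (D2 g) y)
        + xi2 Φ Ψ y ^ 2 * D2 (D2 g) y = D1 (D1 u) (Ψ y) := by
      simp only [ha0]; linarith
    have e4 : b0 y + eta1 Φ Ψ y ^ 2 * D1 (D1 g) y + 2 * (eta1 Φ Ψ y * eta2 Φ Ψ y * D1 (D2 g) y)
        + eta2 Φ Ψ y ^ 2 * D2 (D2 g) y = D2 (D2 u) (Ψ y) := by
      simp only [hb0]; linarith
    rw [e3, e4]
    obtain ⟨q1, q2, q3, q4, q5, q6, q7, q8⟩ := hap' _ hcl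
    exact ⟨lt_of_lt_of_le (inv_pos.2 hCa0) q5, Sol.eq_closure hS hcl⟩
  obtain ⟨h11, h12, h22⟩ := hnl g (xi1 Φ Ψ) (xi2 Φ Ψ) (eta1 Φ Ψ) (eta2 Φ Ψ) a0 b0 sg gbc
    (g1.mono hΛ2) (g2.mono hΛ2) (g11.mono hΛ2) (g12.mono hΛ2) (g22.mono hΛ2)
    (B1.mono hΛ1) (B2.mono hΛ1) (B3.mono hΛ1) (B4.mono hΛ1) a0b b0b
    (G1.mono hΛ1) (G2.mono hΛ1) (G3.mono hΛ1) (G4.mono hΛ1) a0l b0l hnd heq
  have hM12 : M1 ≤ M2 := by linarith
  have hC32 : C3 ≤ M2 := by linarith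
  have hN2 : N2 α M2 g := by
    refine ⟨g0'.mono hM12, ⟨g1.mono hM12, ⟨g11.mono hM12, h11.mono hC32⟩, ?_⟩,
      ⟨g2.mono hM12, ⟨g12.mono hM12, h12.mono hC32⟩, ⟨g22.mono hM12, h22.mono hC32⟩⟩⟩
    rw [gcomm]
    exact ⟨g12.mono hM12, h12.mono hC32⟩
  have hfin := hdo g M2 sg hN2
  rw [hfg] at hfin
  have hC_Ca : Ca ≤ C := by linarith
  refine ⟨fun x hx => ?_, fun x hx y hy => ?_, fun x hx y hy => ?_⟩
  · obtain ⟨q1, q2, q3, q4, q5, q6⟩ := hub x hx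
    exact ⟨q1.trans hC_Ca, q2.trans hC_Ca, q3.trans hC_Ca, q4.trans hC_Ca, q5.trans hC_Ca,
      q6.trans hC_Ca⟩
  · obtain ⟨-, -, -, -, -, -, r7, -, -, -⟩ := hfin x hx y hy
    have e0 : |g (Φ x) - g (Φ y)| = |f x - f y| := by
      rw [← hfg]
    rw [e0] at r7
    have e1 := lip_univ dφ (fun z => (hφ' z).b1) (fun z => (hφ' z).b2) x y
    have e2 : u x - u y = (f x - f y) + (φ x - φ y) := by simp only [hf]; ring
    rw [e2]
    have hd : 0 ≤ dist x y := dist_nonneg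
    calc |f x - f y + (φ x - φ y)| ≤ |f x - f y| + |φ x - φ y| := abs_add_le _ _
      _ ≤ C2 * M2 * dist x y + 2 * K' * dist x y := add_le_add r7 e1
      _ = (2 * K' + C2 * M2) * dist x y := by ring
      _ ≤ C * dist x y := by
          apply mul_le_mul_of_nonneg_right _ hd
          linarith
  · obtain ⟨-, -, -, -, -, -, -, r8, r9, r10⟩ := hfin x hx y hy
    obtain ⟨p1, p2, p3⟩ := BdAt.lip2 sφ hφ' x y
    have hd : 0 ≤ dist x y ^ α := Real.rpow_nonneg dist_nonneg _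
    have hdd := hdm x hx y hy
    have gen : ∀ a b c : ℝ, |a| ≤ C2 * M2 * dist x y ^ α → |b| ≤ 2 * K' * dist x y → c = a + b →
        |c| ≤ C * dist x y ^ α := by
      intro a b c ha hb hc
      rw [hc]
      calc |a + b| ≤ |a| + |b| := abs_add_le _ _
        _ ≤ C2 * M2 * dist x y ^ α + 2 * K' * (Dm * dist x y ^ α) := by
            refine add_le_add ha (hb.trans ?_)
            gcongr
        _ = (2 * K' * Dm + C2 * M2) * dist x y ^ α := by ring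
        _ ≤ C * dist x y ^ α := by
            apply mul_le_mul_of_nonneg_right _ hd
            linarith
    rw [f11] at r8
    rw [f12] at r9
    rw [f22] at r10
    exact ⟨gen _ _ _ r8 p1 (by ring), gen _ _ _ r9 p2 (by ring), gen _ _ _ r10 p3 (by ring)⟩

end AQ
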