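import Pool.Agent.Lib_helper42.AQ.Nonlin
import Pool.Agent.Lib_helper42.AQ.Uniform
import Pool.Agent.Lib_helper65.AQ.ModN
import Pool.Agent.Lib_helper65.AQ.ModP
import Pool.Agent.Lib_helper44.AP.Moll

/-! Existence of classical solutions for smooth boundary data. -/

namespace AQ

open AP AP65 Set Filter Topology UniformSpace
open scoped ContDiff

/-- elements of the completion are `C³` functions up to the boundary -/
theorem exists_rep (v : XX) : ∃ g : ℝ × ℝ → ℝ, ContDiff ℝ 3 g ∧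
    (∀ x : ℝ × ℝ, x.1 ^ 2 + x.2 ^ 2 = 1 → g x = 0) ∧
    ∀ x ∈ Disc, fn (T1 v) x = D1 g x ∧ fn (T2 v) x = D2 g x ∧ fn (T11 v) x = D1 (D1 g) x ∧
      fn (T12 v) x = D1 (D2 g) x ∧ fn (T22 v) x = D2 (D2 g) x := by
  choose p hp using fun n : ℕ => iX_approx v (show (0 : ℝ) < 1 / (n + 1) by positivity)
  have hconv : Tendsto (fun n => iX (p n)) atTop (𝓝 v) := by
    rw [tendsto_iff_norm_sub_tendsto_zero]
    refine squeeze_zero (fun n => norm_nonneg _) (fun n => ?_)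
      tendsto_one_div_add_atTop_nhds_zero_nat
    rw [norm_sub_rev]; exact (hp n).le
  have hbd : ∀ n, nX (p n) ≤ ‖v‖ + 1 := by
    intro n
    rw [← iX_norm]
    have h1 : (1 : ℝ) / (n + 1) ≤ 1 := by
      rw [div_le_one (by positivity)]
      have : (0 : ℝ) ≤ n := n.cast_nonneg
      linarith
    calc ‖iX (p n)‖ = ‖v - (v - iX (p n))‖ := by congr 1; abel
      _ ≤ ‖v‖ + ‖v - iX (p n)‖ := norm_sub_le _ _
      _ ≤ ‖v‖ + 1 := by linarith [(hp n).le]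
  have hsub : ∀ p q : PX, evx (p - q) = fun x => evx p x - evx q x := by
    intro p q
    have h1 : (p - q) = p + (-1 : ℝ) • q := by
      have : (p.mv - q.mv : MvPolynomial (Fin 2) ℝ) = p.mv + (-1 : ℝ) • q.mv := by
        rw [neg_one_smul]; exact sub_eq_add_neg _ _
      exact this
    rw [h1, evx_add, evx_smul]
    funext x; ring
  obtain ⟨g, hg, -, hlim⟩ := limit_C3 hf0 hf1 (p := fun n => evx (p n)) (M := ‖v‖ + 1)
    (fun n => evx_cd _) (fun n => (nX_spec (p n)).mono (hbd n)) (by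
      intro ε hε
      obtain ⟨N, hN⟩ := (Metric.cauchySeq_iff.1 hconv.cauchySeq) ε hε
      refine ⟨N, fun m hm n hn => ?_⟩
      have h1 := hN m hm n hn
      rw [dist_eq_norm, ← map_sub, iX_norm] at h1
      have h2 := (nX_spec (p m - p n)).mono h1.le
      rwa [hsub] at h2)
  refine ⟨g, hg, fun x hx => ?_, fun x hx => ?_⟩
  · have h1 := (hlim x hx.le).1
    have h2 : (fun n => evx (p n) x) = fun _ => 0 := by
      funext n; exact evx_bc _ x hx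
    rw [h2] at h1
    exact (tendsto_nhds_unique h1 tendsto_const_nhds)
  · obtain ⟨-, h1, h2, h11, h12, h22⟩ := hlim x hx
    have key : ∀ (T : XX →L[ℝ] YY) (d : PX → PY), (∀ q, T (iX q) = iY (d q)) →
        Tendsto (fun n => evy (d (p n)) x) atTop (𝓝 (fn (T v) x)) := by
      intro T d hT
      have h3 := ((fn_cont x).tendsto (T v)).comp ((T.continuous.tendsto v).comp hconv)
      refine h3.congr fun n => ?_
      show fn (T (iX (p n))) x = _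
      rw [hT, fn_coe hx]
    have k1 := key T1 d1 T1_coe
    have k2 := key T2 d2 T2_coe
    have k11 := key T11 d11 T11_coe
    have k12 := key T12 d12 T12_coe
    have k22 := key T22 d22 T22_coe
    simp only [evy_d1] at k1
    simp only [evy_d2] at k2
    simp only [evy_d11] at k11
    simp only [evy_d12] at k12
    simp only [evy_d22] at k22
    exact ⟨tendsto_nhds_unique k1 h1, tendsto_nhds_unique k2 h2, tendsto_nhds_unique k11 h11,
      tendsto_nhds_unique k12 h12, tendsto_nhds_unique k22 h22⟩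

section lin

variable {f g : ℝ × ℝ → ℝ} {a b : ℝ}

lemma D1_lin (hf : Differentiable ℝ f) (hg : Differentiable ℝ g) :
    D1 (fun y => a * f y + b * g y) = fun x => a * D1 f x + b * D1 g x := by
  rw [D1_addf (hf.const_mul a) (hg.const_mul b), D1_smulf a hf, D1_smulf b hg]

lemma D2_lin (hf : Differentiable ℝ f) (hg : Differentiable ℝ g) :
    D2 (fun y => a * f y + b * g y) = fun x => a * D2 f x + b * D2 g x := by
  rw [D2_addf (hf.const_mul a) (hg.const_mul b), D2_smulf a hf, D2_smulf b hg]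

/-- differentiability of the derivatives of `C³` functions -/
structure Dif3 (f : ℝ × ℝ → ℝ) : Prop where
  d0 : Differentiable ℝ f
  d1 : Differentiable ℝ (D1 f)
  d2 : Differentiable ℝ (D2 f)
  d11 : Differentiable ℝ (D1 (D1 f))
  d12 : Differentiable ℝ (D1 (D2 f))
  d22 : Differentiable ℝ (D2 (D2 f))

lemma dif3 (hf : ContDiff ℝ 3 f) : Dif3 f := by
  have c1 : ContDiff ℝ 2 (D1 f) := cd_D1 (n := 2) (by simpa using hf)
  have c2 : ContDiff ℝ 2 (D2 f) := cd_D2 (n := 2) (by simpa using hf)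
  exact ⟨hf.differentiable (by norm_num), c1.differentiable (by norm_num),
    c2.differentiable (by norm_num), (cd_D1 (n := 1) (by simpa using c1)).differentiable (by norm_num),
    (cd_D1 (n := 1) (by simpa using c2)).differentiable (by norm_num),
    (cd_D2 (n := 1) (by simpa using c2)).differentiable (by norm_num)⟩

lemma lin11 (hf : ContDiff ℝ 3 f) (hg : ContDiff ℝ 3 g) :
    D1 (D1 (fun y => a * f y + b * g y)) = fun x => a * D1 (D1 f) x + b * D1 (D1 g) x := by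
  rw [D1_lin (dif3 hf).d0 (dif3 hg).d0, D1_lin (dif3 hf).d1 (dif3 hg).d1]
lemma lin12 (hf : ContDiff ℝ 3 f) (hg : ContDiff ℝ 3 g) :
    D1 (D2 (fun y => a * f y + b * g y)) = fun x => a * D1 (D2 f) x + b * D1 (D2 g) x := by
  rw [D2_lin (dif3 hf).d0 (dif3 hg).d0, D1_lin (dif3 hf).d2 (dif3 hg).d2]
lemma lin22 (hf : ContDiff ℝ 3 f) (hg : ContDiff ℝ 3 g) :
    D2 (D2 (fun y => a * f y + b * g y)) = fun x => a * D2 (D2 f) x + b * D2 (D2 g) x := by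
  rw [D2_lin (dif3 hf).d0 (dif3 hg).d0, D2_lin (dif3 hf).d2 (dif3 hg).d2]

lemma lin111 (hf : ContDiff ℝ 3 f) (hg : ContDiff ℝ 3 g) :
    D1 (D1 (D1 (fun y => a * f y + b * g y)))
      = fun x => a * D1 (D1 (D1 f)) x + b * D1 (D1 (D1 g)) x := by
  rw [lin11 hf hg, D1_lin (dif3 hf).d11 (dif3 hg).d11]
lemma lin112 (hf : ContDiff ℝ 3 f) (hg : ContDiff ℝ 3 g) :
    D1 (D1 (D2 (fun y => a * f y + b * g y)))
      = fun x => a * D1 (D1 (D2 f)) x + b * D1 (D1 (D2 g)) x := by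
  rw [lin12 hf hg, D1_lin (dif3 hf).d12 (dif3 hg).d12]
lemma lin122 (hf : ContDiff ℝ 3 f) (hg : ContDiff ℝ 3 g) :
    D1 (D2 (D2 (fun y => a * f y + b * g y)))
      = fun x => a * D1 (D2 (D2 f)) x + b * D1 (D2 (D2 g)) x := by
  rw [lin22 hf hg, D1_lin (dif3 hf).d22 (dif3 hg).d22]
lemma lin222 (hf : ContDiff ℝ 3 f) (hg : ContDiff ℝ 3 g) :
    D2 (D2 (D2 (fun y => a * f y + b * g y)))
      = fun x => a * D2 (D2 (D2 f)) x + b * D2 (D2 (D2 g)) x := by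
  rw [lin22 hf hg, D2_lin (dif3 hf).d22 (dif3 hg).d22]

lemma conv_abs {t u v K L : ℝ} (ht : t ∈ Icc (0 : ℝ) 1) (hu : |u| ≤ K) (hv : |v| ≤ L) :
    |(1 - t) * u + t * v| ≤ K + L := by
  have h0 := ht.1
  have h1 : 0 ≤ 1 - t := by linarith [ht.2]
  have hK := (abs_nonneg u).trans hu
  have hL := (abs_nonneg v).trans hv
  calc |(1 - t) * u + t * v| ≤ |(1 - t) * u| + |t * v| := abs_add_le _ _
    _ = (1 - t) * |u| + t * |v| := by rw [abs_mul, abs_mul, abs_of_nonneg h0, abs_of_nonneg h1]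
    _ ≤ 1 * K + 1 * L := by
        gcongr
        · linarith
        · exact ht.2
    _ = K + L := by ring

lemma BdAt.conv {t K L : ℝ} {x : ℝ × ℝ} (ht : t ∈ Icc (0 : ℝ) 1) (sf : ContDiff ℝ 3 f)
    (sg : ContDiff ℝ 3 g) (hf : BdAt f x K) (hg : BdAt g x L) :
    BdAt (fun y => (1 - t) * f y + t * g y) x (K + L) := by
  constructor
  · exact conv_abs ht hf.b0 hg.b0
  · rw [D1_lin (dif3 sf).d0 (dif3 sg).d0]; exact conv_abs ht hf.b1 hg.b1
  · rw [D2_lin (dif3 sf).d0 (dif3 sg).d0]; exact conv_abs ht hf.b2 hg.b2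
  · rw [lin11 sf sg]; exact conv_abs ht hf.b11 hg.b11
  · rw [lin12 sf sg]; exact conv_abs ht hf.b12 hg.b12
  · rw [lin22 sf sg]; exact conv_abs ht hf.b22 hg.b22
  · rw [lin111 sf sg]; exact conv_abs ht hf.b111 hg.b111
  · rw [lin112 sf sg]; exact conv_abs ht hf.b112 hg.b112
  · rw [lin122 sf sg]; exact conv_abs ht hf.b122 hg.b122
  · rw [lin222 sf sg]; exact conv_abs ht hf.b222 hg.b222

end lin

/-- the quadratic polynomial `|x|²/2` -/
lemma quad_facts (x : ℝ × ℝ) : D1 (D1 (fun y : ℝ × ℝ => (y.1 ^ 2 + y.2 ^ 2) / 2)) x = 1 ∧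
    D2 (D2 (fun y : ℝ × ℝ => (y.1 ^ 2 + y.2 ^ 2) / 2)) x = 1 := by
  have e : (fun y : ℝ × ℝ => (y.1 ^ 2 + y.2 ^ 2) / 2)
      = fun y => (1 / 2) * (y.1 - 0) ^ 2 + (1 / 2) * (y.2 - 0) ^ 2 := by
    funext y; ring
  have c1 : ContDiff ℝ 3 (fun y : ℝ × ℝ => (y.1 - 0) ^ 2) := by fun_prop
  have c2 : ContDiff ℝ 3 (fun y : ℝ × ℝ => (y.2 - 0) ^ 2) := by fun_prop
  rw [e, lin11 c1 c2, lin22 c1 c2]
  simp only [D11_sq1, D22_sq1, D11_sq2, D22_sq2]
  norm_num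

/-- a good starting datum: `|x|²/2` near `closure Ω`, with bounded derivatives -/
lemma exists_start {Ω : Set (ℝ × ℝ)} (hb : Bornology.IsBounded Ω) : ∃ (φ₀ : ℝ × ℝ → ℝ) (K : ℝ)
    (om : ℝ → ℝ), ContDiff ℝ 3 φ₀ ∧ (∀ x, BdAt φ₀ x K) ∧ Modulus om ∧
    (∀ x y, |D1 (D1 (D1 φ₀)) x - D1 (D1 (D1 φ₀)) y| ≤ om (dist x y)) ∧
    (∀ x y, |D2 (D2 (D2 φ₀)) x - D2 (D2 (D2 φ₀)) y| ≤ om (dist x y)) ∧
    ∀ x ∈ closure Ω, D1 (D1 φ₀) x = 1 ∧ D2 (D2 φ₀) x = 1 := by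
  have c : ContDiff ℝ 3 (fun y : ℝ × ℝ => (y.1 ^ 2 + y.2 ^ 2) / 2) := by fun_prop
  obtain ⟨φ₀, s0, -, ⟨V, hV, hcl, he⟩, ⟨K, hK⟩, u1, -, -, u2⟩ :=
    Pool.Agent.Lib44.AP.exists_cutoff c hb
  obtain ⟨o1, -, p1, q1, r1⟩ := Pool.Agent.Lib44.AP.exists_modulus u1 (fun x => (hK x).b111)
  obtain ⟨o2, -, p2, q2, r2⟩ := Pool.Agent.Lib44.AP.exists_modulus u2 (fun x => (hK x).b222)
  refine ⟨φ₀, K, fun r => o1 r + o2 r, s0, hK, ?_, fun x y => ?_, fun x y => ?_, fun x hx => ?_⟩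
  · intro ε hε
    obtain ⟨d1, hd1, e1⟩ := r1 (ε / 2) (by positivity)
    obtain ⟨d2, hd2, e2⟩ := r2 (ε / 2) (by positivity)
    refine ⟨min d1 d2, lt_min hd1 hd2, fun s _ hs => ?_⟩
    have := e1 s (hs.trans (min_le_left _ _))
    have := e2 s (hs.trans (min_le_right _ _))
    linarith
  · linarith [q1 x y, p2 (dist x y)]
  · linarith [q2 x y, p1 (dist x y)]
  · have hxV := hcl hx
    have hnb : ∀ᶠ y in 𝓝 x, y ∈ V := hV.mem_nhds hxV
    have h0 : ∀ᶠ y in 𝓝 x, φ₀ =ᶠ[𝓝 y] fun y : ℝ × ℝ => (y.1 ^ 2 + y.2 ^ 2) / 2 := by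
      filter_upwards [hnb] with y hy
      filter_upwards [hV.mem_nhds hy] with z hz using he z hz
    have h1 : D1 φ₀ =ᶠ[𝓝 x] D1 (fun y : ℝ × ℝ => (y.1 ^ 2 + y.2 ^ 2) / 2) := by
      filter_upwards [h0] with y hy using D1_congr hy
    have h2 : D2 φ₀ =ᶠ[𝓝 x] D2 (fun y : ℝ × ℝ => (y.1 ^ 2 + y.2 ^ 2) / 2) := by
      filter_upwards [h0] with y hy using D2_congr hy
    rw [D1_congr h1, D2_congr h2]
    exact quad_facts x

variable {w : ℝ × ℝ → ℝ} {Ω : Set (ℝ × ℝ)} {c₀ : ℝ} {Φ Ψ : ℝ × ℝ → ℝ × ℝ}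

/-- **existence for smooth data** -/
theorem exists_smooth_sol (hS3 : SchauderThree) (hNL : NonlinTwo (1 / 2)) (hD : Dom w Ω c₀)
    (h : Diffeo Ω Φ Ψ) {φ : ℝ × ℝ → ℝ} (sφ : ContDiff ℝ ∞ φ) {K : ℝ} (hK : ∀ x, BdAt φ x K)
    {om : ℝ → ℝ} (hom : Modulus om)
    (hm1 : ∀ x y, |D1 (D1 (D1 φ)) x - D1 (D1 (D1 φ)) y| ≤ om (dist x y))
    (hm2 : ∀ x y, |D2 (D2 (D2 φ)) x - D2 (D2 (D2 φ)) y| ≤ om (dist x y)) :
    ∃ u, Sol φ u Ω := by
  obtain ⟨φ₀, K₀, om₀, s0, hK0, hom0, hn1, hn2, hq⟩ := exists_start hD.bdd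
  have sφ3 : ContDiff ℝ 3 φ := cd3_of_inf sφ
  -- the path of boundary data
  set P : ℝ → ℝ × ℝ → ℝ := fun t x => (1 - t) * φ₀ x + t * φ x with hP
  have sP : ∀ t, ContDiff ℝ 3 (P t) := fun t =>
    (contDiff_const.mul s0).add (contDiff_const.mul sφ3)
  have P11 : ∀ t, D1 (D1 (P t)) = fun x => (1 - t) * D1 (D1 φ₀) x + t * D1 (D1 φ) x :=
    fun t => lin11 s0 sφ3
  have P22 : ∀ t, D2 (D2 (P t)) = fun x => (1 - t) * D2 (D2 φ₀) x + t * D2 (D2 φ) x :=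
    fun t => lin22 s0 sφ3
  have hPK : ∀ t ∈ Icc (0 : ℝ) 1, ∀ x, BdAt (P t) x (K₀ + K) := fun t ht x =>
    BdAt.conv ht s0 sφ3 (hK0 x) (hK x)
  have hmod : Modulus (fun r => om₀ r + om r) := by
    intro ε hε
    obtain ⟨d1, hd1, e1⟩ := hom0 (ε / 2) (by positivity)
    obtain ⟨d2, hd2, e2⟩ := hom (ε / 2) (by positivity)
    refine ⟨min d1 d2, lt_min hd1 hd2, fun s hs0 hs => ?_⟩
    have := e1 s hs0 (hs.trans (min_le_left _ _))
    have := e2 s hs0 (hs.trans (min_le_right _ _))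
    linarith
  have hPm1 : ∀ t ∈ Icc (0 : ℝ) 1, ∀ x y,
      |D1 (D1 (D1 (P t))) x - D1 (D1 (D1 (P t))) y| ≤ om₀ (dist x y) + om (dist x y) := by
    intro t ht x y
    have e : D1 (D1 (D1 (P t))) = fun x => (1 - t) * D1 (D1 (D1 φ₀)) x + t * D1 (D1 (D1 φ)) x :=
      lin111 s0 sφ3
    rw [e]
    have := conv_abs ht (hn1 x y) (hm1 x y)
    have e2 : (1 - t) * D1 (D1 (D1 φ₀)) x + t * D1 (D1 (D1 φ)) x
        - ((1 - t) * D1 (D1 (D1 φ₀)) y + t * D1 (D1 (D1 φ)) y)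
        = (1 - t) * (D1 (D1 (D1 φ₀)) x - D1 (D1 (D1 φ₀)) y)
          + t * (D1 (D1 (D1 φ)) x - D1 (D1 (D1 φ)) y) := by ring
    simp only [e2]; exact this
  have hPm2 : ∀ t ∈ Icc (0 : ℝ) 1, ∀ x y,
      |D2 (D2 (D2 (P t))) x - D2 (D2 (D2 (P t))) y| ≤ om₀ (dist x y) + om (dist x y) := by
    intro t ht x y
    have e : D2 (D2 (D2 (P t))) = fun x => (1 - t) * D2 (D2 (D2 φ₀)) x + t * D2 (D2 (D2 φ)) x :=
      lin222 s0 sφ3
    rw [e]
    have := conv_abs ht (hn2 x y) (hm2 x y)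
    have e2 : (1 - t) * D2 (D2 (D2 φ₀)) x + t * D2 (D2 (D2 φ)) x
        - ((1 - t) * D2 (D2 (D2 φ₀)) y + t * D2 (D2 (D2 φ)) y)
        = (1 - t) * (D2 (D2 (D2 φ₀)) x - D2 (D2 (D2 φ₀)) y)
          + t * (D2 (D2 (D2 φ)) x - D2 (D2 (D2 φ)) y) := by ring
    simp only [e2]; exact this
  obtain ⟨C, hC0, hunif⟩ := uniform_bound hf0 hf1 hNL hD h (K₀ + K) hmod
  -- the data of the nonlinear problem in the Banach algebra
  obtain ⟨s1, s2, s3, s4, s5, s6, s7, s8⟩ := h.smooth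
  obtain ⟨X1, hX1⟩ := exists_YY s1
  obtain ⟨X2, hX2⟩ := exists_YY s2
  obtain ⟨E1, hE1⟩ := exists_YY s3
  obtain ⟨E2, hE2⟩ := exists_YY s4
  obtain ⟨P1, hP1⟩ := exists_YY s5
  obtain ⟨P2, hP2⟩ := exists_YY s6
  obtain ⟨Q1, hQ1⟩ := exists_YY s7
  obtain ⟨Q2, hQ2⟩ := exists_YY s8
  obtain ⟨al1, hal1⟩ := exists_YY (f := fun y => D1 (D1 φ) (Ψ y))
    ((AP65.cdi_D1 (AP65.cdi_D1 sφ)).comp h.sΨ)
  obtain ⟨be1, hbe1⟩ := exists_YY (f := fun y => D2 (D2 φ) (Ψ y))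
    ((AP65.cdi_D2 (AP65.cdi_D2 sφ)).comp h.sΨ)
  set D : NL := ⟨X1, X2, E1, E2, P1, P2, Q1, Q2, 1, al1, 1, be1⟩ with hDdef
  obtain ⟨lam, hlam, hnd⟩ := h.nondeg
  have hnondeg : D.Nondeg lam := by
    intro x hx
    show lam ≤ |fn X1 x * fn E2 x - fn X2 x * fn E1 x|
    rw [hX1 x hx, hX2 x hx, hE1 x hx, hE2 x hx]
    exact hnd x hx
  have hΦ3 : ContDiff ℝ 3 Φ := contDiff_infty.1 h.sΦ 3
  -- values of the two factors
  have hval : ∀ (t : ℝ) (v : XX) (g : ℝ × ℝ → ℝ), ContDiff ℝ 3 g →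
      (∀ x ∈ Disc, fn (T1 v) x = D1 g x ∧ fn (T2 v) x = D2 g x ∧ fn (T11 v) x = D1 (D1 g) x ∧
        fn (T12 v) x = D1 (D2 g) x ∧ fn (T22 v) x = D2 (D2 g) x) → ∀ y ∈ Disc,
      fn (D.a t v) y = D1 (D1 (fun x => P t x + g (Φ x))) (Ψ y) ∧
      fn (D.b t v) y = D2 (D2 (fun x => P t x + g (Φ x))) (Ψ y) := by
    intro t v g sg hg y hy
    obtain ⟨g1, g2, g11, g12, g22⟩ := hg y hy
    have sG : ContDiff ℝ 3 (fun x => g (Φ x)) := sg.comp hΦ3
    have e11 : D1 (D1 (fun x => P t x + g (Φ x)))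
        = fun x => D1 (D1 (P t)) x + D1 (D1 (fun x => g (Φ x))) x := by
      rw [D1_addf (dif3 (sP t)).d0 (dif3 sG).d0, D1_addf (dif3 (sP t)).d1 (dif3 sG).d1]
    have e22 : D2 (D2 (fun x => P t x + g (Φ x)))
        = fun x => D2 (D2 (P t)) x + D2 (D2 (fun x => g (Φ x))) x := by
      rw [D2_addf (dif3 (sP t)).d0 (dif3 sG).d0, D2_addf (dif3 (sP t)).d2 (dif3 sG).d2]
    have hcl := h.mem_closure hy
    obtain ⟨q1, q2⟩ := hq _ hcl
    have t1 := h.tr11 (f := g) (sg.of_le (by norm_num)) y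
    have t2 := h.tr22 (f := g) (sg.of_le (by norm_num)) y
    have a1 : fn (D.a t v) y = (1 - t) * 1 + t * D1 (D1 φ) (Ψ y) + fn (D.A v) y := by
      rw [NL.a, fn_add, fn_add, fn_smul, fn_smul]
      show (1 - t) * fn 1 y + t * fn al1 y + _ = _
      rw [fn_one hy, hal1 y hy]
    have b1 : fn (D.b t v) y = (1 - t) * 1 + t * D2 (D2 φ) (Ψ y) + fn (D.B v) y := by
      rw [NL.b, fn_add, fn_add, fn_smul, fn_smul]
      show (1 - t) * fn 1 y + t * fn be1 y + _ = _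
      rw [fn_one hy, hbe1 y hy]
    have a2 : fn (D.A v) y = xi1 Φ Ψ y ^ 2 * D1 (D1 g) y
        + 2 * (xi1 Φ Ψ y * xi2 Φ Ψ y * D1 (D2 g) y) + xi2 Φ Ψ y ^ 2 * D2 (D2 g) y
        + pp1 Φ Ψ y * D1 g y + pp2 Φ Ψ y * D2 g y := by
      rw [NL.A, fn_LY _ _ _ _ _ _ hy, fn_mul hy, fn_mul hy, fn_mul hy, g1, g2, g11, g12, g22]
      show fn X1 y * fn X1 y * _ + 2 * (fn X1 y * fn X2 y * _) + fn X2 y * fn X2 y * _
        + fn P1 y * _ + fn P2 y * _ = _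
      rw [hX1 y hy, hX2 y hy, hP1 y hy, hP2 y hy]
      ring
    have b2 : fn (D.B v) y = eta1 Φ Ψ y ^ 2 * D1 (D1 g) y
        + 2 * (eta1 Φ Ψ y * eta2 Φ Ψ y * D1 (D2 g) y) + eta2 Φ Ψ y ^ 2 * D2 (D2 g) y
        + qq1 Φ Ψ y * D1 g y + qq2 Φ Ψ y * D2 g y := by
      rw [NL.B, fn_LY _ _ _ _ _ _ hy, fn_mul hy, fn_mul hy, fn_mul hy, g1, g2, g11, g12, g22]
      show fn E1 y * fn E1 y * _ + 2 * (fn E1 y * fn E2 y * _) + fn E2 y * fn E2 y * _
        + fn Q1 y * _ + fn Q2 y * _ = _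
      rw [hE1 y hy, hE2 y hy, hQ1 y hy, hQ2 y hy]
      ring
    rw [e11, e22, P11, P22]
    simp only
    rw [q1, q2, t1, t2, a1, b1, a2, b2]
    exact ⟨rfl, rfl⟩
  -- solutions in the Banach algebra give classical solutions
  have hsol : ∀ (t : ℝ) (v : XX) (g : ℝ × ℝ → ℝ), ContDiff ℝ 3 g →
      (∀ x : ℝ × ℝ, x.1 ^ 2 + x.2 ^ 2 = 1 → g x = 0) →
      (∀ x ∈ Disc, fn (T1 v) x = D1 g x ∧ fn (T2 v) x = D2 g x ∧ fn (T11 v) x = D1 (D1 g) x ∧
        fn (T12 v) x = D1 (D2 g) x ∧ fn (T22 v) x = D2 (D2 g) x) → D.IsSol t v →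
      Sol (P t) (fun x => P t x + g (Φ x)) Ω := by
    intro t v g sg gbc hg hv
    obtain ⟨⟨δ1, hδ1, pa⟩, ⟨δ2, hδ2, pb⟩, hab⟩ := hv
    refine ⟨(sP t).add (sg.comp hΦ3), sP t, fun x hx => ?_, fun x hx => ?_, fun x hx => ?_,
      fun x hx => ?_⟩
    · have hy := h.mem_disc (subset_closure hx)
      have := (hval t v g sg hg (Φ x) hy).1
      rw [h.ΨΦ] at this
      rw [← this]; exact hδ1.trans_le (pa _ hy)
    · have hy := h.mem_disc (subset_closure hx)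
      have := (hval t v g sg hg (Φ x) hy).2
      rw [h.ΨΦ] at this
      rw [← this]; exact hδ2.trans_le (pb _ hy)
    · have hy := h.mem_disc (subset_closure hx)
      obtain ⟨h1, h2⟩ := hval t v g sg hg (Φ x) hy
      rw [h.ΨΦ] at h1 h2
      rw [← h1, ← h2, ← fn_mul hy, hab, fn_one hy]
    · have := gbc (Φ x) (h.frΩ x hx)
      rw [this, add_zero]
  obtain ⟨LΨ, hLΨ, hΨ⟩ := exists_lipΨ h
  -- a priori Hölder bounds for the factors
  have hap : ∀ t ∈ Icc (0 : ℝ) 1, ∀ v : XX, D.IsSol t v →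
      N0 (1 / 2) (C * (1 + LΨ)) (fn (D.a t v)) ∧ N0 (1 / 2) (C * (1 + LΨ)) (fn (D.b t v)) := by
    intro t ht v hv
    obtain ⟨g, sg, gbc, hg⟩ := exists_rep v
    have hs := hsol t v g sg gbc hg hv
    obtain ⟨u1, -, u3⟩ := hunif _ _ hs (hPK t ht) (hPm1 t ht) (hPm2 t ht)
    have hCL : C ≤ C * (1 + LΨ) := by nlinarith
    have hr : ∀ x ∈ Disc, ∀ y ∈ Disc, C * dist (Ψ x) (Ψ y) ^ ((1 : ℝ) / 2)
        ≤ C * (1 + LΨ) * dist x y ^ ((1 : ℝ) / 2) := by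
      intro x hx y hy
      have h1 : dist (Ψ x) (Ψ y) ≤ (1 + LΨ) * dist x y := by
        have := hΨ x hx y hy
        have hd : 0 ≤ dist x y := dist_nonneg
        linarith
      have h2 : dist (Ψ x) (Ψ y) ^ ((1 : ℝ) / 2) ≤ ((1 + LΨ) * dist x y) ^ ((1 : ℝ) / 2) :=
        Real.rpow_le_rpow dist_nonneg h1 (by norm_num)
      rw [Real.mul_rpow (by positivity) dist_nonneg] at h2
      have h3 : (1 + LΨ) ^ ((1 : ℝ) / 2) ≤ 1 + LΨ := by
        calc (1 + LΨ) ^ ((1 : ℝ) / 2) ≤ (1 + LΨ) ^ (1 : ℝ) :=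
              Real.rpow_le_rpow_of_exponent_le (by linarith) (by norm_num)
          _ = 1 + LΨ := Real.rpow_one _
      have hd : 0 ≤ dist x y ^ ((1 : ℝ) / 2) := Real.rpow_nonneg dist_nonneg _
      calc C * dist (Ψ x) (Ψ y) ^ ((1 : ℝ) / 2)
          ≤ C * ((1 + LΨ) ^ ((1 : ℝ) / 2) * dist x y ^ ((1 : ℝ) / 2)) := by gcongr
        _ ≤ C * ((1 + LΨ) * dist x y ^ ((1 : ℝ) / 2)) := by gcongr
        _ = _ := by ring
    constructor
    · refine ⟨fun y hy => ?_, fun y hy z hz => ?_⟩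
      · rw [(hval t v g sg hg y hy).1]
        exact (u1 _ (h.mem_closure hy)).2.2.2.1.trans hCL
      · rw [(hval t v g sg hg y hy).1, (hval t v g sg hg z hz).1]
        exact (u3 _ (h.mem_closure hy) _ (h.mem_closure hz)).1.trans (hr y hy z hz)
    · refine ⟨fun y hy => ?_, fun y hy z hz => ?_⟩
      · rw [(hval t v g sg hg y hy).2]
        exact (u1 _ (h.mem_closure hy)).2.2.2.2.2.trans hCL
      · rw [(hval t v g sg hg y hy).2, (hval t v g sg hg z hz).2]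
        exact (u3 _ (h.mem_closure hy) _ (h.mem_closure hz)).2.2.trans (hr y hy z hz)
  obtain ⟨C', hlip⟩ := D.lip hS3 hlam hnondeg hap
  obtain ⟨v, hv⟩ := abstract_continuity D.A D.B D.al0 D.al1 D.be0 D.be1 Pos Pos_open Pos_closed
    (fun a ha b hb => D.surj hS3 hlam hnondeg ha hb) C'
    (fun t ht s hs v w hv hw => hlip t ht s hs v w hv hw) (by
      refine ⟨0, ?_⟩
      have e1 : D.al0 + D.A 0 = 1 := by
        rw [map_zero, add_zero]
      have e2 : D.be0 + D.B 0 = 1 := by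
        rw [map_zero, add_zero]
      rw [e1, e2, mul_one]
      have : (1 : YY) ∈ Pos := ⟨1, one_pos, fun x hx => by rw [fn_one hx]⟩
      exact ⟨this, this, rfl⟩)
  have hv' : D.IsSol 1 v := by
    have e1 : D.a 1 v = D.al1 + D.A v := by rw [NL.a]; simp
    have e2 : D.b 1 v = D.be1 + D.B v := by rw [NL.b]; simp
    rw [NL.IsSol, e1, e2]; exact hv
  obtain ⟨g, sg, gbc, hg⟩ := exists_rep v
  have hfin := hsol 1 v g sg gbc hg hv'
  have e : P 1 = φ := by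
    funext x; simp [hP]
  rw [e] at hfin
  exact ⟨_, hfin⟩

end AQ
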