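import Pool.Agent.Lib_helper42.AP.Component

/-! Definitions for the final statement. -/

namespace AQ

open AP Set Filter Topology

/-- coordinate-convexity on a set `S`: on the intersection of `S` with every line parallel to a
coordinate axis (an interval) the function is convex -/
def CoordConvex (S : Set (ℝ × ℝ)) (u : ℝ × ℝ → ℝ) : Prop :=
  (∀ y : ℝ, ConvexOn ℝ {t : ℝ | (t, y) ∈ S} fun t => u (t, y)) ∧
  (∀ x : ℝ, ConvexOn ℝ {t : ℝ | (x, t) ∈ S} fun t => u (x, t))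

/-- `φ ∈ C³(∂Ω)`: near every boundary point `φ` is the restriction of a `C³` function -/
def C3On (Γ : Set (ℝ × ℝ)) (φ : ℝ × ℝ → ℝ) : Prop :=
  ∀ P ∈ Γ, ∃ ψ : ℝ × ℝ → ℝ, ContDiff ℝ 3 ψ ∧ ∀ᶠ x in 𝓝 P, x ∈ Γ → φ x = ψ x

/-- viscosity solutions of `(u₁₁ u₂₂)^{1/2} = 1` among coordinate-convex functions: test functions
are `C²` near the contact point with `ψ₁₁, ψ₂₂ ≥ 0` there -/
def ViscSol (Ω : Set (ℝ × ℝ)) (u : ℝ × ℝ → ℝ) : Prop :=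
  ∀ x ∈ Ω, ∀ ψ : ℝ × ℝ → ℝ, ContDiffAt ℝ 2 ψ x → 0 ≤ D1 (D1 ψ) x → 0 ≤ D2 (D2 ψ) x →
    (IsLocalMax (fun y => u y - ψ y) x → 1 ≤ √(D1 (D1 ψ) x * D2 (D2 ψ) x)) ∧
    (IsLocalMin (fun y => u y - ψ y) x → √(D1 (D1 ψ) x * D2 (D2 ψ) x) ≤ 1)

/-- solutions of the Dirichlet problem: coordinate-convex functions in `C(closure Ω)` solving
the equation in `Ω` in the viscosity sense, equal to `φ` on the boundary -/
structure IsSolution (Ω : Set (ℝ × ℝ)) (φ u : ℝ × ℝ → ℝ) : Prop where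
  cont : ContinuousOn u (closure Ω)
  convex : CoordConvex (closure Ω) u
  eq : ViscSol Ω u
  bc : ∀ x ∈ frontier Ω, u x = φ x

/-- `u ∈ C^{2,α}(closure Ω)`: `u` is `C²` in `Ω` and continuous on the closure, and all its
derivatives of order at most two are bounded and Hölder continuous with exponent `α` in `Ω` -/
structure C2Holder (Ω : Set (ℝ × ℝ)) (α : ℝ) (u : ℝ × ℝ → ℝ) : Prop where
  cont : ContinuousOn u (closure Ω)
  c2 : ContDiffOn ℝ 2 u Ω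
  bound : ∃ C : ℝ, ∀ x ∈ Ω, |u x| ≤ C ∧ |D1 u x| ≤ C ∧ |D2 u x| ≤ C ∧ |D1 (D1 u) x| ≤ C ∧
    |D1 (D2 u) x| ≤ C ∧ |D2 (D2 u) x| ≤ C
  holder : ∃ C : ℝ, ∀ x ∈ Ω, ∀ y ∈ Ω, |u x - u y| ≤ C * dist x y ^ α ∧
    |D1 u x - D1 u y| ≤ C * dist x y ^ α ∧ |D2 u x - D2 u y| ≤ C * dist x y ^ α ∧
    |D1 (D1 u) x - D1 (D1 u) y| ≤ C * dist x y ^ α ∧
    |D1 (D2 u) x - D1 (D2 u) y| ≤ C * dist x y ^ α ∧
    |D2 (D2 u) x - D2 (D2 u) y| ≤ C * dist x y ^ α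

end AQ
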