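import Pool.Agent.Lib_helper42.AQ.Exist
import Pool.Agent.Lib_helper42.AQ.FinalDefs
import Pool.Agent.Lib_helper95.AP.LimitSol

/-! Existence of `C^{2,α}` solutions for `C³` boundary data. -/

namespace AQ

open AP AP65 Set Filter Topology
open scoped ContDiff

variable {w : ℝ × ℝ → ℝ} {Ω : Set (ℝ × ℝ)} {c₀ α : ℝ} {Φ Ψ : ℝ × ℝ → ℝ × ℝ}

/-- quasi-convexity of `Ω`: functions with bounded gradient are Lipschitz -/
lemma quasi (h : Diffeo Ω Φ Ψ) (hb : Bornology.IsBounded Ω) : ∃ C, 0 ≤ C ∧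
    ∀ (f : ℝ × ℝ → ℝ) (M : ℝ), (∀ x ∈ Ω, DifferentiableAt ℝ f x ∧ |D1 f x| ≤ M ∧ |D2 f x| ≤ M) →
      ∀ x ∈ Ω, ∀ y ∈ Ω, |f x - f y| ≤ C * M * dist x y := by
  obtain ⟨KΦ, hK1, hKΦ⟩ := h.lipΦ hb
  have hΨ1 : ContDiff ℝ 1 Ψ := contDiff_infty.1 h.sΨ 1
  have hc : Continuous (fderiv ℝ Ψ) := hΨ1.continuous_fderiv (by norm_num)
  obtain ⟨B, hB⟩ := disc_compact.exists_bound_of_continuousOn hc.continuousOn
  set B' : ℝ := max B 0 with hB'
  have hB'0 : 0 ≤ B' := le_max_right _ _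
  refine ⟨2 * B' * KΦ, by positivity, fun f M hf x hx y hy => ?_⟩
  have hM : 0 ≤ M := (abs_nonneg _).trans (hf x hx).2.1
  set O : Set (ℝ × ℝ) := {z | z.1 ^ 2 + z.2 ^ 2 < 1} with hO
  have hOc : Convex ℝ O := by
    intro p hp q hq a b ha hb hab
    have hp' : p.1 ^ 2 + p.2 ^ 2 < 1 := hp
    have hq' : q.1 ^ 2 + q.2 ^ 2 < 1 := hq
    show (a • p + b • q).1 ^ 2 + (a • p + b • q).2 ^ 2 < 1
    simp only [Prod.fst_add, Prod.smul_fst, Prod.snd_add, Prod.smul_snd, smul_eq_mul]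
    have hb' : b = 1 - a := by linarith
    subst hb'
    have e : (a * p.1 + (1 - a) * q.1) ^ 2 + (a * p.2 + (1 - a) * q.2) ^ 2
        = a * (p.1 ^ 2 + p.2 ^ 2) + (1 - a) * (q.1 ^ 2 + q.2 ^ 2)
          - a * (1 - a) * ((p.1 - q.1) ^ 2 + (p.2 - q.2) ^ 2) := by ring
    rw [e]
    have h1 : 0 ≤ a * (1 - a) * ((p.1 - q.1) ^ 2 + (p.2 - q.2) ^ 2) := by positivity
    rcases ha.eq_or_lt with h0 | h0
    · rw [← h0]; nlinarith
    · nlinarith [mul_lt_mul_of_pos_left hp' h0, mul_le_mul_of_nonneg_left hq'.le hb]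
  have key : ∀ p ∈ O, ∀ q ∈ O, |f (Ψ p) - f (Ψ q)| ≤ 2 * M * B' * ‖p - q‖ := by
    intro p hp q hq
    have := hOc.norm_image_sub_le_of_norm_fderiv_le (𝕜 := ℝ) (f := fun z => f (Ψ z))
      (C := 2 * M * B') (fun z hz => ?_) (fun z hz => ?_) hq hp
    · rwa [Real.norm_eq_abs] at this
    · exact (hf _ (h.inD z hz)).1.comp z (hΨ1.differentiable (by norm_num) z)
    · have e : fderiv ℝ (fun z => f (Ψ z)) z = (fderiv ℝ f (Ψ z)).comp (fderiv ℝ Ψ z) :=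
        fderiv_comp z (hf _ (h.inD z hz)).1 (hΨ1.differentiable (by norm_num) z)
      rw [e]
      obtain ⟨-, q1, q2⟩ := hf _ (h.inD z hz)
      have n1 : ‖fderiv ℝ f (Ψ z)‖ ≤ 2 * M := by
        apply ContinuousLinearMap.opNorm_le_bound _ (by positivity)
        intro v
        rw [fderiv_apply_eq, Real.norm_eq_abs]
        have hv1 : |v.1| ≤ ‖v‖ := by
          rw [Prod.norm_def]; exact le_max_left _ _
        have hv2 : |v.2| ≤ ‖v‖ := by
          rw [Prod.norm_def]; exact le_max_right _ _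
        calc |v.1 * D1 f (Ψ z) + v.2 * D2 f (Ψ z)| ≤ |v.1| * |D1 f (Ψ z)| + |v.2| * |D2 f (Ψ z)| := by
              rw [← abs_mul, ← abs_mul]; exact abs_add_le _ _
          _ ≤ ‖v‖ * M + ‖v‖ * M := by gcongr
          _ = 2 * M * ‖v‖ := by ring
      have hzD : z ∈ Disc := by
        have h1 : z.1 ^ 2 + z.2 ^ 2 < 1 := hz
        exact h1.le
      have n2 : ‖fderiv ℝ Ψ z‖ ≤ B' := (hB z hzD).trans (le_max_left _ _)
      calc ‖(fderiv ℝ f (Ψ z)).comp (fderiv ℝ Ψ z)‖ ≤ ‖fderiv ℝ f (Ψ z)‖ * ‖fderiv ℝ Ψ z‖ :=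
            ContinuousLinearMap.opNorm_comp_le _ _
        _ ≤ 2 * M * B' := by gcongr
  have h1 := key (Φ x) (h.inΩ x hx) (Φ y) (h.inΩ y hy)
  rw [h.ΨΦ, h.ΨΦ, ← dist_eq_norm] at h1
  refine h1.trans ?_
  calc 2 * M * B' * dist (Φ x) (Φ y) ≤ 2 * M * B' * (KΦ * dist x y) := by
        gcongr
        exact hKΦ x (subset_closure hx) y (subset_closure hy)
    _ = _ := by ring

/-- **existence of `C^{2,α}` solutions** -/
theorem exists_C2a (hS3 : SchauderThree) (hNL2 : NonlinTwo (1 / 2)) (hα0 : 0 < α) (hα1 : α < 1)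
    (hNL : NonlinTwo α) (hD : Dom w Ω c₀) (h : Diffeo Ω Φ Ψ) {φ : ℝ × ℝ → ℝ}
    (sφ : ContDiff ℝ 3 φ) : ∃ u : ℝ × ℝ → ℝ, C2Holder Ω α u ∧
      (∀ x ∈ Ω, 0 < D1 (D1 u) x ∧ 0 < D2 (D2 u) x ∧ D1 (D1 u) x * D2 (D2 u) x = 1) ∧
      ∀ x ∈ frontier Ω, u x = φ x := by
  -- cut off
  obtain ⟨φ', s', -, ⟨V, hV, hcl, he⟩, ⟨K, hK⟩, u1, -, -, u2⟩ :=
    Pool.Agent.Lib44.AP.exists_cutoff sφ hD.bdd
  obtain ⟨o1, -, p1, q1, r1⟩ := Pool.Agent.Lib44.AP.exists_modulus u1 (fun x => (hK x).b111)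
  obtain ⟨o2, -, p2, q2, r2⟩ := Pool.Agent.Lib44.AP.exists_modulus u2 (fun x => (hK x).b222)
  set om : ℝ → ℝ := fun r => o1 r + o2 r with hom
  have hmod : Modulus om := by
    intro ε hε
    obtain ⟨d1, hd1, e1⟩ := r1 (ε / 2) (by positivity)
    obtain ⟨d2, hd2, e2⟩ := r2 (ε / 2) (by positivity)
    refine ⟨min d1 d2, lt_min hd1 hd2, fun s _ hs => ?_⟩
    have := e1 s (hs.trans (min_le_left _ _))
    have := e2 s (hs.trans (min_le_right _ _))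
    simp only [hom]; linarith
  have m1 : ∀ x y, |D1 (D1 (D1 φ')) x - D1 (D1 (D1 φ')) y| ≤ om (dist x y) := fun x y => by
    simp only [hom]; linarith [q1 x y, p2 (dist x y)]
  have m2 : ∀ x y, |D2 (D2 (D2 φ')) x - D2 (D2 (D2 φ')) y| ≤ om (dist x y) := fun x y => by
    simp only [hom]; linarith [q2 x y, p1 (dist x y)]
  -- smooth approximations
  choose ψ hψs hψK hψ1 hψ2 hψe using fun k : ℕ =>
    Pool.Agent.Lib44.AP.smooth_approx s' hK m1 m2 (show (0 : ℝ) < 1 / ((k : ℝ) + 1) by positivity)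
  choose uk huk using fun k : ℕ =>
    exists_smooth_sol hS3 hNL2 hD h (hψs k) (hψK k) hmod (hψ1 k) (hψ2 k)
  obtain ⟨C, hC0, hunif⟩ := uniform_bound hα0 hα1 hNL hD h K hmod
  have hlim : ∀ x ∈ frontier Ω, Tendsto (fun k => ψ k x) atTop (𝓝 (φ x)) := by
    intro x hx
    have hx' : φ' x = φ x := he x (hcl (frontier_subset_closure hx))
    rw [← hx', tendsto_iff_dist_tendsto_zero]
    refine squeeze_zero (fun n => dist_nonneg) (fun n => ?_)
      tendsto_one_div_add_atTop_nhds_zero_nat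
    rw [Real.dist_eq]; exact hψe n x
  obtain ⟨u, l1, l2, l3, l4, l5, l6⟩ := AQ95.limit_solution hD.isOpen hα0 hα1 huk hlim
    (fun k => (hunif _ _ (huk k) (hψK k) (hψ1 k) (hψ2 k)).1)
    (fun k => (hunif _ _ (huk k) (hψK k) (hψ1 k) (hψ2 k)).2.1)
    (fun k => (hunif _ _ (huk k) (hψK k) (hψ1 k) (hψ2 k)).2.2)
  refine ⟨u, ⟨?_, l2, ⟨C, l3⟩, ?_⟩, l5, l6⟩
  · have hL : LipschitzOnWith (Real.toNNReal C) u (closure Ω) := by
      apply LipschitzOnWith.of_dist_le_mul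
      intro x hx y hy
      rw [Real.dist_eq, Real.coe_toNNReal C hC0.le]
      exact l1 x hx y hy
    exact hL.continuousOn
  · obtain ⟨C1, hC10, hq⟩ := quasi h hD.bdd
    obtain ⟨Dm, hDm, hdm⟩ := dist_rpow_bdd hD.bdd hα0 hα1
    have hcd : ∀ x ∈ Ω, ContDiffAt ℝ 2 u x := fun x hx =>
      (l2 x hx).contDiffAt (hD.isOpen.mem_nhds hx)
    have g1 := hq (D1 u) C (fun x hx => ⟨diffD1 (hcd x hx), (l3 x hx).2.2.2.1, by
      rw [← D12_comm (hcd x hx)]; exact (l3 x hx).2.2.2.2.1⟩)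
    have g2 := hq (D2 u) C (fun x hx => ⟨diffD2 (hcd x hx), (l3 x hx).2.2.2.2.1,
      (l3 x hx).2.2.2.2.2⟩)
    refine ⟨C * Dm + C1 * C * Dm + C, fun x hx y hy => ?_⟩
    have hd : 0 ≤ dist x y ^ α := Real.rpow_nonneg dist_nonneg _
    have hdd := hdm x hx y hy
    have t1 : 0 ≤ C * Dm := by positivity
    have t2 : 0 ≤ C1 * C * Dm := by positivity
    have a1 := l1 x (subset_closure hx) y (subset_closure hy)
    have a2 := g1 x hx y hy
    have a3 := g2 x hx y hy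
    obtain ⟨a4, a5, a6⟩ := l4 x hx y hy
    have b1 : C * dist x y ≤ C * Dm * dist x y ^ α := by
      rw [mul_assoc]; gcongr
    have b2 : C1 * C * dist x y ≤ C1 * C * Dm * dist x y ^ α := by
      rw [mul_assoc (C1 * C)]; gcongr
    have c1 : C * Dm * dist x y ^ α ≤ (C * Dm + C1 * C * Dm + C) * dist x y ^ α :=
      mul_le_mul_of_nonneg_right (by linarith) hd
    have c2 : C1 * C * Dm * dist x y ^ α ≤ (C * Dm + C1 * C * Dm + C) * dist x y ^ α :=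
      mul_le_mul_of_nonneg_right (by linarith) hd
    have c3 : C * dist x y ^ α ≤ (C * Dm + C1 * C * Dm + C) * dist x y ^ α :=
      mul_le_mul_of_nonneg_right (by linarith) hd
    exact ⟨a1.trans (b1.trans c1), a2.trans (b2.trans c2), a3.trans (b2.trans c2), a4.trans c3,
      a5.trans c3, a6.trans c3⟩

end AQ
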