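import Mathlib

/-! Weak closedness of `dQ` for `C¹` functions: `∫∫ (ζ₁ Q₂ - ζ₂ Q₁) = ∫ ζ(x,κ) Q₁(x,κ) dx`. -/

namespace AQ

open Set Filter Topology MeasureTheory intervalIntegral Function

/-- Fubini for continuous functions on rectangles, interval version -/
lemma swap_rect {f : ℝ → ℝ → ℝ} {a b c d : ℝ} (hab : a ≤ b) (hcd : c ≤ d)
    (hf : Continuous (uncurry f)) :
    ∫ x in a..b, ∫ y in c..d, f x y = ∫ y in c..d, ∫ x in a..b, f x y := by
  rw [integral_of_le hab, integral_of_le hcd]
  simp_rw [integral_of_le hab, integral_of_le hcd]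
  apply integral_integral_swap
  rw [Measure.prod_restrict]
  have : IntegrableOn (uncurry f) (Icc a b ×ˢ Icc c d) (volume.prod volume) :=
    hf.continuousOn.integrableOn_compact (isCompact_Icc.prod isCompact_Icc)
  exact this.mono_set (prod_mono Ioc_subset_Icc_self Ioc_subset_Icc_self)

lemma cont_inner {f : ℝ → ℝ → ℝ} {c d : ℝ} (hf : Continuous (uncurry f)) :
    Continuous (fun x => ∫ y in c..d, f x y) :=
  continuous_parametric_intervalIntegral_of_continuous' hf c d

/-- the averaged version -/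
lemma averaged {ζ ζ1 ζ2 Q q1 q2 : ℝ → ℝ → ℝ} {S κ T h : ℝ} (hS : 0 < S) (hκT : κ ≤ T)
    (hh : 0 < h)
    (hζ1 : ∀ x y, HasDerivAt (fun x => ζ x y) (ζ1 x y) x)
    (hζ2 : ∀ x y, HasDerivAt (fun y => ζ x y) (ζ2 x y) y)
    (hQ2 : ∀ x y, HasDerivAt (fun y => Q x y) (q2 x y) y)
    (cζ : Continuous (uncurry ζ)) (cζ1 : Continuous (uncurry ζ1)) (cζ2 : Continuous (uncurry ζ2))
    (cQ : Continuous (uncurry Q)) (cq2 : Continuous (uncurry q2))
    (sup1 : ∀ x y, S ≤ |x| → ζ x y = 0) (supT : ∀ x, ζ x T = 0) :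
    ∫ x in (-S)..S, ∫ y in κ..T, (ζ1 x y * ((∫ s in x..(x + h), q2 s y) / h)
      - ζ2 x y * ((Q (x + h) y - Q x y) / h))
    = ∫ x in (-S)..S, ζ x κ * ((Q (x + h) κ - Q x κ) / h) := by
  -- continuity of the pieces
  have cA : Continuous (uncurry fun x y => (∫ s in x..(x + h), q2 s y) / h) := by
    have e : (uncurry fun x y => (∫ s in x..(x + h), q2 s y) / h)
        = fun p : ℝ × ℝ => (∫ s in (0 : ℝ)..h, q2 (s + p.1) p.2) / h := by
      ext p
      simp only [uncurry]
      rw [intervalIntegral.integral_comp_add_right (fun s => q2 s p.2) p.1]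
      rw [zero_add, add_comm h]
    rw [e]
    apply Continuous.div_const
    apply continuous_parametric_intervalIntegral_of_continuous'
    exact cq2.comp (by fun_prop : Continuous fun q : (ℝ × ℝ) × ℝ => (q.2 + q.1.1, q.1.2))
  have cB : Continuous (uncurry fun x y => (Q (x + h) y - Q x y) / h) := by
    apply Continuous.div_const
    exact (cQ.comp (by fun_prop : Continuous fun p : ℝ × ℝ => (p.1 + h, p.2))).sub cQ
  have cM : Continuous (uncurry fun x y => (q2 (x + h) y - q2 x y) / h) := by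
    apply Continuous.div_const
    exact (cq2.comp (by fun_prop : Continuous fun p : ℝ × ℝ => (p.1 + h, p.2))).sub cq2
  have sl1 : ∀ {f : ℝ → ℝ → ℝ}, Continuous (uncurry f) → ∀ y, Continuous (fun x => f x y) :=
    fun {f} hf y => hf.comp (by fun_prop : Continuous fun x : ℝ => (x, y))
  have sl2 : ∀ {f : ℝ → ℝ → ℝ}, Continuous (uncurry f) → ∀ x, Continuous (fun y => f x y) :=
    fun {f} hf x => hf.comp (by fun_prop : Continuous fun y : ℝ => (x, y))
  have hSS : -S ≤ S := by linarith
  -- (1)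
  have h1 : ∀ y, ∫ x in (-S)..S, ζ1 x y * ((∫ s in x..(x + h), q2 s y) / h)
      = - ∫ x in (-S)..S, ζ x y * ((q2 (x + h) y - q2 x y) / h) := by
    intro y
    have hder : ∀ x, HasDerivAt (fun x => (∫ s in x..(x + h), q2 s y) / h)
        ((q2 (x + h) y - q2 x y) / h) x := by
      intro x
      have cy := sl1 cq2 y
      have d1 : HasDerivAt (fun u => ∫ s in (0 : ℝ)..u, q2 s y) (q2 x y) x :=
        intervalIntegral.integral_hasDerivAt_right (cy.intervalIntegrable _ _)
          cy.stronglyMeasurable.stronglyMeasurableAtFilter cy.continuousAt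
      have d2 : HasDerivAt (fun u => ∫ s in (0 : ℝ)..u, q2 s y) (q2 (x + h) y) (x + h) :=
        intervalIntegral.integral_hasDerivAt_right (cy.intervalIntegrable _ _)
          cy.stronglyMeasurable.stronglyMeasurableAtFilter cy.continuousAt
      have d3 : HasDerivAt (fun u => ∫ s in (0 : ℝ)..(u + h), q2 s y) (q2 (x + h) y) x := by
        have := d2.comp_add_const x h
        exact this
      have e : (fun x => (∫ s in x..(x + h), q2 s y) / h)
          = fun x => ((∫ s in (0 : ℝ)..(x + h), q2 s y) - ∫ s in (0 : ℝ)..x, q2 s y) / h := by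
        ext x
        rw [intervalIntegral.integral_interval_sub_left (cy.intervalIntegrable _ _)
          (cy.intervalIntegrable _ _)]
      rw [e]
      exact (d3.fun_sub d1).div_const h
    have := intervalIntegral.integral_mul_deriv_eq_deriv_mul (a := -S) (b := S)
      (u := fun x => (∫ s in x..(x + h), q2 s y) / h) (v := fun x => ζ x y)
      (u' := fun x => (q2 (x + h) y - q2 x y) / h) (v' := fun x => ζ1 x y)
      (fun x _ => hder x) (fun x _ => hζ1 x y)
      ((sl1 cM y).intervalIntegrable _ _) ((sl1 cζ1 y).intervalIntegrable _ _)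
    rw [sup1 S y (le_abs_self S), sup1 (-S) y (by rw [abs_neg]; exact le_abs_self S)] at this
    simp only [mul_zero, sub_self, zero_sub] at this
    calc ∫ x in (-S)..S, ζ1 x y * ((∫ s in x..(x + h), q2 s y) / h)
        = ∫ x in (-S)..S, ((∫ s in x..(x + h), q2 s y) / h) * ζ1 x y := by
          congr 1; ext x; ring
      _ = - ∫ x in (-S)..S, (q2 (x + h) y - q2 x y) / h * ζ x y := this
      _ = _ := by congr 2; ext x; ring
  -- (2)
  have h2 : ∀ x, ∫ y in κ..T, ζ2 x y * ((Q (x + h) y - Q x y) / h)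
      = -(ζ x κ * ((Q (x + h) κ - Q x κ) / h))
        - ∫ y in κ..T, ζ x y * ((q2 (x + h) y - q2 x y) / h) := by
    intro x
    have := intervalIntegral.integral_mul_deriv_eq_deriv_mul (a := κ) (b := T)
      (u := fun y => (Q (x + h) y - Q x y) / h) (v := fun y => ζ x y)
      (u' := fun y => (q2 (x + h) y - q2 x y) / h) (v' := fun y => ζ2 x y)
      (fun y _ => ((hQ2 (x + h) y).fun_sub (hQ2 x y)).div_const h) (fun y _ => hζ2 x y)
      ((sl2 cM x).intervalIntegrable _ _) ((sl2 cζ2 x).intervalIntegrable _ _)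
    rw [supT x] at this
    simp only [mul_zero, zero_sub] at this
    calc ∫ y in κ..T, ζ2 x y * ((Q (x + h) y - Q x y) / h)
        = ∫ y in κ..T, ((Q (x + h) y - Q x y) / h) * ζ2 x y := by congr 1; ext y; ring
      _ = -((Q (x + h) κ - Q x κ) / h * ζ x κ)
          - ∫ y in κ..T, (q2 (x + h) y - q2 x y) / h * ζ x y := this
      _ = _ := by
        congr 1
        · ring
        · congr 1; ext y; ring
  have cζA : Continuous (uncurry fun x y => ζ1 x y * ((∫ s in x..(x + h), q2 s y) / h)) :=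
    cζ1.mul cA
  have cζB : Continuous (uncurry fun x y => ζ2 x y * ((Q (x + h) y - Q x y) / h)) := cζ2.mul cB
  have cζM : Continuous (uncurry fun x y => ζ x y * ((q2 (x + h) y - q2 x y) / h)) := cζ.mul cM
  have e1 : ∫ x in (-S)..S, ∫ y in κ..T, ζ1 x y * ((∫ s in x..(x + h), q2 s y) / h)
      = - ∫ x in (-S)..S, ∫ y in κ..T, ζ x y * ((q2 (x + h) y - q2 x y) / h) := by
    rw [swap_rect hSS hκT cζA, swap_rect hSS hκT cζM, ← intervalIntegral.integral_neg]
    congr 1; ext y; exact h1 y
  have e2 : ∫ x in (-S)..S, ∫ y in κ..T, ζ2 x y * ((Q (x + h) y - Q x y) / h)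
      = -(∫ x in (-S)..S, ζ x κ * ((Q (x + h) κ - Q x κ) / h))
        - ∫ x in (-S)..S, ∫ y in κ..T, ζ x y * ((q2 (x + h) y - q2 x y) / h) := by
    rw [← intervalIntegral.integral_neg, ← intervalIntegral.integral_sub]
    · congr 1; ext x; exact h2 x
    · have : Continuous (fun x => ζ x κ * ((Q (x + h) κ - Q x κ) / h)) :=
        (sl1 cζ κ).mul (sl1 cB κ)
      exact this.neg.intervalIntegrable _ _
    · exact (cont_inner cζM).intervalIntegrable _ _
  have e3 : ∀ x, ∫ y in κ..T, (ζ1 x y * ((∫ s in x..(x + h), q2 s y) / h)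
      - ζ2 x y * ((Q (x + h) y - Q x y) / h))
      = (∫ y in κ..T, ζ1 x y * ((∫ s in x..(x + h), q2 s y) / h))
        - ∫ y in κ..T, ζ2 x y * ((Q (x + h) y - Q x y) / h) := fun x =>
    intervalIntegral.integral_sub ((sl2 cζA x).intervalIntegrable _ _)
      ((sl2 cζB x).intervalIntegrable _ _)
  simp_rw [e3]
  rw [intervalIntegral.integral_sub ((cont_inner cζA).intervalIntegrable _ _)
    ((cont_inner cζB).intervalIntegrable _ _), e1, e2]
  ring

end AQ
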