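import Pool.Agent.Lib_helper42.AQ.Banach4

/-! The nonlinear equation `(α_t + A v)(β_t + B v) = 1` in the Banach algebra: surjectivity of the
linearisation and the Lipschitz estimate. -/

namespace AQ

open AP AP65 Set Filter Topology UniformSpace MvPolynomial
open scoped ContDiff

/-- data of the transformed nonlinear problem -/
structure NL where
  X1 : YY
  X2 : YY
  E1 : YY
  E2 : YY
  P1 : YY
  P2 : YY
  Q1 : YY
  Q2 : YY
  al0 : YY
  al1 : YY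
  be0 : YY
  be1 : YY

namespace NL

variable (D : NL)

/-- first linear operator -/
noncomputable def A : XX →L[ℝ] YY := LY (D.X1 * D.X1) (D.X1 * D.X2) (D.X2 * D.X2) D.P1 D.P2
/-- second linear operator -/
noncomputable def B : XX →L[ℝ] YY := LY (D.E1 * D.E1) (D.E1 * D.E2) (D.E2 * D.E2) D.Q1 D.Q2
/-- the first factor -/
noncomputable def a (t : ℝ) (v : XX) : YY := (1 - t) • D.al0 + t • D.al1 + D.A v
/-- the second factor -/
noncomputable def b (t : ℝ) (v : XX) : YY := (1 - t) • D.be0 + t • D.be1 + D.B v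
/-- solutions -/
def IsSol (t : ℝ) (v : XX) : Prop := D.a t v ∈ Pos ∧ D.b t v ∈ Pos ∧ D.a t v * D.b t v = 1

lemma comb (a b : YY) (v : XX) : b * D.A v + a * D.B v =
    LY (b * (D.X1 * D.X1) + a * (D.E1 * D.E1)) (b * (D.X1 * D.X2) + a * (D.E1 * D.E2))
      (b * (D.X2 * D.X2) + a * (D.E2 * D.E2)) (b * D.P1 + a * D.Q1) (b * D.P2 + a * D.Q2) v := by
  rw [A, B, LY_apply, LY_apply, LY_apply]
  simp only [two_smul]
  ring

/-- nondegeneracy -/
def Nondeg (lam : ℝ) : Prop :=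
  ∀ x ∈ Disc, lam ≤ |fn D.X1 x * fn D.E2 x - fn D.X2 x * fn D.E1 x|

lemma ell {lam δ M : ℝ} (hl : 0 < lam) (hδ : 0 < δ) (hM : 0 < M) (hD : D.Nondeg lam) {a b : YY}
    (ha : ∀ x ∈ Disc, δ ≤ fn a x) (hb : ∀ x ∈ Disc, δ ≤ fn b x)
    (hbd : Bd M (fn (b * (D.X2 * D.X2) + a * (D.E2 * D.E2)))) :
    Ell (min (δ ^ 2 * lam ^ 2) (δ ^ 2 * lam ^ 2 / M)) (fn (b * (D.X1 * D.X1) + a * (D.E1 * D.E1)))
      (fn (b * (D.X1 * D.X2) + a * (D.E1 * D.E2)))
      (fn (b * (D.X2 * D.X2) + a * (D.E2 * D.E2))) := by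
  intro x hx
  have h1 := ha x hx
  have h2 := hb x hx
  have h3 := hD x hx
  have h4 := hbd x hx
  have e1 : ∀ p q r s : YY, fn (b * (p * q) + a * (r * s)) x
      = fn b x * (fn p x * fn q x) + fn a x * (fn r x * fn s x) := fun p q r s => by
    rw [fn_add, fn_mul hx, fn_mul hx, fn_mul hx, fn_mul hx]
  rw [e1] at h4
  rw [e1, e1, e1]
  set α := fn a x
  set β := fn b x
  set x1 := fn D.X1 x
  set x2 := fn D.X2 x
  set y1 := fn D.E1 x
  set y2 := fn D.E2 x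
  have hα : 0 < α := by linarith
  have hβ : 0 < β := by linarith
  have hdet : (β * (x1 * x1) + α * (y1 * y1)) * (β * (x2 * x2) + α * (y2 * y2))
      - (β * (x1 * x2) + α * (y1 * y2)) ^ 2 = α * β * (x1 * y2 - x2 * y1) ^ 2 := by ring
  have hsq : lam ^ 2 ≤ (x1 * y2 - x2 * y1) ^ 2 := by
    rw [← sq_abs (x1 * y2 - x2 * y1)]
    exact pow_le_pow_left₀ hl.le h3 2
  have hprod : δ ^ 2 ≤ α * β := by nlinarith
  have hlow : δ ^ 2 * lam ^ 2 ≤ α * β * (x1 * y2 - x2 * y1) ^ 2 := by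
    gcongr
  have hlow0 : 0 < δ ^ 2 * lam ^ 2 := by positivity
  have h22 : 0 ≤ β * (x2 * x2) + α * (y2 * y2) :=
    add_nonneg (mul_nonneg hβ.le (mul_self_nonneg _)) (mul_nonneg hα.le (mul_self_nonneg _))
  have h11 : 0 ≤ β * (x1 * x1) + α * (y1 * y1) :=
    add_nonneg (mul_nonneg hβ.le (mul_self_nonneg _)) (mul_nonneg hα.le (mul_self_nonneg _))
  have h5 := (abs_le.1 h4).2
  constructor
  · refine (min_le_right _ _).trans ?_
    rw [div_le_iff₀ hM]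
    have h6 : δ ^ 2 * lam ^ 2 ≤ (β * (x1 * x1) + α * (y1 * y1)) *
        (β * (x2 * x2) + α * (y2 * y2)) := by
      have := sq_nonneg (β * (x1 * x2) + α * (y1 * y2))
      linarith
    refine h6.trans ?_
    gcongr
  · rw [hdet]
    exact (min_le_left _ _).trans hlow

lemma surj (hS : SchauderThree) {lam : ℝ} (hl : 0 < lam) (hD : D.Nondeg lam) {a b : YY}
    (ha : a ∈ Pos) (hb : b ∈ Pos) : Function.Surjective (fun v : XX => b * D.A v + a * D.B v) := by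
  obtain ⟨δ1, hδ1, h1⟩ := ha
  obtain ⟨δ2, hδ2, h2⟩ := hb
  set c : YY := b * (D.X2 * D.X2) + a * (D.E2 * D.E2) with hc
  have hM : Bd (‖c‖ + 1) (fn c) := (fn_N0 c).1.mono (by linarith)
  have hcn := norm_nonneg c
  have hE := D.ell hl (lt_min hδ1 hδ2) (by linarith) hD (a := a) (b := b)
    (fun x hx => (min_le_left _ _).trans (h1 x hx))
    (fun x hx => (min_le_right _ _).trans (h2 x hx)) hM
  have hpos : 0 < min ((min δ1 δ2) ^ 2 * lam ^ 2) ((min δ1 δ2) ^ 2 * lam ^ 2 / (‖c‖ + 1)) := by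
    have : 0 < min δ1 δ2 := lt_min hδ1 hδ2
    positivity
  have := LY_surj hS hpos (b1 := b * D.P1 + a * D.Q1) (b2 := b * D.P2 + a * D.Q2) hE
  intro y
  obtain ⟨v, hv⟩ := this y
  exact ⟨v, by simp only; rw [comb]; exact hv⟩

/-- bounds for products in terms of the function norms -/
lemma N0_fn_mul {M M' : ℝ} {a b : YY} (ha : N0 (1 / 2) M (fn a)) (hb : N0 (1 / 2) M' (fn b)) :
    N0 (1 / 2) (2 * M * M') (fn (a * b)) :=
  (ha.mul hb).congr fun _ hx => (fn_mul hx a b).symm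

lemma N0_fn_add {M M' : ℝ} {a b : YY} (ha : N0 (1 / 2) M (fn a)) (hb : N0 (1 / 2) M' (fn b)) :
    N0 (1 / 2) (M + M') (fn (a + b)) :=
  (ha.add hb).congr fun x _ => (fn_add a b x).symm

/-- the Lipschitz estimate, given the a priori bound in `C^{2,1/2}` -/
theorem lip (hS : SchauderThree) {lam Λ : ℝ} (hl : 0 < lam) (hD : D.Nondeg lam)
    (hap : ∀ t ∈ Icc (0 : ℝ) 1, ∀ v : XX, D.IsSol t v →
      N0 (1 / 2) Λ (fn (D.a t v)) ∧ N0 (1 / 2) Λ (fn (D.b t v))) :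
    ∃ C : ℝ, ∀ t ∈ Icc (0 : ℝ) 1, ∀ s ∈ Icc (0 : ℝ) 1, ∀ v w : XX, D.IsSol t v → D.IsSol s w →
      ‖v - w‖ ≤ C * |t - s| * (1 + ‖v‖ + ‖w‖) := by
  set R : ℝ := 1 + ‖D.X1‖ + ‖D.X2‖ + ‖D.E1‖ + ‖D.E2‖ + ‖D.P1‖ + ‖D.P2‖ + ‖D.Q1‖ + ‖D.Q2‖
    + ‖D.al0‖ + ‖D.al1‖ + ‖D.be0‖ + ‖D.be1‖ + ‖D.A‖ + ‖D.B‖ with hR
  have hn : ∀ a : YY, 0 ≤ ‖a‖ := fun a => norm_nonneg a
  have g1 := hn D.X1; have g2 := hn D.X2; have g3 := hn D.E1; have g4 := hn D.E2
  have g5 := hn D.P1; have g6 := hn D.P2; have g7 := hn D.Q1; have g8 := hn D.Q2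
  have g9 := hn D.al0; have g10 := hn D.al1; have g11 := hn D.be0; have g12 := hn D.be1
  have g13 := norm_nonneg D.A; have g14 := norm_nonneg D.B
  have hR1 : 1 ≤ R := by linarith
  have hR0 : 0 ≤ R := by linarith
  set Λ' : ℝ := max Λ 1 with hΛ'
  have hΛ1 : 1 ≤ Λ' := le_max_right _ _
  have hΛ0 : 0 < Λ' := by linarith
  -- bound for the coefficients
  set Lam : ℝ := 8 * Λ' * R ^ 2 with hLam
  have hLam0 : 0 < Lam := by positivity
  set δ : ℝ := 1 / Λ' with hδ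
  have hδ0 : 0 < δ := by positivity
  set mu : ℝ := min (δ ^ 2 * lam ^ 2) (δ ^ 2 * lam ^ 2 / Lam) with hmu
  have hmu0 : 0 < mu := by positivity
  obtain ⟨C, hC0, hC⟩ := schauder3_YY hS (lam := mu) (Lam := Lam) hmu0
  refine ⟨C * (4 * R ^ 2 * (1 + R) + (1 + 4 * R ^ 3 * (1 + R)) * (8 * R * Λ')), ?_⟩
  intro t ht s hs v w hv hw
  obtain ⟨hav, hbv⟩ := hap t ht v hv
  obtain ⟨haw, hbw⟩ := hap s hs w hw
  have hav' := hav.mono (le_max_left Λ 1)
  have hbv' := hbv.mono (le_max_left Λ 1)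
  have haw' := haw.mono (le_max_left Λ 1)
  have hbw' := hbw.mono (le_max_left Λ 1)
  obtain ⟨pa, pb, hab⟩ := hv
  obtain ⟨pa', pb', hab'⟩ := hw
  set a := D.a t v with ha
  set b := D.b t v with hb
  set a' := D.a s w with ha'
  set b' := D.b s w with hb'
  have rX1 : ‖D.X1‖ ≤ R := by linarith
  have rX2 : ‖D.X2‖ ≤ R := by linarith
  have rE1 : ‖D.E1‖ ≤ R := by linarith
  have rE2 : ‖D.E2‖ ≤ R := by linarith
  have rP1 : ‖D.P1‖ ≤ R := by linarith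
  have rP2 : ‖D.P2‖ ≤ R := by linarith
  have rQ1 : ‖D.Q1‖ ≤ R := by linarith
  have rQ2 : ‖D.Q2‖ ≤ R := by linarith
  have ra0 : ‖D.al0‖ ≤ R := by linarith
  have ra1 : ‖D.al1‖ ≤ R := by linarith
  have rb0 : ‖D.be0‖ ≤ R := by linarith
  have rb1 : ‖D.be1‖ ≤ R := by linarith
  have rA : ‖D.A‖ ≤ R := by linarith
  have rB : ‖D.B‖ ≤ R := by linarith
  clear_value R
  -- lower bounds
  have low : ∀ c d : YY, c ∈ Pos → c * d = 1 → N0 (1 / 2) Λ' (fn d) → ∀ x ∈ Disc, δ ≤ fn c x := by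
    intro c d hc hcd hd x hx
    obtain ⟨e, he, hce⟩ := hc
    have h1 : fn c x * fn d x = 1 := by rw [← fn_mul hx, hcd, fn_one hx]
    have h2 := (abs_le.1 (hd.1 x hx)).2
    have h3 := hce x hx
    rw [hδ, div_le_iff₀ hΛ0]
    have : 0 < fn c x := by linarith
    nlinarith
  have lowb : ∀ x ∈ Disc, δ ≤ fn b x := low b a pb (by rw [mul_comm]; exact hab) hav'
  have lowa' : ∀ x ∈ Disc, δ ≤ fn a' x := low a' b' pa' hab' hbw'
  -- the equation for the difference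
  set z := v - w with hz
  have hdiffa : a - a' = (t - s) • (D.al1 - D.al0) + D.A z := by
    rw [ha, ha', hz, NL.a, NL.a, map_sub]; module
  have hdiffb : b - b' = (t - s) • (D.be1 - D.be0) + D.B z := by
    rw [hb, hb', hz, NL.b, NL.b, map_sub]; module
  have heq : b * D.A z + a' * D.B z
      = -((t - s) • ((D.al1 - D.al0) * b + (D.be1 - D.be0) * a')) := by
    have h1 : (a - a') * b + a' * (b - b') = 0 := by
      have : (a - a') * b + a' * (b - b') = a * b - a' * b' := by ring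
      rw [this, hab, hab', sub_self]
    rw [hdiffa, hdiffb] at h1
    have h2 : ((t - s) • (D.al1 - D.al0) + D.A z) * b + a' * ((t - s) • (D.be1 - D.be0) + D.B z)
        = (b * D.A z + a' * D.B z) + (t - s) • ((D.al1 - D.al0) * b + (D.be1 - D.be0) * a') := by
      rw [add_mul, mul_add, smul_mul_assoc, mul_smul_comm, smul_add, mul_comm (D.A z) b,
        mul_comm a' (D.be1 - D.be0)]
      abel
    rw [h2] at h1
    exact eq_neg_of_add_eq_zero_left h1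
  -- norms of b, a'
  have hts : ∀ (r : ℝ), r ∈ Icc (0 : ℝ) 1 → ∀ (c0 c1 : YY) (T : XX →L[ℝ] YY) (y : XX),
      ‖c0‖ ≤ R → ‖c1‖ ≤ R → ‖T‖ ≤ R → ‖(1 - r) • c0 + r • c1 + T y‖ ≤ R * (1 + ‖y‖) := by
    intro r hr c0 c1 T y h0 h1 hT
    have hr0 := hr.1
    have hr1 : 0 ≤ 1 - r := by linarith [hr.2]
    calc ‖(1 - r) • c0 + r • c1 + T y‖ ≤ ‖(1 - r) • c0‖ + ‖r • c1‖ + ‖T y‖ := norm_add₃_le
      _ = (1 - r) * ‖c0‖ + r * ‖c1‖ + ‖T y‖ := by
          rw [norm_smul, norm_smul, Real.norm_of_nonneg hr0, Real.norm_of_nonneg hr1]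
      _ ≤ (1 - r) * R + r * R + R * ‖y‖ := by
          gcongr
          exact (T.le_opNorm y).trans (by gcongr)
      _ = R * (1 + ‖y‖) := by ring
  have nb : ‖b‖ ≤ R * (1 + ‖v‖) := hts t ht _ _ _ _ rb0 rb1 rB
  have na' : ‖a'‖ ≤ R * (1 + ‖w‖) := hts s hs _ _ _ _ ra0 ra1 rA
  set m : ℝ := 1 + ‖v‖ + ‖w‖ with hm
  have hv0 := norm_nonneg v
  have hw0 := norm_nonneg w
  have hm1 : 1 ≤ m := by linarith
  have nb2 : ‖b‖ ≤ R * m := nb.trans (by gcongr; linarith)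
  have na2 : ‖a'‖ ≤ R * m := na'.trans (by gcongr; linarith)
  -- coefficient bounds
  have hfnR : ∀ c : YY, ‖c‖ ≤ R → N0 (1 / 2) R (fn c) := fun c hc => (fn_N0 c).mono hc
  have cN0 : ∀ p q r u : YY, ‖p‖ ≤ R → ‖q‖ ≤ R → ‖r‖ ≤ R → ‖u‖ ≤ R →
      N0 (1 / 2) Lam (fn (b * (p * q) + a' * (r * u))) := by
    intro p q r u hp hq hr hu
    have h1 := N0_fn_mul hbv' (N0_fn_mul (hfnR p hp) (hfnR q hq))
    have h2 := N0_fn_mul haw' (N0_fn_mul (hfnR r hr) (hfnR u hu))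
    refine (N0_fn_add h1 h2).mono (le_of_eq ?_)
    rw [hLam]; ring
  have cN0' : ∀ p q : YY, ‖p‖ ≤ R → ‖q‖ ≤ R → N0 (1 / 2) Lam (fn (b * p + a' * q)) := by
    intro p q hp hq
    have h1 := N0_fn_mul hbv' (hfnR p hp)
    have h2 := N0_fn_mul haw' (hfnR q hq)
    refine (N0_fn_add h1 h2).mono ?_
    rw [hLam]
    have h3 : R ≤ R ^ 2 := by nlinarith only [hR1]
    have h4 : Λ' * R ≤ Λ' * R ^ 2 := mul_le_mul_of_nonneg_left h3 hΛ0.le
    have h5 : 0 ≤ Λ' * R ^ 2 := by positivity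
    calc 2 * Λ' * R + 2 * Λ' * R = 4 * (Λ' * R) := by ring
      _ ≤ 4 * (Λ' * R ^ 2) := by linarith only [h4]
      _ ≤ 8 * (Λ' * R ^ 2) := by linarith only [h5]
      _ = 8 * Λ' * R ^ 2 := by ring
  have cK : ∀ p q r u : YY, ‖p‖ ≤ R → ‖q‖ ≤ R → ‖r‖ ≤ R → ‖u‖ ≤ R →
      ‖b * (p * q) + a' * (r * u)‖ ≤ 2 * R ^ 3 * m := by
    intro p q r u hp hq hr hu
    have h1 : ‖b * (p * q)‖ ≤ R * m * (R * R) := by
      refine (norm_mul_le _ _).trans ?_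
      gcongr
      exact (norm_mul_le _ _).trans (by gcongr)
    have h2 : ‖a' * (r * u)‖ ≤ R * m * (R * R) := by
      refine (norm_mul_le _ _).trans ?_
      gcongr
      exact (norm_mul_le _ _).trans (by gcongr)
    calc ‖b * (p * q) + a' * (r * u)‖ ≤ _ := norm_add_le _ _
      _ ≤ R * m * (R * R) + R * m * (R * R) := add_le_add h1 h2
      _ = _ := by ring
  have cK' : ∀ p q : YY, ‖p‖ ≤ R → ‖q‖ ≤ R → ‖b * p + a' * q‖ ≤ 2 * R ^ 3 * m := by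
    intro p q hp hq
    have h1 : ‖b * p‖ ≤ R * m * R := (norm_mul_le _ _).trans (by gcongr)
    have h2 : ‖a' * q‖ ≤ R * m * R := (norm_mul_le _ _).trans (by gcongr)
    calc ‖b * p + a' * q‖ ≤ _ := norm_add_le _ _
      _ ≤ R * m * R + R * m * R := add_le_add h1 h2
      _ = 2 * (R ^ 2 * m) := by ring
      _ ≤ 2 * (R ^ 3 * m) := by
          have h3 : R ^ 2 ≤ R ^ 3 := pow_le_pow_right₀ hR1 (by norm_num)
          gcongr
      _ = _ := by ring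
  have hell : Ell mu (fn (b * (D.X1 * D.X1) + a' * (D.E1 * D.E1)))
      (fn (b * (D.X1 * D.X2) + a' * (D.E1 * D.E2)))
      (fn (b * (D.X2 * D.X2) + a' * (D.E2 * D.E2))) :=
    D.ell hl hδ0 hLam0 hD lowa' lowb (cN0 _ _ _ _ rX2 rX2 rE2 rE2).1
  set f : YY := -((t - s) • ((D.al1 - D.al0) * b + (D.be1 - D.be0) * a')) with hf
  have hLf : LY (b * (D.X1 * D.X1) + a' * (D.E1 * D.E1)) (b * (D.X1 * D.X2) + a' * (D.E1 * D.E2))
      (b * (D.X2 * D.X2) + a' * (D.E2 * D.E2)) (b * D.P1 + a' * D.Q1) (b * D.P2 + a' * D.Q2) z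
      = f := by rw [← comb, heq]
  have nal : ‖D.al1 - D.al0‖ ≤ 2 * R := (norm_sub_le _ _).trans (by linarith only [ra0, ra1])
  have nbe : ‖D.be1 - D.be0‖ ≤ 2 * R := (norm_sub_le _ _).trans (by linarith only [rb0, rb1])
  have nf : ‖f‖ ≤ |t - s| * (4 * R ^ 2 * m) := by
    rw [hf, norm_neg, norm_smul, Real.norm_eq_abs]
    gcongr
    calc ‖(D.al1 - D.al0) * b + (D.be1 - D.be0) * a'‖ ≤ _ := norm_add_le _ _
      _ ≤ 2 * R * (R * m) + 2 * R * (R * m) := by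
          apply add_le_add
          · exact (norm_mul_le _ _).trans (by gcongr)
          · exact (norm_mul_le _ _).trans (by gcongr)
      _ = _ := by ring
  have Nf : N0 (1 / 2) (|t - s| * (8 * R * Λ')) (fn f) := by
    have h1 := N0_fn_mul ((fn_N0 (D.al1 - D.al0)).mono nal) hbv'
    have h2 := N0_fn_mul ((fn_N0 (D.be1 - D.be0)).mono nbe) haw'
    have h3 := (N0_fn_add h1 h2).smul (-(t - s))
    refine (h3.mono (le_of_eq ?_)).congr fun x _ => ?_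
    · rw [abs_neg]; ring
    · rw [hf, ← neg_smul, fn_smul]
  have key := hC _ _ _ _ _ z (2 * R ^ 3 * m) (|t - s| * (8 * R * Λ'))
    (cN0 _ _ _ _ rX1 rX1 rE1 rE1) (cN0 _ _ _ _ rX1 rX2 rE1 rE2) (cN0 _ _ _ _ rX2 rX2 rE2 rE2)
    (cN0' _ _ rP1 rQ1) (cN0' _ _ rP2 rQ2)
    (cK _ _ _ _ rX1 rX1 rE1 rE1) (cK _ _ _ _ rX1 rX2 rE1 rE2) (cK _ _ _ _ rX2 rX2 rE2 rE2)
    (cK' _ _ rP1 rQ1) (cK' _ _ rP2 rQ2) hell (by rw [hLf]; exact Nf)
  rw [hLf] at key
  have hts0 := abs_nonneg (t - s)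
  refine key.trans ?_
  have h1 : ‖f‖ + (1 + 2 * R ^ 3 * m) * (|t - s| * (8 * R * Λ'))
      ≤ |t - s| * (4 * R ^ 2 * m) + (1 * m + 2 * R ^ 3 * m) * (|t - s| * (8 * R * Λ')) := by
    gcongr
    linarith only [hm1]
  calc C * (‖f‖ + (1 + 2 * R ^ 3 * m) * (|t - s| * (8 * R * Λ')))
      ≤ C * (|t - s| * (4 * R ^ 2 * m) + (1 * m + 2 * R ^ 3 * m) * (|t - s| * (8 * R * Λ'))) := by
        gcongr
    _ = C * (4 * R ^ 2 + (1 + 2 * R ^ 3) * (8 * R * Λ')) * |t - s| * m := by ring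
    _ ≤ C * (4 * R ^ 2 * (1 + R) + (1 + 4 * R ^ 3 * (1 + R)) * (8 * R * Λ')) * |t - s| * m := by
        have h3 : 4 * R ^ 2 ≤ 4 * R ^ 2 * (1 + R) := by
          have : 0 ≤ 4 * R ^ 2 * R := by positivity
          linarith only [this]
        have h4 : 2 * R ^ 3 ≤ 4 * R ^ 3 * (1 + R) := by
          have : 0 ≤ 4 * R ^ 3 * R := by positivity
          have h5 : 0 ≤ R ^ 3 := by positivity
          linarith only [this, h5]
        gcongr

end NL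

end AQ
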