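import Pool.Agent.Lib_helper42.AQ.Defs

/-! Calculus of the Hölder classes on the closed unit disc. -/

namespace AQ

open AP Set Filter Topology
open scoped ContDiff

lemma disc_convex : Convex ℝ Disc := by
  intro x hx y hy a b ha hb hab
  simp only [Disc, mem_ofPred_eq] at *
  simp only [Prod.fst_add, Prod.smul_fst, Prod.snd_add, Prod.smul_snd, smul_eq_mul]
  have hb' : b = 1 - a := by linarith
  subst hb'
  nlinarith [mul_nonneg ha hb, mul_nonneg (mul_nonneg ha hb) (sq_nonneg (x.1 - y.1)),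
    mul_nonneg (mul_nonneg ha hb) (sq_nonneg (x.2 - y.2)), mul_nonneg ha (sub_nonneg.2 hx),
    mul_nonneg hb (sub_nonneg.2 hy)]

lemma disc_closed : IsClosed Disc :=
  isClosed_le (by fun_prop) continuous_const

lemma disc_abs1 {x : ℝ × ℝ} (hx : x ∈ Disc) : |x.1| ≤ 1 := by
  have h : x.1 ^ 2 + x.2 ^ 2 ≤ 1 := hx
  rw [abs_le]
  constructor <;> nlinarith [sq_nonneg x.2, sq_nonneg (x.1 - 1), sq_nonneg (x.1 + 1)]

lemma disc_abs2 {x : ℝ × ℝ} (hx : x ∈ Disc) : |x.2| ≤ 1 := by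
  have h : x.1 ^ 2 + x.2 ^ 2 ≤ 1 := hx
  rw [abs_le]
  constructor <;> nlinarith [sq_nonneg x.1, sq_nonneg (x.2 - 1), sq_nonneg (x.2 + 1)]

lemma disc_dist {x y : ℝ × ℝ} (hx : x ∈ Disc) (hy : y ∈ Disc) : dist x y ≤ 2 := by
  rw [Prod.dist_eq, Real.dist_eq, Real.dist_eq]
  have h1 := abs_le.1 (disc_abs1 hx)
  have h2 := abs_le.1 (disc_abs2 hx)
  have h3 := abs_le.1 (disc_abs1 hy)
  have h4 := abs_le.1 (disc_abs2 hy)
  refine max_le ?_ ?_ <;> rw [abs_le] <;> constructor <;> linarith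

lemma disc_zero : (0 : ℝ × ℝ) ∈ Disc := by simp [Disc]

lemma disc_bdd : Bornology.IsBounded Disc := by
  rw [Metric.isBounded_iff]
  exact ⟨2, fun x hx y hy => disc_dist hx hy⟩

lemma disc_compact : IsCompact Disc := Metric.isCompact_of_isClosed_isBounded disc_closed disc_bdd

section basic

variable {α M M' : ℝ} {f g : ℝ × ℝ → ℝ}

lemma Bd.nonneg (h : Bd M f) : 0 ≤ M := (abs_nonneg _).trans (h 0 disc_zero)

lemma Bd.mono (h : Bd M f) (hM : M ≤ M') : Bd M' f := fun x hx => (h x hx).trans hM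

lemma Hol.mono (h : Hol α M f) (hM : M ≤ M') : Hol α M' f := fun x hx y hy =>
  (h x hx y hy).trans (mul_le_mul_of_nonneg_right hM (Real.rpow_nonneg dist_nonneg _))

lemma N0.mono (h : N0 α M f) (hM : M ≤ M') : N0 α M' f := ⟨h.1.mono hM, h.2.mono hM⟩
lemma N1.mono (h : N1 α M f) (hM : M ≤ M') : N1 α M' f :=
  ⟨h.1.mono hM, h.2.1.mono hM, h.2.2.mono hM⟩
lemma N2.mono (h : N2 α M f) (hM : M ≤ M') : N2 α M' f :=
  ⟨h.1.mono hM, h.2.1.mono hM, h.2.2.mono hM⟩
lemma N3.mono (h : N3 α M f) (hM : M ≤ M') : N3 α M' f :=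
  ⟨h.1.mono hM, h.2.1.mono hM, h.2.2.mono hM⟩

lemma N0.nonneg (h : N0 α M f) : 0 ≤ M := h.1.nonneg
lemma N1.nonneg (h : N1 α M f) : 0 ≤ M := h.1.nonneg
lemma N2.nonneg (h : N2 α M f) : 0 ≤ M := h.1.nonneg
lemma N3.nonneg (h : N3 α M f) : 0 ≤ M := h.1.nonneg

/-- the bounds are closed conditions in the constant -/
lemma Bd.closed (h : ∀ ε > 0, Bd (M + ε) f) : Bd M f := fun x hx =>
  le_of_forall_pos_le_add fun ε hε => h ε hε x hx

lemma Hol.closed (h : ∀ ε > 0, Hol α (M + ε) f) : Hol α M f := fun x hx y hy => by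
  refine le_of_forall_pos_le_add fun ε hε => ?_
  have hd : 0 ≤ dist x y ^ α := Real.rpow_nonneg dist_nonneg _
  have := h (ε / (dist x y ^ α + 1)) (by positivity) x hx y hy
  refine this.trans ?_
  rw [add_mul]
  gcongr
  rw [div_mul_eq_mul_div, div_le_iff₀ (by positivity)]
  nlinarith

lemma N0.closed (h : ∀ ε > 0, N0 α (M + ε) f) : N0 α M f :=
  ⟨Bd.closed fun ε hε => (h ε hε).1, Hol.closed fun ε hε => (h ε hε).2⟩
lemma N1.closed (h : ∀ ε > 0, N1 α (M + ε) f) : N1 α M f :=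
  ⟨Bd.closed fun ε hε => (h ε hε).1, N0.closed fun ε hε => (h ε hε).2.1,
    N0.closed fun ε hε => (h ε hε).2.2⟩
lemma N2.closed (h : ∀ ε > 0, N2 α (M + ε) f) : N2 α M f :=
  ⟨Bd.closed fun ε hε => (h ε hε).1, N1.closed fun ε hε => (h ε hε).2.1,
    N1.closed fun ε hε => (h ε hε).2.2⟩
lemma N3.closed (h : ∀ ε > 0, N3 α (M + ε) f) : N3 α M f :=
  ⟨Bd.closed fun ε hε => (h ε hε).1, N2.closed fun ε hε => (h ε hε).2.1,
    N2.closed fun ε hε => (h ε hε).2.2⟩

/-- only the values on the disc matter for `Bd`, `Hol`, `N0` -/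
lemma Bd.congr (h : Bd M f) (he : ∀ x ∈ Disc, f x = g x) : Bd M g := fun x hx => by
  rw [← he x hx]; exact h x hx

lemma Hol.congr (h : Hol α M f) (he : ∀ x ∈ Disc, f x = g x) : Hol α M g :=
  fun x hx y hy => by rw [← he x hx, ← he y hy]; exact h x hx y hy

lemma N0.congr (h : N0 α M f) (he : ∀ x ∈ Disc, f x = g x) : N0 α M g :=
  ⟨h.1.congr he, h.2.congr he⟩

lemma Bd.add (hf : Bd M f) (hg : Bd M' g) : Bd (M + M') (fun x => f x + g x) := fun x hx =>
  (abs_add_le _ _).trans (add_le_add (hf x hx) (hg x hx))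

lemma Hol.add (hf : Hol α M f) (hg : Hol α M' g) : Hol α (M + M') (fun x => f x + g x) :=
  fun x hx y hy => by
    have e : f x + g x - (f y + g y) = (f x - f y) + (g x - g y) := by ring
    rw [e, add_mul]
    exact (abs_add_le _ _).trans (add_le_add (hf x hx y hy) (hg x hx y hy))

lemma N0.add (hf : N0 α M f) (hg : N0 α M' g) : N0 α (M + M') (fun x => f x + g x) :=
  ⟨hf.1.add hg.1, hf.2.add hg.2⟩

lemma Bd.smul (c : ℝ) (hf : Bd M f) : Bd (|c| * M) (fun x => c * f x) := fun x hx => by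
  rw [abs_mul]; exact mul_le_mul_of_nonneg_left (hf x hx) (abs_nonneg c)

lemma Hol.smul (c : ℝ) (hf : Hol α M f) : Hol α (|c| * M) (fun x => c * f x) :=
  fun x hx y hy => by
    rw [← mul_sub, abs_mul, mul_assoc]
    exact mul_le_mul_of_nonneg_left (hf x hx y hy) (abs_nonneg c)

lemma N0.smul (c : ℝ) (hf : N0 α M f) : N0 α (|c| * M) (fun x => c * f x) :=
  ⟨hf.1.smul c, hf.2.smul c⟩

lemma Bd.neg (hf : Bd M f) : Bd M (fun x => -f x) := fun x hx => by
  rw [abs_neg]; exact hf x hx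

lemma Hol.neg (hf : Hol α M f) : Hol α M (fun x => -f x) := fun x hx y hy => by
  have e : -f x - -f y = -(f x - f y) := by ring
  rw [e, abs_neg]; exact hf x hx y hy

lemma N0.neg (hf : N0 α M f) : N0 α M (fun x => -f x) := ⟨hf.1.neg, hf.2.neg⟩

lemma Bd.sub (hf : Bd M f) (hg : Bd M' g) : Bd (M + M') (fun x => f x - g x) := by
  simpa [sub_eq_add_neg] using hf.add hg.neg

lemma Hol.sub (hf : Hol α M f) (hg : Hol α M' g) : Hol α (M + M') (fun x => f x - g x) := by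
  simpa [sub_eq_add_neg] using hf.add hg.neg

lemma N0.sub (hf : N0 α M f) (hg : N0 α M' g) : N0 α (M + M') (fun x => f x - g x) :=
  ⟨hf.1.sub hg.1, hf.2.sub hg.2⟩

lemma Bd.mul (hf : Bd M f) (hg : Bd M' g) : Bd (M * M') (fun x => f x * g x) := fun x hx => by
  rw [abs_mul]
  exact mul_le_mul (hf x hx) (hg x hx) (abs_nonneg _) hf.nonneg

lemma N0.mul (hf : N0 α M f) (hg : N0 α M' g) : N0 α (2 * M * M') (fun x => f x * g x) := by
  have h0 := hf.nonneg
  have h1 := hg.nonneg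
  refine ⟨(hf.1.mul hg.1).mono (by nlinarith [mul_nonneg h0 h1]), fun x hx y hy => ?_⟩
  have e : f x * g x - f y * g y = f x * (g x - g y) + g y * (f x - f y) := by ring
  have hd : 0 ≤ dist x y ^ α := Real.rpow_nonneg dist_nonneg _
  rw [e]
  calc |f x * (g x - g y) + g y * (f x - f y)|
      ≤ |f x| * |g x - g y| + |g y| * |f x - f y| := by
        rw [← abs_mul, ← abs_mul]; exact abs_add_le _ _
    _ ≤ M * (M' * dist x y ^ α) + M' * (M * dist x y ^ α) := by
        gcongr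
        · exact hf.1 x hx
        · exact hg.2 x hx y hy
        · exact hg.1 y hy
        · exact hf.2 x hx y hy
    _ = _ := by ring

lemma N0.const (c : ℝ) : N0 α |c| (fun _ => c) := by
  refine ⟨fun x _ => le_refl _, fun x _ y _ => ?_⟩
  have hd : 0 ≤ dist x y ^ α := Real.rpow_nonneg dist_nonneg _
  rw [sub_self, abs_zero]
  exact mul_nonneg (abs_nonneg _) hd

/-- mean value inequality on the disc -/
lemma lip_of_bd (hf : Differentiable ℝ f) (h1 : Bd M (D1 f)) (h2 : Bd M (D2 f)) :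
    Lip (2 * M) f := by
  intro x hx y hy
  have hM := h1.nonneg
  have key : ‖f x - f y‖ ≤ 2 * M * ‖x - y‖ := by
    apply disc_convex.norm_image_sub_le_of_norm_fderiv_le (𝕜 := ℝ) (fun z _ => hf z) _ hy hx
    intro z hz
    apply ContinuousLinearMap.opNorm_le_bound _ (by positivity)
    intro v
    rw [fderiv_apply_eq, Real.norm_eq_abs]
    have hv1 : |v.1| ≤ ‖v‖ := by
      rw [Prod.norm_def]; exact le_max_left _ _
    have hv2 : |v.2| ≤ ‖v‖ := by
      rw [Prod.norm_def]; exact le_max_right _ _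
    calc |v.1 * D1 f z + v.2 * D2 f z| ≤ |v.1| * |D1 f z| + |v.2| * |D2 f z| := by
          rw [← abs_mul, ← abs_mul]; exact abs_add_le _ _
      _ ≤ ‖v‖ * M + ‖v‖ * M := by
          gcongr
          · exact h1 z hz
          · exact h2 z hz
      _ = 2 * M * ‖v‖ := by ring
  rw [Real.norm_eq_abs, ← dist_eq_norm] at key
  exact key

lemma dist_le_rpow (hα0 : 0 < α) (hα1 : α < 1) {x y : ℝ × ℝ} (hx : x ∈ Disc) (hy : y ∈ Disc) :
    dist x y ≤ 2 * dist x y ^ α := by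
  have h0 : 0 ≤ dist x y := dist_nonneg
  have h2 := disc_dist hx hy
  rcases h0.eq_or_lt with h | h
  · rw [← h]; positivity
  have e : dist x y = dist x y ^ (1 - α) * dist x y ^ α := by
    rw [← Real.rpow_add h]; norm_num
  calc dist x y = dist x y ^ (1 - α) * dist x y ^ α := e
    _ ≤ 2 * dist x y ^ α := by
        gcongr
        calc dist x y ^ (1 - α) ≤ 2 ^ (1 - α) := by
              apply Real.rpow_le_rpow h0 h2; linarith
          _ ≤ 2 ^ (1 : ℝ) := Real.rpow_le_rpow_of_exponent_le (by norm_num) (by linarith)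
          _ = 2 := by norm_num

lemma Lip.hol (hα0 : 0 < α) (hα1 : α < 1) (h : Lip M f) (hM : 0 ≤ M) : Hol α (2 * M) f := by
  intro x hx y hy
  calc |f x - f y| ≤ M * dist x y := h x hx y hy
    _ ≤ M * (2 * dist x y ^ α) := by gcongr; exact dist_le_rpow hα0 hα1 hx hy
    _ = _ := by ring

/-- `C¹` bounds give Hölder bounds -/
lemma N0.of_bd (hα0 : 0 < α) (hα1 : α < 1) (hf : Differentiable ℝ f) (h : Bd M f)
    (h1 : Bd M (D1 f)) (h2 : Bd M (D2 f)) : N0 α (4 * M) f := by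
  have hM := h1.nonneg
  refine ⟨h.mono (by linarith), ?_⟩
  exact ((lip_of_bd hf h1 h2).hol hα0 hα1 (by positivity)).mono (by linarith)

lemma N1.n0 (hα0 : 0 < α) (hα1 : α < 1) (hf : Differentiable ℝ f) (h : N1 α M f) :
    N0 α (4 * M) f := N0.of_bd hα0 hα1 hf h.1 h.2.1.1 h.2.2.1

lemma N2.n1 (hα0 : 0 < α) (hα1 : α < 1) (h1 : Differentiable ℝ (D1 f))
    (h2 : Differentiable ℝ (D2 f)) (h : N2 α M f) : N1 α (4 * M) f :=
  ⟨h.1.mono (by linarith [h.nonneg]), h.2.1.n0 hα0 hα1 h1, h.2.2.n0 hα0 hα1 h2⟩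

lemma D1_addf (hf : Differentiable ℝ f) (hg : Differentiable ℝ g) :
    D1 (fun y => f y + g y) = fun x => D1 f x + D1 g x := funext fun x => D1_add (hf x) (hg x)
lemma D2_addf (hf : Differentiable ℝ f) (hg : Differentiable ℝ g) :
    D2 (fun y => f y + g y) = fun x => D2 f x + D2 g x := funext fun x => D2_add (hf x) (hg x)
lemma D1_subf (hf : Differentiable ℝ f) (hg : Differentiable ℝ g) :
    D1 (fun y => f y - g y) = fun x => D1 f x - D1 g x := funext fun x => D1_sub (hf x) (hg x)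
lemma D2_subf (hf : Differentiable ℝ f) (hg : Differentiable ℝ g) :
    D2 (fun y => f y - g y) = fun x => D2 f x - D2 g x := funext fun x => D2_sub (hf x) (hg x)
lemma D1_mulf (hf : Differentiable ℝ f) (hg : Differentiable ℝ g) :
    D1 (fun y => f y * g y) = fun x => D1 f x * g x + f x * D1 g x :=
  funext fun x => D1_mul (hf x) (hg x)
lemma D2_mulf (hf : Differentiable ℝ f) (hg : Differentiable ℝ g) :
    D2 (fun y => f y * g y) = fun x => D2 f x * g x + f x * D2 g x :=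
  funext fun x => D2_mul (hf x) (hg x)
lemma D1_smulf (c : ℝ) (hf : Differentiable ℝ f) : D1 (fun y => c * f y) = fun x => c * D1 f x :=
  funext fun x => D1_const_mul c (hf x)
lemma D2_smulf (c : ℝ) (hf : Differentiable ℝ f) : D2 (fun y => c * f y) = fun x => c * D2 f x :=
  funext fun x => D2_const_mul c (hf x)

lemma N1.add (df : Differentiable ℝ f) (dg : Differentiable ℝ g) (hf : N1 α M f)
    (hg : N1 α M' g) : N1 α (M + M') (fun x => f x + g x) := by
  refine ⟨hf.1.add hg.1, ?_, ?_⟩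
  · rw [D1_addf df dg]; exact hf.2.1.add hg.2.1
  · rw [D2_addf df dg]; exact hf.2.2.add hg.2.2

lemma N1.sub (df : Differentiable ℝ f) (dg : Differentiable ℝ g) (hf : N1 α M f)
    (hg : N1 α M' g) : N1 α (M + M') (fun x => f x - g x) := by
  refine ⟨hf.1.sub hg.1, ?_, ?_⟩
  · rw [D1_subf df dg]; exact hf.2.1.sub hg.2.1
  · rw [D2_subf df dg]; exact hf.2.2.sub hg.2.2

lemma N1.smul (c : ℝ) (df : Differentiable ℝ f) (hf : N1 α M f) :
    N1 α (|c| * M) (fun x => c * f x) := by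
  refine ⟨hf.1.smul c, ?_, ?_⟩
  · rw [D1_smulf c df]; exact hf.2.1.smul c
  · rw [D2_smulf c df]; exact hf.2.2.smul c

lemma N1.mul (hα0 : 0 < α) (hα1 : α < 1) (df : Differentiable ℝ f) (dg : Differentiable ℝ g)
    (hf : N1 α M f) (hg : N1 α M' g) : N1 α (16 * M * M') (fun x => f x * g x) := by
  have h0 := hf.nonneg
  have h0' := hg.nonneg
  have hm := mul_nonneg h0 h0'
  have hfz := hf.n0 hα0 hα1 df
  have hgz := hg.n0 hα0 hα1 dg
  refine ⟨(hf.1.mul hg.1).mono (by nlinarith), ?_, ?_⟩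
  · rw [D1_mulf df dg]
    exact ((hf.2.1.mul hgz).add (hfz.mul hg.2.1)).mono (by nlinarith)
  · rw [D2_mulf df dg]
    exact ((hf.2.2.mul hgz).add (hfz.mul hg.2.2)).mono (by nlinarith)

lemma exists_bd (hf : Continuous f) : ∃ M, 0 ≤ M ∧ Bd M f := by
  obtain ⟨M, hM⟩ := disc_compact.exists_bound_of_continuousOn hf.continuousOn
  refine ⟨max M 0, le_max_right _ _, fun x hx => ?_⟩
  have := hM x hx
  rw [Real.norm_eq_abs] at this
  exact this.trans (le_max_left _ _)

lemma exists_N0 (hα0 : 0 < α) (hα1 : α < 1) (hf : ContDiff ℝ 1 f) : ∃ M, 0 ≤ M ∧ N0 α M f := by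
  obtain ⟨M0, h0, hb0⟩ := exists_bd hf.continuous
  obtain ⟨M1, h1, hb1⟩ := exists_bd (cd_D1 (n := 0) (by simpa using hf)).continuous
  obtain ⟨M2, h2, hb2⟩ := exists_bd (cd_D2 (n := 0) (by simpa using hf)).continuous
  refine ⟨4 * (M0 + M1 + M2), by positivity, ?_⟩
  exact N0.of_bd hα0 hα1 (hf.differentiable (by norm_num)) (hb0.mono (by linarith))
    (hb1.mono (by linarith)) (hb2.mono (by linarith))

lemma exists_N1 (hα0 : 0 < α) (hα1 : α < 1) (hf : ContDiff ℝ 2 f) : ∃ M, 0 ≤ M ∧ N1 α M f := by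
  obtain ⟨M0, h0, hb0⟩ := exists_bd hf.continuous
  obtain ⟨M1, h1, hb1⟩ := exists_N0 hα0 hα1 (cd_D1 (n := 1) (by simpa using hf))
  obtain ⟨M2, h2, hb2⟩ := exists_N0 hα0 hα1 (cd_D2 (n := 1) (by simpa using hf))
  exact ⟨M0 + M1 + M2, by positivity, hb0.mono (by linarith), hb1.mono (by linarith),
    hb2.mono (by linarith)⟩

lemma exists_N2 (hα0 : 0 < α) (hα1 : α < 1) (hf : ContDiff ℝ 3 f) : ∃ M, 0 ≤ M ∧ N2 α M f := by
  obtain ⟨M0, h0, hb0⟩ := exists_bd hf.continuous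
  obtain ⟨M1, h1, hb1⟩ := exists_N1 hα0 hα1 (cd_D1 (n := 2) (by simpa using hf))
  obtain ⟨M2, h2, hb2⟩ := exists_N1 hα0 hα1 (cd_D2 (n := 2) (by simpa using hf))
  exact ⟨M0 + M1 + M2, by positivity, hb0.mono (by linarith), hb1.mono (by linarith),
    hb2.mono (by linarith)⟩

lemma exists_N3 (hα0 : 0 < α) (hα1 : α < 1) (hf : ContDiff ℝ 4 f) : ∃ M, 0 ≤ M ∧ N3 α M f := by
  obtain ⟨M0, h0, hb0⟩ := exists_bd hf.continuous
  obtain ⟨M1, h1, hb1⟩ := exists_N2 hα0 hα1 (cd_D1 (n := 3) (by simpa using hf))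
  obtain ⟨M2, h2, hb2⟩ := exists_N2 hα0 hα1 (cd_D2 (n := 3) (by simpa using hf))
  exact ⟨M0 + M1 + M2, by positivity, hb0.mono (by linarith), hb1.mono (by linarith),
    hb2.mono (by linarith)⟩

lemma N2.add (df : ContDiff ℝ 2 f) (dg : ContDiff ℝ 2 g) (hf : N2 α M f)
    (hg : N2 α M' g) : N2 α (M + M') (fun x => f x + g x) := by
  have f1 := (cd_D1 (n := 1) (by simpa using df)).differentiable (by norm_num)
  have f2 := (cd_D2 (n := 1) (by simpa using df)).differentiable (by norm_num)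
  have g1 := (cd_D1 (n := 1) (by simpa using dg)).differentiable (by norm_num)
  have g2 := (cd_D2 (n := 1) (by simpa using dg)).differentiable (by norm_num)
  have f0 := df.differentiable (by norm_num)
  have g0 := dg.differentiable (by norm_num)
  refine ⟨hf.1.add hg.1, ?_, ?_⟩
  · rw [D1_addf f0 g0]; exact hf.2.1.add f1 g1 hg.2.1
  · rw [D2_addf f0 g0]; exact hf.2.2.add f2 g2 hg.2.2

lemma N2.smul (c : ℝ) (df : ContDiff ℝ 2 f) (hf : N2 α M f) :
    N2 α (|c| * M) (fun x => c * f x) := by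
  have f1 := (cd_D1 (n := 1) (by simpa using df)).differentiable (by norm_num)
  have f2 := (cd_D2 (n := 1) (by simpa using df)).differentiable (by norm_num)
  have f0 := df.differentiable (by norm_num)
  refine ⟨hf.1.smul c, ?_, ?_⟩
  · rw [D1_smulf c f0]; exact hf.2.1.smul c f1
  · rw [D2_smulf c f0]; exact hf.2.2.smul c f2

lemma N3.add (df : ContDiff ℝ 3 f) (dg : ContDiff ℝ 3 g) (hf : N3 α M f)
    (hg : N3 α M' g) : N3 α (M + M') (fun x => f x + g x) := by
  have f1 := cd_D1 (n := 2) (by simpa using df)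
  have f2 := cd_D2 (n := 2) (by simpa using df)
  have g1 := cd_D1 (n := 2) (by simpa using dg)
  have g2 := cd_D2 (n := 2) (by simpa using dg)
  have f0 := df.differentiable (by norm_num)
  have g0 := dg.differentiable (by norm_num)
  refine ⟨hf.1.add hg.1, ?_, ?_⟩
  · rw [D1_addf f0 g0]; exact hf.2.1.add f1 g1 hg.2.1
  · rw [D2_addf f0 g0]; exact hf.2.2.add f2 g2 hg.2.2

lemma N3.smul (c : ℝ) (df : ContDiff ℝ 3 f) (hf : N3 α M f) :
    N3 α (|c| * M) (fun x => c * f x) := by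
  have f1 := cd_D1 (n := 2) (by simpa using df)
  have f2 := cd_D2 (n := 2) (by simpa using df)
  have f0 := df.differentiable (by norm_num)
  refine ⟨hf.1.smul c, ?_, ?_⟩
  · rw [D1_smulf c f0]; exact hf.2.1.smul c f1
  · rw [D2_smulf c f0]; exact hf.2.2.smul c f2

end basic

end AQ
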